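import Mathlib

set_option autoImplicit false

namespace Pool.Agent.P.MP_ac4bd0_al.No

/-- Inverse semi-rational groups. -/
def ISR (G : Type) [Group G] : Prop :=
  ∃ n : ℕ, n ≠ 0 ∧ ∀ (g : G) (j : ℕ), j.Coprime n → IsConj g (g ^ j) ∨ IsConj g⁻¹ (g ^ j)

theorem exists_coprime (m n j₀ : ℕ) (hm : m ≠ 0) (hn : n ≠ 0) (h : j₀.Coprime m) :
    ∃ j : ℕ, j ≡ j₀ [MOD m] ∧ j.Coprime n := by
  have : NeZero (m * n) := ⟨mul_ne_zero hm hn⟩
  have : NeZero m := ⟨hm⟩
  obtain ⟨x, hx⟩ := ZMod.unitsMap_surjective (n := m) (m := m * n) (Dvd.intro n rfl)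
    (ZMod.unitOfCoprime j₀ h)
  refine ⟨(x : ZMod (m * n)).val, ?_, ?_⟩
  · rw [← ZMod.natCast_eq_natCast_iff]
    have := congrArg (fun u : (ZMod m)ˣ => (u : ZMod m)) hx
    simp only [ZMod.unitsMap_def, Units.coe_map, MonoidHom.coe_coe, ZMod.castHom_apply,
      ZMod.coe_unitOfCoprime] at this
    rw [ZMod.natCast_val, this]
  · exact (ZMod.val_coe_unit_coprime x).coprime_mul_left_right

theorem ISR.of_surjective {G H : Type} [Group G] [Group H] (f : G →* H)
    (hf : Function.Surjective f) (h : ISR G) : ISR H := by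
  obtain ⟨n, hn, h⟩ := h
  refine ⟨n, hn, fun g j hj => ?_⟩
  obtain ⟨g, rfl⟩ := hf g
  rcases h g j hj with h | h
  · left
    simpa using f.map_isConj h
  · right
    simpa using f.map_isConj h

/-- The working form: `j₀` only has to be coprime to an exponent of the image of `g`. -/
theorem ISR.use {G H : Type} [Group G] [Group H] (h : ISR G) (f : G →* H) (g : G) (m j₀ : ℕ)
    (hm : m ≠ 0) (hg : f g ^ m = 1) (hj : j₀.Coprime m) :
    ∃ t : G, f t * f g * (f t)⁻¹ = f g ^ j₀ ∨ f t * f g * (f t)⁻¹ = (f g ^ j₀)⁻¹ := by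
  obtain ⟨n, hn, h⟩ := h
  obtain ⟨j, hj1, hj2⟩ := exists_coprime m n j₀ hm hn hj
  have e : f g ^ j = f g ^ j₀ := by
    rw [pow_eq_pow_mod j hg, pow_eq_pow_mod j₀ hg, hj1]
  rcases h g j hj2 with h | h
  · obtain ⟨t, ht⟩ := isConj_iff.mp h
    refine ⟨t, Or.inl ?_⟩
    rw [← e, ← map_pow, ← ht]
    simp
  · obtain ⟨t, ht⟩ := isConj_iff.mp h
    refine ⟨t, Or.inr ?_⟩
    rw [← e, ← map_pow, ← ht]
    simp [mul_assoc]

/-- Stabiliser of a vector. -/
def stab {H W : Type} [Group H] [AddCommGroup W] [Module (ZMod 2) W]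
    (ρ : H →* Module.End (ZMod 2) W) (w : W) : Subgroup H where
  carrier := {h | ρ h w = w}
  one_mem' := by simp
  mul_mem' := by
    intro a b ha hb
    simp only [Set.mem_setOf_eq] at ha hb ⊢
    rw [map_mul, Module.End.mul_apply, hb, ha]
  inv_mem' := by
    intro a ha
    simp only [Set.mem_setOf_eq] at ha ⊢
    conv_lhs => rw [← ha]
    rw [← Module.End.mul_apply, ← map_mul]
    simp

theorem mem_stab {H W : Type} [Group H] [AddCommGroup W] [Module (ZMod 2) W]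
    {ρ : H →* Module.End (ZMod 2) W} {w : W} {h : H} : h ∈ stab ρ w ↔ ρ h w = w := Iff.rfl

/-- A nontrivial normal subgroup of a finite solvable group contains a nontrivial elementary
abelian normal subgroup that is minimal among the nontrivial normal subgroups. -/
theorem exists_min_normal {G : Type} [Group G] [Finite G] [Group.IsSolvable G] (L : Subgroup G)
    [hL : L.Normal] (h : L ≠ ⊥) :
    ∃ N : Subgroup G, N.Normal ∧ N ≠ ⊥ ∧ N ≤ L ∧
      (∀ M : Subgroup G, M.Normal → M ≠ ⊥ → M ≤ N → M = N) ∧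
      (∀ x ∈ N, ∀ y ∈ N, x * y = y * x) ∧ ∃ q : ℕ, q.Prime ∧ ∀ x ∈ N, x ^ q = 1 := by
  obtain ⟨N, ⟨hN, hN0, hNL⟩, hmin⟩ := (wellFounded_lt (α := Subgroup G)).has_min
    {N | N.Normal ∧ N ≠ ⊥ ∧ N ≤ L} ⟨L, hL, h, le_rfl⟩
  have hmin' : ∀ M : Subgroup G, M.Normal → M ≠ ⊥ → M ≤ N → M = N := by
    intro M hM hM0 hMN
    by_contra hne
    exact hmin M ⟨hM, hM0, hMN.trans hNL⟩ (lt_of_le_of_ne hMN hne)
  have hcomm : ∀ x ∈ N, ∀ y ∈ N, x * y = y * x := by
    have h1 : ⁅N, N⁆ < N := Group.IsSolvable.commutator_lt_of_ne_bot hN0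
    have h2 : ⁅N, N⁆ = ⊥ := by
      by_contra h2
      exact h1.ne (hmin' _ inferInstance h2 h1.le)
    intro x hx y hy
    have := Subgroup.commutator_mem_commutator hx hy
    rw [h2, Subgroup.mem_bot, commutatorElement_eq_one_iff_mul_comm] at this
    exact this
  refine ⟨N, hN, hN0, hNL, hmin', hcomm, ?_⟩
  have hcard : Nat.card N ≠ 1 := by
    intro h1
    exact hN0 (Subgroup.eq_bot_of_card_eq N h1)
  obtain ⟨q, hq, hqd⟩ := Nat.exists_prime_and_dvd hcard
  have := Fact.mk hq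
  obtain ⟨x, hx⟩ := exists_prime_orderOf_dvd_card' q hqd
  let M : Subgroup G :=
    { carrier := {y | y ∈ N ∧ y ^ q = 1}
      one_mem' := ⟨N.one_mem, one_pow q⟩
      mul_mem' := by
        rintro a b ⟨ha, ha'⟩ ⟨hb, hb'⟩
        refine ⟨N.mul_mem ha hb, ?_⟩
        rw [Commute.mul_pow (hcomm a ha b hb), ha', hb', one_mul]
      inv_mem' := by
        rintro a ⟨ha, ha'⟩
        exact ⟨N.inv_mem ha, by rw [inv_pow, ha', inv_one]⟩ }
  have hM : M.Normal := ⟨by
    rintro a ⟨ha, ha'⟩ g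
    exact ⟨hN.conj_mem a ha g, by rw [conj_pow, ha']; simp⟩⟩
  have hM0 : M ≠ ⊥ := by
    intro h0
    have h1 : (x : G) ∈ M := ⟨x.2, by
      have := pow_orderOf_eq_one x
      rw [hx] at this
      exact_mod_cast congrArg Subtype.val this⟩
    rw [h0, Subgroup.mem_bot] at h1
    have h2 : x = 1 := Subtype.ext h1
    rw [h2, orderOf_one] at hx
    exact hq.one_lt.ne hx
  have hMN := hmin' M hM hM0 (fun y hy => hy.1)
  refine ⟨q, hq, fun y hy => ?_⟩
  rw [← hMN] at hy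
  exact hy.2

/-- The relations between the elements of the test group that the proof uses. -/
structure Cfg (F : Type) [Field F] (α β : F) (H : Type) [Group H] where
  c : F → H
  u : F → H
  τ : F → H
  a : H
  b : H
  a_pow : a ^ 5 = 1
  b_pow : b ^ 7 = 1
  ab : a * b = b * a
  τ_add : ∀ s s', τ (s + s') = τ s * τ s'
  a_τ : ∀ s, a * τ s = τ (α * s) * a
  b_τ : ∀ s, b * τ s = τ (β * s) * b
  τ_c : ∀ s q, τ s * c q = c (q + s) * τ s
  τ_u : ∀ s q, τ s * u q = u (q + s) * τ s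
  a_u : ∀ q, a * u q = u (α * q) * a
  b_u : ∀ q, b * u q = u (β * q) * b
  u_sq : ∀ q, u q * u q = 1
  u_comm : ∀ q q', u q * u q' = u q' * u q
  c_pow : ∀ q, c q ^ 3 = 1
  u_c : ∀ q, u q * c q = (c q)⁻¹ * u q
  u_c' : ∀ q q', q ≠ q' → u q * c q' = c q' * u q

/-- Transport of a configuration along a homomorphism. -/
def Cfg.map {F : Type} [Field F] {α β : F} {H H' : Type} [Group H] [Group H'] (C : Cfg F α β H)
    (f : H →* H') : Cfg F α β H' where
  c q := f (C.c q)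
  u q := f (C.u q)
  τ s := f (C.τ s)
  a := f C.a
  b := f C.b
  a_pow := by rw [← map_pow, C.a_pow, map_one]
  b_pow := by rw [← map_pow, C.b_pow, map_one]
  ab := by rw [← map_mul, C.ab, map_mul]
  τ_add s s' := by rw [C.τ_add, map_mul]
  a_τ s := by rw [← map_mul, C.a_τ, map_mul]
  b_τ s := by rw [← map_mul, C.b_τ, map_mul]
  τ_c s q := by rw [← map_mul, C.τ_c, map_mul]
  τ_u s q := by rw [← map_mul, C.τ_u, map_mul]
  a_u q := by rw [← map_mul, C.a_u, map_mul]
  b_u q := by rw [← map_mul, C.b_u, map_mul]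
  u_sq q := by rw [← map_mul, C.u_sq, map_one]
  u_comm q q' := by rw [← map_mul, C.u_comm, map_mul]
  c_pow q := by rw [← map_pow, C.c_pow, map_one]
  u_c q := by rw [← map_mul, C.u_c, map_mul, map_inv]
  u_c' q q' h := by rw [← map_mul, C.u_c' q q' h, map_mul]

end Pool.Agent.P.MP_ac4bd0_al.No
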