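import Pool.Agent.P.MP_ac4bd0_al.No.Core

set_option autoImplicit false
set_option linter.unusedSectionVars false

namespace Pool.Agent.P.MP_ac4bd0_al.No

abbrev F2 := ZMod 2

/-- The span of the image of a subgroup as a subalgebra. -/
def Kalg {Γ V : Type} [Group Γ] [AddCommGroup V] [Module F2 V] (ρ : Γ →* Module.End F2 V)
    (Z : Subgroup Γ) : Subalgebra F2 (Module.End F2 V) :=
  (Submodule.span F2 (ρ '' (Z : Set Γ))).toSubalgebra
    (Submodule.subset_span ⟨1, Z.one_mem, map_one ρ⟩)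
    (by
      intro x y hx hy
      have := Submodule.mul_mem_mul hx hy
      rw [Submodule.span_mul_span] at this
      refine Submodule.span_mono ?_ this
      rintro _ ⟨_, ⟨a, ha, rfl⟩, _, ⟨b, hb, rfl⟩, rfl⟩
      exact ⟨a * b, Z.mul_mem ha hb, map_mul ρ a b⟩)

theorem mem_Kalg {Γ V : Type} [Group Γ] [AddCommGroup V] [Module F2 V]
    {ρ : Γ →* Module.End F2 V} {Z : Subgroup Γ} {X : Module.End F2 V} :
    X ∈ Kalg ρ Z ↔ X ∈ Submodule.span F2 (ρ '' (Z : Set Γ)) := Iff.rfl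

theorem core' (p : ℕ) (hp : p = 5 ∨ p = 7) : ∃ c : ℕ, ∀ (Γ V : Type) [Group Γ] [Finite Γ]
    [Group.IsSolvable Γ] [AddCommGroup V] [Module F2 V] [Finite V] [Nontrivial V]
    (ρ : Γ →* Module.End F2 V),
    (∀ M : Subgroup Γ, M.Normal → (∀ x ∈ M, ∀ y ∈ M, ρ x * ρ y = ρ y * ρ x) →
      ∀ X ∈ Submodule.span F2 (ρ '' (M : Set Γ)), X = 0 ∨ Function.Injective X) →
    ∀ (g : Γ) (A : Subgroup Γ), g ^ p = 1 → (∀ u ∈ A, u * u = 1) →
      (∀ u ∈ A, ∃ x : Γ, u = x * g * x⁻¹ * g⁻¹) → c < (ρ '' (A : Set Γ)).ncard →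
      ∃ w : V, w ≠ 0 ∧ ρ g w = w ∧
        ∀ t : Γ, ρ t w = w → t * g * t⁻¹ ≠ g ^ 2 ∧ t * g * t⁻¹ ≠ (g ^ 2)⁻¹ := by
  obtain ⟨c, hc⟩ := core p hp
  refine ⟨c, ?_⟩
  intro Γ V _ _ _ _ _ _ _ ρ hqp g A hg h2 hA hcard
  let π := QuotientGroup.mk' ρ.ker
  let ρ' : Γ ⧸ ρ.ker →* Module.End F2 V := QuotientGroup.lift ρ.ker ρ le_rfl
  have hρ : ∀ x, ρ' (π x) = ρ x := fun x => rfl
  have hinj : Function.Injective ρ' := by
    intro a b hab
    obtain ⟨a, rfl⟩ := QuotientGroup.mk'_surjective _ a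
    obtain ⟨b, rfl⟩ := QuotientGroup.mk'_surjective _ b
    apply QuotientGroup.eq.mpr
    have h1 : ρ a = ρ b := hab
    rw [MonoidHom.mem_ker, map_mul, ← h1, ← map_mul, inv_mul_cancel, map_one]
  obtain ⟨w, hw0, hw1, hw2⟩ := hc (Γ ⧸ ρ.ker) V ρ' hinj (by
      intro M hM hMc X hX
      refine hqp (M.comap π) inferInstance ?_ X (Submodule.span_mono ?_ hX)
      · intro x hx y hy
        rw [← hρ, ← hρ, ← map_mul, hMc _ hx _ hy, map_mul]
      · rintro _ ⟨a, ha, rfl⟩
        obtain ⟨a, rfl⟩ := QuotientGroup.mk'_surjective _ a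
        exact ⟨a, ha, rfl⟩) (π g) (A.map π) (by rw [← map_pow, hg, map_one]) (by
      rintro _ ⟨u, hu, rfl⟩
      rw [← map_mul, h2 u hu, map_one]) (by
      rintro _ ⟨u, hu, rfl⟩
      obtain ⟨x, hx⟩ := hA u hu
      exact ⟨π x, by rw [hx]; simp only [map_mul, map_inv]⟩) (by
      refine hcard.trans_le ?_
      have e : ρ '' (A : Set Γ) = ρ' '' (A.map π : Set (Γ ⧸ ρ.ker)) := by
        rw [Subgroup.coe_map, Set.image_image]
        rfl
      rw [e, ← SetLike.coe_sort_coe, Nat.card_coe_set_eq]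
      exact Set.ncard_image_le)
  refine ⟨w, hw0, hw1, fun t ht => ?_⟩
  obtain ⟨h3, h4⟩ := hw2 (π t) ht
  constructor
  · intro h5
    apply h3
    simpa only [map_mul, map_inv, map_pow] using congrArg π h5
  · intro h5
    apply h4
    simpa only [map_mul, map_inv, map_pow] using congrArg π h5

variable {H W : Type} [Group H] [Finite H] [AddCommGroup W] [Module F2 W] [Finite W]

/-- Translate of a subspace. -/
def tr (ρ : H →* Module.End F2 W) (s : H) (B : Submodule F2 W) : Submodule F2 W := B.map (ρ s)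

variable {ρ : H →* Module.End F2 W}

theorem tr_mul (s t : H) (B : Submodule F2 W) : tr ρ (s * t) B = tr ρ s (tr ρ t B) := by
  unfold tr
  rw [map_mul, Module.End.mul_eq_comp, Submodule.map_comp]

theorem tr_one (B : Submodule F2 W) : tr ρ 1 B = B := by
  unfold tr
  rw [map_one, Module.End.one_eq_id, Submodule.map_id]

theorem tr_inv_tr (s : H) (B : Submodule F2 W) : tr ρ s⁻¹ (tr ρ s B) = B := by
  rw [← tr_mul, inv_mul_cancel, tr_one]

theorem tr_tr_inv (s : H) (B : Submodule F2 W) : tr ρ s (tr ρ s⁻¹ B) = B := by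
  rw [← tr_mul, mul_inv_cancel, tr_one]

theorem tr_mono (s : H) {B B' : Submodule F2 W} (h : B ≤ B') : tr ρ s B ≤ tr ρ s B' :=
  Submodule.map_mono h

theorem mem_tr {B : Submodule F2 W} {w : W} (s : H) (hw : w ∈ B) : ρ s w ∈ tr ρ s B :=
  Submodule.mem_map_of_mem hw

theorem rho_inj (s : H) : Function.Injective (ρ s) := by
  intro a b h
  have := congrArg (ρ s⁻¹) h
  rwa [← Module.End.mul_apply, ← Module.End.mul_apply, ← map_mul, inv_mul_cancel, map_one] at this

theorem tr_eq_of_le {s : H} {B : Submodule F2 W} (h : B ≤ tr ρ s B) : tr ρ s B = B :=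
  (Submodule.eq_of_le_of_finrank_le h (Submodule.finrank_map_le _ _)).symm

/-- Stabiliser of a subspace. -/
def stB (ρ : H →* Module.End F2 W) (B : Submodule F2 W) : Subgroup H where
  carrier := {s | tr ρ s B = B}
  one_mem' := tr_one B
  mul_mem' := by
    intro a b ha hb
    have ha' : tr ρ a B = B := ha
    have hb' : tr ρ b B = B := hb
    show tr ρ (a * b) B = B
    rw [tr_mul, hb', ha']
  inv_mem' := by
    intro a ha
    have ha' : tr ρ a B = B := ha
    show tr ρ a⁻¹ B = B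
    conv_lhs => rw [← ha']
    exact tr_inv_tr a B

theorem mem_stB {B : Submodule F2 W} {s : H} : s ∈ stB ρ B ↔ tr ρ s B = B := Iff.rfl

theorem mem_stB_tr {B : Submodule F2 W} {s x : H} :
    x ∈ stB ρ (tr ρ s B) ↔ s⁻¹ * x * s ∈ stB ρ B := by
  rw [mem_stB, mem_stB, tr_mul, tr_mul]
  constructor
  · intro h
    rw [h, tr_inv_tr]
  · intro h
    rw [← tr_tr_inv (ρ := ρ) s (tr ρ x _), h]

theorem stB_maps {B : Submodule F2 W} {s : H} (hs : s ∈ stB ρ B) {w : W} (hw : w ∈ B) :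
    ρ s w ∈ B := by
  have := mem_tr (ρ := ρ) s hw
  rwa [hs] at this

/-- The action of the stabiliser on the subspace. -/
def res (ρ : H →* Module.End F2 W) (B : Submodule F2 W) : stB ρ B →* Module.End F2 B where
  toFun s := (ρ s).restrict (fun _ hw => stB_maps s.2 hw)
  map_one' := by
    ext w
    simp
  map_mul' s t := by
    ext w
    simp

theorem res_apply {B : Submodule F2 W} (s : stB ρ B) (w : B) : (res ρ B s w : W) = ρ s w := rfl

/-- The sum of the other translates. -/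
def others (ρ : H →* Module.End F2 W) (B : Submodule F2 W) : Submodule F2 W :=
  ⨆ (s : H) (_ : tr ρ s B ≠ B), tr ρ s B

theorem le_others {B : Submodule F2 W} {s : H} (hs : tr ρ s B ≠ B) : tr ρ s B ≤ others ρ B :=
  le_iSup₂_of_le (f := fun (s : H) (_ : tr ρ s B ≠ B) => tr ρ s B) s hs le_rfl

theorem others_le {B O : Submodule F2 W} (h : ∀ s, tr ρ s B ≠ B → tr ρ s B ≤ O) :
    others ρ B ≤ O := iSup₂_le h

/-- Blocks of imprimitivity. -/
def IsBlk (ρ : H →* Module.End F2 W) (B : Submodule F2 W) : Prop :=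
  B ≠ ⊥ ∧ Disjoint B (others ρ B)

theorem IsBlk.tr {B : Submodule F2 W} (h : IsBlk ρ B) (x : H) : IsBlk ρ (tr ρ x B) := by
  constructor
  · intro h0
    apply h.1
    rw [← tr_inv_tr (ρ := ρ) x B, h0]
    exact Submodule.map_bot _
  · have h1 : others ρ (No.tr ρ x B) ≤ No.tr ρ x (others ρ B) := by
      refine others_le (fun s hs => ?_)
      have e : No.tr ρ s (No.tr ρ x B) = No.tr ρ x (No.tr ρ (x⁻¹ * s * x) B) := by
        rw [← tr_mul, ← tr_mul]
        congr 1
        group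
      rw [e]
      exact tr_mono x (le_others (fun h2 => hs (mem_stB_tr.mpr h2)))
    refine Disjoint.mono_right h1 ?_
    rw [disjoint_iff]
    unfold No.tr
    rw [← Submodule.map_inf _ (rho_inj x), disjoint_iff.mp h.2, Submodule.map_bot]

theorem IsBlk.mem_stB {B : Submodule F2 W} (h : IsBlk ρ B) {w : W} (hw : w ∈ B) (h0 : w ≠ 0)
    {t : H} (ht : ρ t w = w) : t ∈ stB ρ B := by
  by_contra h1
  refine h0 (Submodule.disjoint_def.mp h.2 w hw (le_others h1 ?_))
  rw [← ht]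
  exact mem_tr t hw

theorem IsBlk.map {B : Submodule F2 W} (h : IsBlk ρ B) {U : Submodule F2 B}
    (hU : IsBlk (res ρ B) U) : IsBlk ρ (U.map B.subtype) := by
  constructor
  · intro h0
    apply hU.1
    rw [eq_bot_iff]
    intro v hv
    have := Submodule.mem_map_of_mem (f := B.subtype) hv
    rw [h0, Submodule.mem_bot] at this
    exact Subtype.ext this
  · have e : ∀ s : stB ρ B, No.tr ρ s (U.map B.subtype) = (No.tr (res ρ B) s U).map B.subtype := by
      intro s
      unfold No.tr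
      rw [← Submodule.map_comp, ← Submodule.map_comp]
      rfl
    have h1 : others ρ (U.map B.subtype) ≤ (others (res ρ B) U).map B.subtype ⊔ others ρ B := by
      refine others_le (fun s hs => ?_)
      by_cases h2 : s ∈ stB ρ B
      · refine le_sup_of_le_left ?_
        have := e ⟨s, h2⟩
        simp only at this
        rw [this] at hs ⊢
        exact Submodule.map_mono (le_others (fun h3 => hs (by rw [h3])))
      · exact le_sup_of_le_right ((tr_mono s (Submodule.map_subtype_le _ _)).trans (le_others h2))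
    refine Disjoint.mono_right h1 (Submodule.disjoint_def.mpr ?_)
    rintro _ ⟨v, hv, rfl⟩ hw
    obtain ⟨_, ⟨x, hx, rfl⟩, y, hy, hxy⟩ := Submodule.mem_sup.mp hw
    have h2 : y = 0 := by
      refine Submodule.disjoint_def.mp h.2 y ?_ hy
      rw [eq_sub_of_add_eq' hxy]
      exact B.sub_mem v.2 x.2
    rw [h2, add_zero] at hxy
    have h3 : x = v := Subtype.ext hxy
    rw [h3] at hx
    rw [Submodule.disjoint_def.mp hU.2 v hv hx, map_zero]

theorem exists_subblock [Nontrivial W] (M : Subgroup H) [hM : M.Normal]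
    (hc : ∀ x ∈ M, ∀ y ∈ M, ρ x * ρ y = ρ y * ρ x) :
    ∃ U, IsBlk ρ U ∧ ∀ X ∈ Submodule.span F2 (ρ '' (M : Set H)),
      (∀ v ∈ U, X v = 0) ∨ ∀ v ∈ U, X v = 0 → v = 0 := by
  classical
  let R := Kalg ρ M
  have hR1 : ∀ X ∈ R, ∀ y ∈ M, X * ρ y = ρ y * X := by
    intro X hX y hy
    rw [mem_Kalg] at hX
    induction hX using Submodule.span_induction with
    | mem x hx =>
      obtain ⟨z, hz, rfl⟩ := hx
      exact hc z hz y hy
    | zero => simp
    | add x y _ _ hx hy => rw [add_mul, mul_add, hx, hy]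
    | smul a x _ hx => rw [smul_mul_assoc, mul_smul_comm, hx]
  have hR2 : ∀ X ∈ R, ∀ Y ∈ R, X * Y = Y * X := by
    intro X hX Y hY
    rw [mem_Kalg] at hY
    induction hY using Submodule.span_induction with
    | mem x hx =>
      obtain ⟨z, hz, rfl⟩ := hx
      exact hR1 X hX z hz
    | zero => simp
    | add x y _ _ hx hy => rw [add_mul, mul_add, hx, hy]
    | smul a x _ hx => rw [smul_mul_assoc, mul_smul_comm, hx]
  have hR3 : ∀ s : H, ∀ X ∈ R, ρ s * X * ρ s⁻¹ ∈ R := by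
    intro s X hX
    rw [mem_Kalg] at hX ⊢
    induction hX using Submodule.span_induction with
    | mem x hx =>
      obtain ⟨z, hz, rfl⟩ := hx
      rw [← map_mul, ← map_mul]
      exact Submodule.subset_span ⟨_, hM.conj_mem z hz s, rfl⟩
    | zero => simp
    | add x y _ _ hx hy =>
      rw [mul_add, add_mul]
      exact Submodule.add_mem _ hx hy
    | smul a x _ hx =>
      rw [mul_smul_comm, smul_mul_assoc]
      exact Submodule.smul_mem _ _ hx
  have : Finite (Submodule F2 W) :=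
    Finite.of_injective (fun U : Submodule F2 W => (U : Set W)) SetLike.coe_injective
  obtain ⟨U, ⟨hU0, I, hI, hU⟩, hmin⟩ := (wellFounded_lt (α := Submodule F2 W)).has_min
    {U | U ≠ ⊥ ∧ ∃ I : Set (Module.End F2 W), (∀ X ∈ I, X ∈ R) ∧ ∀ v, v ∈ U ↔ ∀ X ∈ I, X v = 0}
    ⟨⊤, top_ne_bot, ∅, by simp, by simp⟩
  have hdich : ∀ X ∈ R, (∀ v ∈ U, X v = 0) ∨ ∀ v ∈ U, X v = 0 → v = 0 := by
    intro X hX
    by_cases h0 : U ⊓ LinearMap.ker X = ⊥
    · right
      intro v hv hXv
      have : v ∈ U ⊓ LinearMap.ker X := ⟨hv, hXv⟩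
      rwa [h0, Submodule.mem_bot] at this
    · left
      have h1 : U ⊓ LinearMap.ker X = U := by
        by_contra h1
        refine hmin _ ⟨h0, insert X I, ?_, ?_⟩ (lt_of_le_of_ne inf_le_left h1)
        · rintro Y (rfl | hY)
          · exact hX
          · exact hI Y hY
        · intro v
          rw [Submodule.mem_inf, hU, LinearMap.mem_ker, Set.forall_mem_insert, and_comm]
      intro v hv
      rw [← h1] at hv
      exact hv.2
  have hmaps : ∀ X ∈ R, ∀ v ∈ U, X v ∈ U := by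
    intro X hX v hv
    rw [hU] at hv ⊢
    intro Y hY
    rw [← Module.End.mul_apply, hR2 Y (hI Y hY) X hX, Module.End.mul_apply, hv Y hY, map_zero]
  refine ⟨U, ⟨hU0, ?_⟩, hdich⟩
  have := Fintype.ofFinite H
  have key : ∃ X ∈ R, (∀ v ∈ U, X v = 0 → v = 0) ∧
      (Finset.univ.filter (fun s => tr ρ s U ≠ U)).sup (fun s => tr ρ s U) ≤ LinearMap.ker X := by
    refine Finset.sup_induction (p := fun O => ∃ X ∈ R, (∀ v ∈ U, X v = 0 → v = 0) ∧
      O ≤ LinearMap.ker X) ⟨1, R.one_mem, fun v _ h => h, bot_le⟩ ?_ ?_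
    · rintro O₁ ⟨X₁, h₁, h₁', h₁''⟩ O₂ ⟨X₂, h₂, h₂', h₂''⟩
      refine ⟨X₁ * X₂, R.mul_mem h₁ h₂, fun v hv h => h₂' v hv (h₁' _ (hmaps X₂ h₂ v hv) h),
        sup_le ?_ ?_⟩
      · intro v hv
        have h3 : X₁ v = 0 := h₁'' hv
        rw [LinearMap.mem_ker, hR2 X₁ h₁ X₂ h₂, Module.End.mul_apply, h3, map_zero]
      · intro v hv
        have h3 : X₂ v = 0 := h₂'' hv
        rw [LinearMap.mem_ker, Module.End.mul_apply, h3, map_zero]
    · intro s hs
      have hs' : tr ρ s U ≠ U := (Finset.mem_filter.mp hs).2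
      have h1 : ∃ Y ∈ I, ¬ ∀ v ∈ U, (ρ s * Y * ρ s⁻¹) v = 0 := by
        by_contra h1
        push Not at h1
        refine hs' (tr_eq_of_le (fun v hv => ⟨ρ s⁻¹ v, (hU _).mpr (fun Y hY => ?_), ?_⟩))
        · apply rho_inj (ρ := ρ) s
          rw [map_zero]
          exact h1 Y hY v hv
        · rw [← Module.End.mul_apply, ← map_mul, mul_inv_cancel, map_one]
          rfl
      obtain ⟨Y, hY, h2⟩ := h1
      refine ⟨_, hR3 s Y (hI Y hY), (hdich _ (hR3 s Y (hI Y hY))).resolve_left h2, ?_⟩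
      rintro _ ⟨v, hv, rfl⟩
      rw [LinearMap.mem_ker, ← Module.End.mul_apply, mul_assoc, ← map_mul, inv_mul_cancel, map_one,
        mul_one, Module.End.mul_apply, (hU v).mp hv Y hY, map_zero]
  obtain ⟨X, -, h1, h2⟩ := key
  refine Submodule.disjoint_def.mpr (fun v hv hv' => h1 v hv (h2 (others_le ?_ hv')))
  intro s hs
  exact Finset.le_sup (f := fun s => tr ρ s U) (Finset.mem_filter.mpr ⟨Finset.mem_univ _, hs⟩)

/-- Minimal blocks. -/
def MinBlk (ρ : H →* Module.End F2 W) (B : Submodule F2 W) : Prop :=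
  IsBlk ρ B ∧ ∀ B', IsBlk ρ B' → B' ≤ B → B' = B

theorem exists_minBlk [Nontrivial W] : ∃ B, MinBlk ρ B := by
  have : Finite (Submodule F2 W) :=
    Finite.of_injective (fun U : Submodule F2 W => (U : Set W)) SetLike.coe_injective
  obtain ⟨B, hB, hmin⟩ := (wellFounded_lt (α := Submodule F2 W)).has_min {B | IsBlk ρ B}
    ⟨⊤, top_ne_bot, by
      have : others ρ ⊤ ≤ ⊥ := others_le (fun s hs => absurd (tr_eq_of_le (by
        rw [← tr_tr_inv (ρ := ρ) s ⊤]
        exact tr_mono s (by rw [tr_tr_inv]; exact le_top))) hs)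
      rw [le_bot_iff.mp this]
      exact disjoint_bot_right⟩
  refine ⟨B, hB, fun B' hB' hle => ?_⟩
  by_contra hne
  exact hmin B' hB' (lt_of_le_of_ne hle hne)

theorem MinBlk.tr {B : Submodule F2 W} (h : MinBlk ρ B) (x : H) : MinBlk ρ (tr ρ x B) := by
  refine ⟨h.1.tr x, fun B' hB' hle => ?_⟩
  have := h.2 _ (hB'.tr x⁻¹) (by
    have := tr_mono (ρ := ρ) x⁻¹ hle
    rwa [tr_inv_tr] at this)
  rw [← this, tr_tr_inv]

theorem MinBlk.qp {B : Submodule F2 W} (h : MinBlk ρ B) (M : Subgroup (stB ρ B)) (hM : M.Normal)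
    (hc : ∀ x ∈ M, ∀ y ∈ M, res ρ B x * res ρ B y = res ρ B y * res ρ B x) :
    ∀ X ∈ Submodule.span F2 (res ρ B '' (M : Set (stB ρ B))), X = 0 ∨ Function.Injective X := by
  have : Nontrivial B := Submodule.nontrivial_iff_ne_bot.mpr h.1.1
  obtain ⟨U, hU, hd⟩ := exists_subblock M hc
  have h1 := h.2 _ (h.1.map hU) (Submodule.map_subtype_le _ _)
  have h2 : ∀ v : B, v ∈ U := by
    intro v
    have : (v : W) ∈ U.map B.subtype := by rw [h1]; exact v.2
    obtain ⟨v', hv', h3⟩ := this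
    rwa [← Subtype.ext h3]
  intro X hX
  rcases hd X hX with h3 | h3
  · left
    exact LinearMap.ext (fun v => h3 v (h2 v))
  · right
    exact (injective_iff_map_eq_zero X).mpr (fun v => h3 v (h2 v))

end Pool.Agent.P.MP_ac4bd0_al.No
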