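import Pool.Agent.P.MP_ac4bd0_al.No.LemP
import Pool.Agent.P.MP_ac4bd0_al.No.Block1

set_option autoImplicit false
set_option linter.unusedSectionVars false

namespace Pool.Agent.P.MP_ac4bd0_al.No

variable {H W : Type} [Group H] [Finite H] [AddCommGroup W] [Module F2 W] [Finite W]
  {ρ : H →* Module.End F2 W}

theorem pow_val_add {n : ℕ} [NeZero n] {a : H} (ha : a ^ n = 1) (i j : ZMod n) :
    a ^ (i + j).val = a ^ i.val * a ^ j.val := by
  rw [ZMod.val_add, ← pow_eq_pow_mod _ ha, pow_add]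

theorem case_regular [Group.IsSolvable H] (hS : ∀ w : W, ISR (stab ρ w)) {B : Submodule F2 W}
    (hB : IsBlk ρ B) {a b : H} (ha : a ^ 5 = 1) (hb : b ^ 7 = 1) (hab : a * b = b * a)
    (ha' : a ∉ stB ρ B) (hb' : b ∉ stB ρ B) : False := by
  classical
  let e : ZMod 5 × ZMod 7 → H := fun x => a ^ x.1.val * b ^ x.2.val
  have he : ∀ x y, e (x + y) = e x * e y := by
    intro x y
    simp only [e, Prod.fst_add, Prod.snd_add, pow_val_add ha, pow_val_add hb]
    have h1 : Commute (a ^ y.1.val) (b ^ x.2.val) := Commute.pow_pow hab _ _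
    rw [mul_assoc, mul_assoc, ← mul_assoc (a ^ y.1.val), h1.eq, mul_assoc]
  have he0 : e 0 = 1 := by simp [e]
  have hea : e (1, 0) = a := by
    have : (1 : ZMod 5).val = 1 := rfl
    simp [e, this]
  have heb : e (0, 1) = b := by
    have : (1 : ZMod 7).val = 1 := rfl
    simp [e, this]
  have hek : ∀ (k : ℕ) x, e (k • x) = e x ^ k := by
    intro k x
    induction k with
    | zero => simp [he0]
    | succ k ih => rw [succ_nsmul, he, ih, pow_succ]
  have hinj : ∀ x y, tr ρ (e x) B = tr ρ (e y) B → x = y := by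
    intro x y hxy
    by_contra hne
    have h1 : e (x - y) ∈ stB ρ B := by
      have h2 : e (x - y) = (e y)⁻¹ * e x := by
        rw [eq_inv_mul_iff_mul_eq, ← he, add_sub_cancel]
      rw [h2, mem_stB, tr_mul, hxy, tr_inv_tr]
    have h3 : ∀ d : ZMod 5 × ZMod 7, d ≠ 0 → ∃ k : Fin 35, k.val • d = (1, 0) ∨
        k.val • d = (0, 1) := by decide
    obtain ⟨k, hk⟩ := h3 (x - y) (sub_ne_zero.mpr hne)
    have h4 := (stB ρ B).pow_mem h1 k.val
    rw [← hek] at h4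
    rcases hk with hk | hk
    · rw [hk, hea] at h4
      exact ha' h4
    · rw [hk, heb] at h4
      exact hb' h4
  obtain ⟨w₀, hw₀, hw0⟩ := (Submodule.ne_bot_iff B).mp hB.1
  obtain ⟨w, hw⟩ : ∃ w, w = ∑ x, ρ (e x) w₀ := ⟨_, rfl⟩
  have hperm : ∀ t ∈ stab ρ w, ∀ y, ∃ x, tr ρ t (tr ρ (e x) B) = tr ρ (e y) B := by
    intro t ht y
    by_contra hcon
    push Not at hcon
    have h1 : ∀ s, tr ρ s B ≠ tr ρ (e y) B → ρ s w₀ ∈ others ρ (tr ρ (e y) B) := by
      intro s hs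
      have h2 : tr ρ s B = tr ρ (s * (e y)⁻¹) (tr ρ (e y) B) := by
        rw [← tr_mul, inv_mul_cancel_right]
      exact le_others (h2 ▸ hs) (h2 ▸ mem_tr s hw₀)
    have h3 : w ∈ others ρ (tr ρ (e y) B) := by
      rw [← mem_stab.mp ht, hw, map_sum]
      refine Submodule.sum_mem _ (fun x _ => ?_)
      rw [← Module.End.mul_apply, ← map_mul]
      exact h1 _ (by rw [tr_mul]; exact hcon x)
    have h4 : ρ (e y) w₀ ∈ others ρ (tr ρ (e y) B) := by
      rw [hw, ← Finset.add_sum_erase _ _ (Finset.mem_univ y)] at h3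
      refine (Submodule.add_mem_iff_left _ (Submodule.sum_mem _ (fun x hx => h1 _ ?_))).mp h3
      exact fun h5 => (Finset.mem_erase.mp hx).1 (hinj _ _ h5)
    have h5 := Submodule.disjoint_def.mp (hB.tr (e y)).2 _ (mem_tr _ hw₀) h4
    exact hw0 (rho_inj (ρ := ρ) (e y) (by rw [h5, map_zero]))
  have hperm' : ∀ (t : stab ρ w) x, ∃ y, tr ρ (e y) B = tr ρ t (tr ρ (e x) B) := by
    intro t x
    obtain ⟨y, hy⟩ := hperm _ ((stab ρ w).inv_mem t.2) x
    exact ⟨y, by rw [← hy, tr_tr_inv]⟩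
  choose f hf using hperm'
  letI : MulAction (stab ρ w) (ZMod 5 × ZMod 7) :=
    { smul := f
      one_smul := fun x => hinj _ _ (by
        show tr ρ (e (f 1 x)) B = _
        rw [hf]
        exact tr_one _)
      mul_smul := fun s t x => hinj _ _ (by
        show tr ρ (e (f (s * t) x)) B = tr ρ (e (f s (f t x))) B
        rw [hf, hf, hf, ← tr_mul (s : H)]
        rfl) }
  have hmem : ∀ y, e y ∈ stab ρ w := by
    intro y
    rw [mem_stab, hw, map_sum, ← Equiv.sum_comp (Equiv.addLeft y) (fun x => ρ (e x) w₀)]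
    refine Finset.sum_congr rfl (fun x _ => ?_)
    rw [← Module.End.mul_apply, ← map_mul, ← he]
    rfl
  have hact : ∀ y x, MulAction.toPermHom (stab ρ w) (ZMod 5 × ZMod 7) ⟨e y, hmem y⟩ x = x + y := by
    intro y x
    apply hinj
    show tr ρ (e (f _ x)) B = _
    rw [hf, ← tr_mul, add_comm, he]
  exact lemmaP (hS w) _ _ _ (hact (1, 0)) (hact (0, 1))

variable {F : Type} [Field F] {α β : F}

theorem Cfg.τ_zero (C : Cfg F α β H) : C.τ 0 = 1 := by
  have := C.τ_add 0 0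
  rw [add_zero] at this
  exact mul_eq_left.mp this.symm

theorem Cfg.τ_sub (C : Cfg F α β H) (s t : F) : C.τ (s - t) = C.τ s * (C.τ t)⁻¹ := by
  rw [eq_mul_inv_iff_mul_eq, ← C.τ_add, sub_add_cancel]

theorem τ_mem (C : Cfg F α β H) (h3 : (3 : F) = 0) (hα : α ≠ 1) (hβ : β ≠ 1) (S : Subgroup H)
    (h : ∀ q, (C.τ q)⁻¹ * C.a * C.τ q ∈ S ∨ (C.τ q)⁻¹ * C.b * C.τ q ∈ S) : ∀ q, C.τ q ∈ S := by
  have key : ∀ (g : H) (γ : F), (∀ s, g * C.τ s = C.τ (γ * s) * g) → ∀ q q',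
      (C.τ q)⁻¹ * g * C.τ q ∈ S → (C.τ q')⁻¹ * g * C.τ q' ∈ S → C.τ ((γ - 1) * (q - q')) ∈ S := by
    intro g γ hg q q' h1 h2
    have e : ∀ q, (C.τ q)⁻¹ * g * C.τ q = C.τ ((γ - 1) * q) * g := by
      intro q
      rw [mul_assoc, hg, inv_mul_eq_iff_eq_mul, ← mul_assoc, ← C.τ_add]
      congr 2
      ring
    rw [e] at h1 h2
    have := S.mul_mem h1 (S.inv_mem h2)
    rw [mul_sub, C.τ_sub]
    simpa [mul_assoc] using this
  have h1 : ∀ q, C.τ ((α - 1) * q) ∈ S ∨ C.τ ((β - 1) * q) ∈ S := by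
    intro q
    have e1 : q - 0 = q := sub_zero q
    have e2 : 0 - -q = q := by ring
    have e3 : -q - q = q := by linear_combination (-q) * h3
    rcases h 0 with h0 | h0 <;> rcases h q with h1 | h1 <;> rcases h (-q) with h2 | h2
    · exact Or.inl (e1 ▸ key _ _ C.a_τ _ _ h1 h0)
    · exact Or.inl (e1 ▸ key _ _ C.a_τ _ _ h1 h0)
    · exact Or.inl (e2 ▸ key _ _ C.a_τ _ _ h0 h2)
    · exact Or.inr (e3 ▸ key _ _ C.b_τ _ _ h2 h1)
    · exact Or.inl (e3 ▸ key _ _ C.a_τ _ _ h2 h1)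
    · exact Or.inr (e2 ▸ key _ _ C.b_τ _ _ h0 h2)
    · exact Or.inr (e1 ▸ key _ _ C.b_τ _ _ h1 h0)
    · exact Or.inr (e1 ▸ key _ _ C.b_τ _ _ h1 h0)
  intro q
  by_contra hq
  have hα' : α - 1 ≠ 0 := sub_ne_zero.mpr hα
  have hβ' : β - 1 ≠ 0 := sub_ne_zero.mpr hβ
  have h4 : C.τ ((α - 1) * (q / (α - 1))) ∉ S := by rwa [mul_div_cancel₀ _ hα']
  have h5 : C.τ ((β - 1) * (q / (β - 1))) ∉ S := by rwa [mul_div_cancel₀ _ hβ']
  have h6 := (h1 _).resolve_left h4
  have h7 := (h1 _).resolve_right h5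
  rcases h1 (q / (α - 1) + q / (β - 1)) with h8 | h8
  · rw [mul_add, C.τ_add] at h8
    exact h4 ((S.mul_mem_cancel_right h7).mp h8)
  · rw [mul_add, C.τ_add] at h8
    exact h5 ((S.mul_mem_cancel_left h6).mp h8)

theorem uc_mem (C : Cfg F α β H) (K : Subgroup H) [hK : K.Normal] (h : ∀ q, C.τ q ∈ K) :
    (∀ q q', C.u q * C.u q' ∈ K) ∧ ∀ q, C.c q ∈ K := by
  have hinv : ∀ q, (C.u q)⁻¹ = C.u q := fun q => inv_eq_of_mul_eq_one_right (C.u_sq q)
  have h1 : ∀ q q', C.u q * C.u q' ∈ K := by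
    intro q q'
    have e := C.τ_u (q - q') q'
    rw [add_sub_cancel] at e
    have e2 : C.u q * C.u q' = C.τ (q - q') * (C.u q' * (C.τ (q - q'))⁻¹ * (C.u q')⁻¹) := by
      rw [← mul_assoc, ← mul_assoc, e, hinv, mul_inv_cancel_right]
    rw [e2]
    exact K.mul_mem (h _) (hK.conj_mem _ (K.inv_mem (h _)) _)
  refine ⟨h1, fun q => ?_⟩
  have hne : q + 1 ≠ q := by simp
  have e : C.u q * C.u (q + 1) * C.c q = (C.c q)⁻¹ * (C.u q * C.u (q + 1)) := by
    rw [mul_assoc, C.u_c' _ _ hne, ← mul_assoc, C.u_c, mul_assoc]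
  have e2 : C.c q = C.u q * C.u (q + 1) * (C.c q * (C.u q * C.u (q + 1))⁻¹ * (C.c q)⁻¹) := by
    rw [← mul_assoc, ← mul_assoc, e, mul_inv_cancel_right, ← mul_inv_rev, eq_inv_iff_mul_eq_one,
      ← C.c_pow q, pow_succ', sq]
  rw [e2]
  exact K.mul_mem (h1 _ _) (hK.conj_mem _ (K.inv_mem (h1 _ _)) _)

/-- The commutators of an elementary abelian 2-group with an element normalising it. -/
def commSub {G : Type} [Group G] (E : Subgroup G) (g : G) (h2 : ∀ x ∈ E, ∀ y ∈ E, x * y = y * x)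
    (hg : ∀ x ∈ E, g * x * g⁻¹ ∈ E) : Subgroup G where
  carrier := {y | ∃ x ∈ E, y = x * g * x⁻¹ * g⁻¹}
  one_mem' := ⟨1, E.one_mem, by simp⟩
  mul_mem' := by
    rintro _ _ ⟨x, hx, rfl⟩ ⟨y, hy, rfl⟩
    refine ⟨x * y, E.mul_mem hx hy, ?_⟩
    have h1 := h2 _ (hg _ (E.inv_mem hx)) _ hy
    have h3 := h2 _ (E.inv_mem hx) _ (E.inv_mem hy)
    calc x * g * x⁻¹ * g⁻¹ * (y * g * y⁻¹ * g⁻¹) = x * (g * x⁻¹ * g⁻¹ * y) * g * y⁻¹ * g⁻¹ := by
          group
      _ = x * y * g * (x⁻¹ * y⁻¹) * g⁻¹ := by rw [h1]; group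
      _ = _ := by rw [h3]; group
  inv_mem' := by
    rintro _ ⟨x, hx, rfl⟩
    refine ⟨x⁻¹, E.inv_mem hx, ?_⟩
    have h1 := h2 _ (hg _ hx) _ (E.inv_mem hx)
    calc (x * g * x⁻¹ * g⁻¹)⁻¹ = g * x * g⁻¹ * x⁻¹ := by group
      _ = _ := by rw [h1]; group

theorem case_prim (p : ℕ) (hp : p = 5 ∨ p = 7) : ∃ c : ℕ, ∀ (F : Type) [Field F] [Finite F]
    (α β γ : F), γ ^ p = 1 → γ ≠ 1 → c < Nat.card F →
    ∀ (H W : Type) [Group H] [Finite H] [Group.IsSolvable H] [AddCommGroup W]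
      [Module F2 W] [Finite W] (ρ : H →* Module.End F2 W) (C : Cfg F α β H) (g : H)
      (B : Submodule F2 W), MinBlk ρ B → g ^ p = 1 → (∀ q, g * C.u q = C.u (γ * q) * g) →
      g ∈ stB ρ B → (∀ q q', C.u q * C.u q' ∈ stB ρ B) → (∀ q, C.c q ∈ stB ρ B) →
      (∀ q, ∃ w ∈ B, ρ (C.c q) w ≠ w) → (∀ w : W, ISR (stab ρ w)) → False := by
  obtain ⟨c, hc⟩ := core' p hp
  refine ⟨c + 1, ?_⟩
  intro F _ _ α β γ hγ hγ1 hF H W _ _ _ _ _ _ ρ C g B hB hg hgu hgB huB hcB hcw hS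
  have : Nontrivial B := Submodule.nontrivial_iff_ne_bot.mpr hB.1.1
  have hinv : ∀ q, (C.u q)⁻¹ = C.u q := fun q => inv_eq_of_mul_eq_one_right (C.u_sq q)
  let E₀ : Subgroup H := Subgroup.closure (Set.range C.u)
  have hE1 : ∀ x ∈ E₀, ∀ y ∈ E₀, x * y = y * x := by
    have h1 : E₀ ≤ Subgroup.centralizer (Set.range C.u) := by
      refine (Subgroup.closure_le _).mpr ?_
      rintro _ ⟨q, rfl⟩ _ ⟨q', rfl⟩
      exact C.u_comm _ _
    have h2 : E₀ ≤ Subgroup.centralizer (E₀ : Set H) := by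
      refine (Subgroup.closure_le _).mpr ?_
      intro x hx y hy
      exact (h1 hy x hx).symm
    intro x hx y hy
    exact h2 hy x hx
  have hE2 : ∀ x ∈ E₀, x * x = 1 := by
    intro x hx
    induction hx using Subgroup.closure_induction with
    | mem x hx =>
      obtain ⟨q, rfl⟩ := hx
      exact C.u_sq q
    | one => simp
    | mul x y hx hy h1 h2 =>
      rw [mul_assoc, ← mul_assoc y, hE1 y hy x hx, mul_assoc, h2, mul_one, h1]
    | inv x _ h1 => rw [← mul_inv_rev, h1, inv_one]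
  have hE3 : ∀ x ∈ E₀, g * x * g⁻¹ ∈ E₀ := by
    have h1 : E₀ ≤ E₀.comap (MulAut.conj g).toMonoidHom := by
      refine (Subgroup.closure_le _).mpr ?_
      rintro _ ⟨q, rfl⟩
      show g * C.u q * g⁻¹ ∈ E₀
      rw [hgu, mul_inv_cancel_right]
      exact Subgroup.subset_closure ⟨_, rfl⟩
    exact fun x hx => h1 hx
  let g' : stB ρ B := ⟨g, hgB⟩
  let E : Subgroup (stB ρ B) := E₀.subgroupOf (stB ρ B)
  have hE1' : ∀ x ∈ E, ∀ y ∈ E, x * y = y * x := fun x hx y hy => Subtype.ext (hE1 _ hx _ hy)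
  have hE3' : ∀ x ∈ E, g' * x * g'⁻¹ ∈ E := fun x hx => hE3 _ hx
  have hγ0 : γ ≠ 0 := by
    rintro rfl
    rcases hp with rfl | rfl <;> simp at hγ
  have hγ2 : γ * γ ≠ 1 := by
    intro h1
    apply hγ1
    rcases hp with rfl | rfl
    · rw [← hγ]
      linear_combination (-(γ ^ 3 + γ)) * h1
    · rw [← hγ]
      linear_combination (-(γ ^ 5 + γ ^ 3 + γ)) * h1
  obtain ⟨w, hw0, hw1, hw2⟩ := hc (stB ρ B) B (res ρ B) hB.qp g' (commSub E g' hE1' hE3')
    (Subtype.ext hg) (by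
      rintro _ ⟨x, hx, rfl⟩
      apply Subtype.ext
      apply hE2
      have := E.mul_mem hx (hE3' _ (E.inv_mem hx))
      simp only [← mul_assoc] at this
      exact this) (by
      rintro _ ⟨x, -, rfl⟩
      exact ⟨x, rfl⟩) (by
      have h1 : ({q | q ≠ 0} : Set F).ncard + 1 = Nat.card F := by
        have := Set.ncard_add_ncard_compl ({0} : Set F)
        rw [Set.ncard_singleton, add_comm] at this
        exact this
      refine lt_of_lt_of_le (by omega : c < ({q | q ≠ 0} : Set F).ncard) ?_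
      refine Set.ncard_le_ncard_of_injOn (fun q => res ρ B ⟨_, huB q (γ * q)⟩) ?_ ?_
      · intro q _
        refine ⟨_, ⟨⟨_, huB q 0⟩, E₀.mul_mem (Subgroup.subset_closure ⟨_, rfl⟩)
          (Subgroup.subset_closure ⟨_, rfl⟩), ?_⟩, rfl⟩
        apply Subtype.ext
        show C.u q * C.u (γ * q) = C.u q * C.u 0 * g * (C.u q * C.u 0)⁻¹ * g⁻¹
        have e0 := hgu 0
        rw [mul_zero] at e0
        rw [C.u_comm q 0, mul_inv_rev, hinv, hinv, C.u_comm 0 q]
        calc C.u q * C.u (γ * q) = C.u q * (C.u 0 * C.u 0) * C.u (γ * q) * g * g⁻¹ := by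
              rw [C.u_sq]; group
          _ = C.u q * C.u 0 * C.u (γ * q) * (C.u 0 * g) * g⁻¹ := by
              rw [mul_assoc (C.u q * C.u 0), ← mul_assoc (C.u (γ * q)), C.u_comm (γ * q) 0]
              group
          _ = C.u q * C.u 0 * (C.u (γ * q) * g) * C.u 0 * g⁻¹ := by rw [← e0]; group
          _ = _ := by rw [← hgu]; group
      · intro q hq q' hq' hqq
        by_contra hne
        have hq0 : q ≠ 0 := hq
        have hq0' : q' ≠ 0 := hq'
        have hqγ : q ≠ γ * q := fun h => hγ1 (by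
          have : (γ - 1) * q = 0 := by linear_combination -h
          exact sub_eq_zero.mp ((mul_eq_zero.mp this).resolve_right hq0))
        obtain ⟨r, hr1, hr2⟩ : ∃ r, C.u q * C.u (γ * q) * C.c r = (C.c r)⁻¹ * (C.u q * C.u (γ * q)) ∧
            C.u q' * C.u (γ * q') * C.c r = C.c r * (C.u q' * C.u (γ * q')) := by
          by_cases h1 : γ * q' = q
          · refine ⟨γ * q, ?_, ?_⟩
            · rw [C.u_comm q, mul_assoc, C.u_c' _ _ hqγ, ← mul_assoc, C.u_c, mul_assoc]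
            · have h2 : q' ≠ γ * q := fun h => hγ2 (by
                rw [← h1] at h
                have : (γ * γ - 1) * q' = 0 := by linear_combination -h
                exact sub_eq_zero.mp ((mul_eq_zero.mp this).resolve_right hq0'))
              rw [h1, mul_assoc, C.u_c' _ _ hqγ, ← mul_assoc, C.u_c' _ _ h2, mul_assoc]
          · refine ⟨q, ?_, ?_⟩
            · rw [mul_assoc, C.u_c' _ _ hqγ.symm, ← mul_assoc, C.u_c, mul_assoc]
            · rw [mul_assoc, C.u_c' _ _ h1, ← mul_assoc, C.u_c' _ _ (Ne.symm hne), mul_assoc]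
        obtain ⟨x, hx⟩ : ∃ x, x = C.u q * C.u (γ * q) := ⟨_, rfl⟩
        obtain ⟨x', hx'⟩ : ∃ x, x = C.u q' * C.u (γ * q') := ⟨_, rfl⟩
        have hxx : ∀ v ∈ B, ρ x v = ρ x' v := by
          intro v hv
          rw [hx, hx']
          exact congrArg (fun Y : Module.End F2 B => (Y ⟨v, hv⟩ : W)) hqq
        have hxB : x ∈ stB ρ B := hx ▸ huB _ _
        rw [← hx] at hr1
        rw [← hx'] at hr2
        obtain ⟨v, hv, hv'⟩ := hcw r
        have hv1 : ρ x⁻¹ v ∈ B := stB_maps ((stB ρ B).inv_mem hxB) hv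
        have e1 : ρ x (ρ x⁻¹ v) = v := by
          rw [← Module.End.mul_apply, ← map_mul, mul_inv_cancel, map_one]
          rfl
        have e2 : ρ (C.c r)⁻¹ v = ρ (C.c r) v := by
          calc ρ (C.c r)⁻¹ v = ρ ((C.c r)⁻¹ * x) (ρ x⁻¹ v) := by
                rw [map_mul, Module.End.mul_apply, e1]
            _ = ρ x' (ρ (C.c r) (ρ x⁻¹ v)) := by
                rw [← hr1, map_mul, Module.End.mul_apply, hxx _ (stB_maps (hcB r) hv1)]
            _ = _ := by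
                rw [← Module.End.mul_apply, ← map_mul, hr2, map_mul, Module.End.mul_apply,
                  ← hxx _ hv1, e1]
        have e3 : C.c r * C.c r ∈ stab ρ v := by
          rw [mem_stab, map_mul, Module.End.mul_apply, ← e2, ← Module.End.mul_apply, ← map_mul,
            mul_inv_cancel, map_one]
          rfl
        have e4 : C.c r = (C.c r * C.c r)⁻¹ := by
          rw [eq_inv_iff_mul_eq_one, ← C.c_pow r, pow_succ', sq]
        apply hv'
        rw [← mem_stab, e4]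
        exact (stab ρ v).inv_mem e3)
  have hgw : g ∈ stab ρ (w : W) := congrArg Subtype.val hw1
  obtain ⟨t, ht⟩ := (hS w).use (stab ρ (w : W)).subtype ⟨g, hgw⟩ p 2
    (by rcases hp with rfl | rfl <;> norm_num) hg (by rcases hp with rfl | rfl <;> norm_num)
  have htB : (t : H) ∈ stB ρ B := hB.1.mem_stB w.2 (fun h => hw0 (Subtype.ext h)) t.2
  obtain ⟨h1, h2⟩ := hw2 ⟨t, htB⟩ (Subtype.ext t.2)
  rcases ht with ht | ht
  · exact h1 (Subtype.ext ht)
  · exact h2 (Subtype.ext ht)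

/-- Step 3: the module theorem. -/
theorem modthm : ∃ c : ℕ, ∀ (F : Type) [Field F] [Finite F] (α β : F), (3 : F) = 0 →
    α ^ 5 = 1 → α ≠ 1 → β ^ 7 = 1 → β ≠ 1 → c < Nat.card F →
    ∀ (H W : Type) [Group H] [Finite H] [Group.IsSolvable H] [AddCommGroup W]
      [Module (ZMod 2) W] [Finite W] [Nontrivial W] (ρ : H →* Module.End (ZMod 2) W)
      (C : Cfg F α β H), (∀ w : W, w ≠ 0 → ∃ s : H, ρ (C.c 0) (ρ s w) ≠ ρ s w) →
      (∀ w : W, ISR (stab ρ w)) → False := by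
  obtain ⟨c5, h5⟩ := case_prim 5 (Or.inl rfl)
  obtain ⟨c7, h7⟩ := case_prim 7 (Or.inr rfl)
  refine ⟨c5 + c7, ?_⟩
  intro F _ _ α β h3 hα hα1 hβ hβ1 hF H W _ _ _ _ _ _ _ ρ C hc hS
  obtain ⟨B, hB⟩ := exists_minBlk (ρ := ρ)
  have hab : ∀ s, C.a ∈ stB ρ (tr ρ s B) ∨ C.b ∈ stB ρ (tr ρ s B) := by
    intro s
    by_contra h
    exact case_regular hS (hB.tr s).1 C.a_pow C.b_pow C.ab (not_or.mp h).1 (not_or.mp h).2
  have hK : ∀ x, x ∈ (stB ρ B).normalCore ↔ ∀ s, x ∈ stB ρ (tr ρ s B) := by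
    intro x
    constructor
    · intro h s
      rw [mem_stB_tr]
      simpa using h s⁻¹
    · intro h s
      simpa using mem_stB_tr.mp (h s⁻¹)
  have hτ : ∀ q, C.τ q ∈ (stB ρ B).normalCore := by
    intro q
    rw [hK]
    intro s
    refine τ_mem C h3 hα1 hβ1 _ (fun q => ?_) q
    rw [← mem_stB_tr, ← mem_stB_tr, ← tr_mul]
    exact hab _
  obtain ⟨hu, hcK⟩ := uc_mem C _ hτ
  obtain ⟨w₀, hw₀, hw0⟩ := (Submodule.ne_bot_iff B).mp hB.1.1
  obtain ⟨s, hs⟩ := hc w₀ hw0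
  have hcw : ∀ q, ∃ w ∈ tr ρ s B, ρ (C.c q) w ≠ w := by
    intro q
    refine ⟨ρ (C.τ q) (ρ s w₀), stB_maps ((hK _).mp (hτ q) s) (mem_tr s hw₀), fun h => hs ?_⟩
    have e := C.τ_c q 0
    rw [zero_add] at e
    apply rho_inj (ρ := ρ) (C.τ q)
    rw [← Module.End.mul_apply, ← map_mul, e, map_mul, Module.End.mul_apply, h]
  rcases hab s with h | h
  · exact h5 F α β α hα hα1 (by omega) H W ρ C C.a _ (hB.tr s) C.a_pow C.a_u h
      (fun q q' => (hK _).mp (hu q q') s) (fun q => (hK _).mp (hcK q) s) hcw hS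
  · exact h7 F α β β hβ hβ1 (by omega) H W ρ C C.b _ (hB.tr s) C.b_pow C.b_u h
      (fun q q' => (hK _).mp (hu q q') s) (fun q => (hK _).mp (hcK q) s) hcw hS

end Pool.Agent.P.MP_ac4bd0_al.No
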