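import Pool.Agent.P.MP_ac4bd0_al.No.CoreA

set_option autoImplicit false
set_option linter.unusedSectionVars false

namespace Pool.Agent.P.MP_ac4bd0_al.No.CoreAux

open Classical

variable {Γ V : Type} [Group Γ] [Finite Γ] [AddCommGroup V] [Module (ZMod 2) V] [Finite V]

theorem exists_setup [Group.IsSolvable Γ] (ρ : Γ →* Module.End (ZMod 2) V)
    (hρ : Function.Injective ρ)
    (hqp : ∀ M : Subgroup Γ, M.Normal → (∀ x ∈ M, ∀ y ∈ M, x * y = y * x) →
      ∀ X ∈ Submodule.span (ZMod 2) (ρ '' (M : Set Γ)), X = 0 ∨ Function.Injective X) :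
    ∃ (Z D : Subgroup Γ), Z.Normal ∧ Setup ρ Z D := by
  obtain ⟨Z, ⟨hZn, hZc⟩, hZmax⟩ := (wellFounded_gt (α := Subgroup Γ)).has_min
    {M | M.Normal ∧ ∀ x ∈ M, ∀ y ∈ M, x * y = y * x}
    ⟨⊥, inferInstance, fun x hx y _ => by rw [Subgroup.mem_bot.mp hx]; simp⟩
  obtain ⟨D, ⟨hDn, hle, hcent, hcomm⟩, hDmax⟩ := (wellFounded_gt (α := Subgroup Γ)).has_min
    {D | D.Normal ∧ Z ≤ D ∧ (∀ d ∈ D, ∀ z ∈ Z, d * z = z * d) ∧
      ∀ d ∈ D, ∀ e ∈ D, d * e * d⁻¹ * e⁻¹ ∈ Z}
    ⟨Z, hZn, le_rfl, hZc, fun d hd e he =>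
      Z.mul_mem (Z.mul_mem (Z.mul_mem hd he) (Z.inv_mem hd)) (Z.inv_mem he)⟩
  refine ⟨Z, D, hZn, hDn, hle, hcent, hcomm, ?_, hqp Z hZn hZc, hρ⟩
  have hC : Subgroup.centralizer (D : Set Γ) ≤ Z := by
    by_contra hC
    obtain ⟨E, ⟨hEn, hEC, hEZ⟩, hEmin⟩ := (wellFounded_lt (α := Subgroup Γ)).has_min
      {E | E.Normal ∧ E ≤ Subgroup.centralizer (D : Set Γ) ∧ ¬ E ≤ Z}
      ⟨_, inferInstance, le_rfl, hC⟩
    have hE0 : E ≠ ⊥ := by
      rintro rfl
      exact hEZ bot_le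
    have h1 : ⁅E, E⁆ < E := Group.IsSolvable.commutator_lt_of_ne_bot hE0
    have h2 : ⁅E, E⁆ ≤ Z := by
      by_contra h2
      exact hEmin _ ⟨inferInstance, h1.le.trans hEC, h2⟩ h1
    have hEc : ∀ e ∈ E, ∀ d ∈ D, d * e = e * d := fun e he d hd =>
      Subgroup.mem_centralizer_iff.mp (hEC he) d hd
    have h3 : ¬ D ⊔ E > D := by
      refine hDmax _ ⟨inferInstance, hle.trans le_sup_left, ?_, ?_⟩
      · intro x hx z hz
        obtain ⟨d, hd, e, he, rfl⟩ := Subgroup.mem_sup_of_normal_right.mp hx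
        rw [mul_assoc, ← hEc e he z (hle hz), ← mul_assoc, hcent d hd z hz, mul_assoc]
      · intro x hx y hy
        obtain ⟨d, hd, e, he, rfl⟩ := Subgroup.mem_sup_of_normal_right.mp hx
        obtain ⟨d', hd', e', he', rfl⟩ := Subgroup.mem_sup_of_normal_right.mp hy
        have k1 : e * e' * e⁻¹ * e'⁻¹ ∈ Z := h2 (Subgroup.commutator_mem_commutator he he')
        have k2 := Z.mul_mem (hcomm d hd d' hd') k1
        have c1 : Commute d' e := hEc e he d' hd'
        have c2 : Commute d e' := hEc e' he' d hd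
        have c3 : Commute (d⁻¹ * d'⁻¹) (e * e' * e⁻¹ * e'⁻¹) :=
          hEc _ (E.mul_mem (E.mul_mem (E.mul_mem he he') (E.inv_mem he)) (E.inv_mem he')) _
            (D.mul_mem (D.inv_mem hd) (D.inv_mem hd'))
        have k3 : d * e * (d' * e') * (d * e)⁻¹ * (d' * e')⁻¹ =
            d * d' * d⁻¹ * d'⁻¹ * (e * e' * e⁻¹ * e'⁻¹) := by
          calc d * e * (d' * e') * (d * e)⁻¹ * (d' * e')⁻¹
              = d * (e * d') * e' * e⁻¹ * (d⁻¹ * e'⁻¹) * d'⁻¹ := by group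
            _ = d * (d' * e) * e' * e⁻¹ * (e'⁻¹ * d⁻¹) * d'⁻¹ := by
                rw [c1.eq, c2.inv_inv.eq]
            _ = d * d' * ((e * e' * e⁻¹ * e'⁻¹) * (d⁻¹ * d'⁻¹)) := by group
            _ = _ := by rw [← c3.eq]; group
        rw [k3]
        exact k2
    have h4 : E ≤ D := by
      by_contra h4
      exact h3 (lt_of_le_of_ne le_sup_left (fun h => h4 (h ▸ le_sup_right)))
    have h5 : ¬ Z ⊔ E > Z := by
      refine hZmax _ ⟨inferInstance, ?_⟩
      intro x hx y hy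
      obtain ⟨d, hd, e, he, rfl⟩ := Subgroup.mem_sup_of_normal_right.mp hx
      obtain ⟨d', hd', e', he', rfl⟩ := Subgroup.mem_sup_of_normal_right.mp hy
      have c1 : Commute d d' := hZc d hd d' hd'
      have c2 : Commute d e' := hEc e' he' d (hle hd)
      have c3 : Commute e d' := (hEc e he d' (hle hd')).symm
      have c4 : Commute e e' := hEc e' he' e (h4 he)
      exact (c1.mul_right c2).mul_left (c3.mul_right c4)
    exact h5 (lt_of_le_of_ne le_sup_left (fun h => hEZ (h ▸ le_sup_right)))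
  intro d hd
  exact hC (Subgroup.mem_centralizer_iff.mpr (fun e he => (hd e he).symm))

theorem add_self_end (X : Module.End (ZMod 2) V) : X + X = 0 := by
  rw [← two_smul (ZMod 2) X]
  have : (2 : ZMod 2) = 0 := rfl
  rw [this, zero_smul]

variable {ρ : Γ →* Module.End (ZMod 2) V} {Z : Subgroup Γ} [Z.Normal] {D : Subgroup Γ}

theorem Setup.odd_Z [Nontrivial V] (H : Setup ρ Z D) {z : Γ} (hz : z ∈ Z) (h : z * z = 1) :
    z = 1 := by
  by_contra h1
  have hi := H.sub_one_inj hz h1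
  have h2 : (ρ z - 1) * (ρ z - 1) = 0 := by
    rw [sub_mul, mul_sub, mul_sub, ← map_mul, h, map_one, one_mul, mul_one, one_mul]
    have := add_self_end (1 - ρ z)
    rw [← this]
    abel
  obtain ⟨v, hv⟩ := exists_ne (0 : V)
  apply hv
  apply hi
  apply hi
  simpa using LinearMap.congr_fun h2 v

theorem Setup.odd_D [Nontrivial V] (H : Setup ρ Z D) {d : Γ} (hd : d ∈ D) (h : d * d ∈ Z) :
    d ∈ Z := by
  refine H.center d (fun f hf => ?_)
  have hz := H.comm d hd f hf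
  have h1 : d * f * d⁻¹ * f⁻¹ = 1 := by
    refine H.odd_Z hz ?_
    have c1 := H.cent d hd _ hz
    have c2 := H.cent f hf _ h
    calc d * f * d⁻¹ * f⁻¹ * (d * f * d⁻¹ * f⁻¹)
        = ((d * f * d⁻¹ * f⁻¹) * d) * f * d⁻¹ * f⁻¹ := by group
      _ = (d * (d * f * d⁻¹ * f⁻¹)) * f * d⁻¹ * f⁻¹ := by rw [c1]
      _ = (d * d * f) * d⁻¹ * d⁻¹ * f⁻¹ := by group
      _ = 1 := by rw [← c2]; group
  rw [mul_inv_eq_one, mul_inv_eq_iff_eq_mul] at h1
  exact h1

theorem Setup.exists_field [Nontrivial V] (H : Setup ρ Z D) :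
    ∃ (K : Type) (_ : Field K) (_ : Finite K) (φ : K →+* Module.End (ZMod 2) V),
      Function.Injective φ ∧
      ∀ X, X ∈ Submodule.span (ZMod 2) (ρ '' (Z : Set Γ)) ↔ ∃ k, φ k = X := by
  have hmul : ∀ X ∈ Submodule.span (ZMod 2) (ρ '' (Z : Set Γ)),
      ∀ Y ∈ Submodule.span (ZMod 2) (ρ '' (Z : Set Γ)),
      X * Y ∈ Submodule.span (ZMod 2) (ρ '' (Z : Set Γ)) ∧ X * Y = Y * X := by
    intro X hX Y hY
    induction hX, hY using Submodule.span_induction₂ with
    | mem_mem x y hx hy =>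
      obtain ⟨x, hx, rfl⟩ := hx
      obtain ⟨y, hy, rfl⟩ := hy
      rw [← map_mul, ← map_mul, H.cent x (H.le hx) y hy]
      exact ⟨Submodule.subset_span ⟨_, Z.mul_mem hy hx, rfl⟩, rfl⟩
    | zero_left y _ => simp
    | zero_right x _ => simp
    | add_left x y z _ _ _ h1 h2 =>
      rw [add_mul, mul_add, ← h1.2, ← h2.2]
      exact ⟨Submodule.add_mem _ h1.1 h2.1, rfl⟩
    | add_right x y z _ _ _ h1 h2 =>
      rw [add_mul, mul_add, ← h1.2, ← h2.2]
      exact ⟨Submodule.add_mem _ h1.1 h2.1, rfl⟩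
    | smul_left r x y _ _ h1 =>
      rw [smul_mul_assoc, mul_smul_comm, ← h1.2]
      exact ⟨Submodule.smul_mem _ _ h1.1, rfl⟩
    | smul_right r x y _ _ h1 =>
      rw [smul_mul_assoc, mul_smul_comm, ← h1.2]
      exact ⟨Submodule.smul_mem _ _ h1.1, rfl⟩
  let K : Subalgebra (ZMod 2) (Module.End (ZMod 2) V) :=
    (Submodule.span (ZMod 2) (ρ '' (Z : Set Γ))).toSubalgebra
      (Submodule.subset_span ⟨1, Z.one_mem, map_one ρ⟩) (fun X Y hX hY => (hmul X hX Y hY).1)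
  have : Finite (Module.End (ZMod 2) V) :=
    Finite.of_injective (fun X : Module.End (ZMod 2) V => (X : V → V)) DFunLike.coe_injective
  let : CommRing K :=
    { (inferInstance : Ring K) with
      mul_comm := fun X Y => Subtype.ext (hmul X.1 X.2 Y.1 Y.2).2 }
  have : NoZeroDivisors K := ⟨fun {X Y} h => by
    rcases H.qp X.1 X.2 with h1 | h1
    · exact Or.inl (Subtype.ext h1)
    · refine Or.inr (Subtype.ext ?_)
      ext v
      apply h1
      simpa using LinearMap.congr_fun (congrArg Subtype.val h) v⟩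
  have : IsDomain K := NoZeroDivisors.to_isDomain K
  let : Field K := (Finite.isField_of_domain K).toField
  refine ⟨K, inferInstance, inferInstance,
    { toFun := Subtype.val, map_one' := rfl, map_mul' := fun _ _ => rfl, map_zero' := rfl,
      map_add' := fun _ _ => rfl }, Subtype.val_injective, fun X => ⟨fun h => ⟨⟨X, h⟩, rfl⟩, ?_⟩⟩
  rintro ⟨k, rfl⟩
  exact k.2

theorem card_bound (K : Type) [Field K] [Finite K] (φ : K →+* Module.End (ZMod 2) V)
    (ι : Type) [Finite ι] (T : ι → Module.End (ZMod 2) V) (hcomm : ∀ i k, T i * φ k = φ k * T i)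
    (hind : ∀ (s : Finset ι) (κ : ι → K), ∑ i ∈ s, φ (κ i) * T i = 0 → ∀ i ∈ s, κ i = 0) :
    ∃ n : ℕ, Nat.card V = Nat.card K ^ n ∧ Nat.card ι ≤ n ^ 2 := by
  let : Module K V := Module.compHom V φ
  have hs : ∀ (k : K) (v : V), k • v = φ k v := fun _ _ => rfl
  let T' : ι → V →ₗ[K] V := fun i =>
    { toFun := T i
      map_add' := (T i).map_add
      map_smul' := fun k v => by
        simp only [hs, RingHom.id_apply]
        exact LinearMap.congr_fun (hcomm i k) v }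
  have hli : LinearIndependent K T' := by
    rw [linearIndependent_iff']
    intro s κ h
    refine hind s κ ?_
    ext v
    have := LinearMap.congr_fun h v
    simpa [T', hs, LinearMap.sum_apply] using this
  have := Fintype.ofFinite ι
  refine ⟨Module.finrank K V, Module.natCard_eq_pow_finrank, ?_⟩
  have h1 := hli.fintype_card_le_finrank
  rw [Module.finrank_linearMap] at h1
  rw [Nat.card_eq_fintype_card, sq]
  exact h1

theorem Setup.field_facts [Nontrivial V] (H : Setup ρ Z D) :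
    (∃ z ∈ Z, ∀ w ∈ Z, ∃ i : ℤ, w = z ^ i) ∧
    ∃ k n : ℕ, 2 ≤ k ∧ Nat.card Z ≤ k ∧ Nat.card V = k ^ n ∧
      Nat.card (D.map (QuotientGroup.mk' Z)) ≤ n ^ 2 := by
  obtain ⟨K, _, _, φ, hφ, hK⟩ := H.exists_field
  choose f hf using fun z : Z => (hK (ρ z)).mp (Submodule.subset_span ⟨z, z.2, rfl⟩)
  let f' : Z →* K :=
    { toFun := f
      map_one' := hφ (by rw [hf]; simp)
      map_mul' := fun a b => hφ (by rw [map_mul, hf, hf, hf]; simp) }
  have hf' : Function.Injective f' := by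
    intro a b h
    have h1 : φ (f a) = φ (f b) := congrArg φ h
    rw [hf, hf] at h1
    exact Subtype.ext (H.inj h1)
  refine ⟨?_, ?_⟩
  · obtain ⟨z, hz⟩ := (isCyclic_of_injective_ringHom f' hf').exists_generator
    refine ⟨z, z.2, fun w hw => ?_⟩
    obtain ⟨i, hi⟩ := hz ⟨w, hw⟩
    exact ⟨i, by simpa using (congrArg Subtype.val hi).symm⟩
  · choose σ hσ using fun x : D.map (QuotientGroup.mk' Z) => x.2
    have hσ2 : ∀ x, ((σ x : Γ) : Γ ⧸ Z) = x.1 := fun x => (hσ x).2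
    have hcomm : ∀ i k, ρ (σ i) * φ k = φ k * ρ (σ i) := by
      intro i k
      have h1 := (hK (φ k)).mpr ⟨k, rfl⟩
      generalize φ k = X at h1
      induction h1 using Submodule.span_induction with
      | mem x hx =>
        obtain ⟨x, hx, rfl⟩ := hx
        rw [← map_mul, ← map_mul, H.cent _ (hσ i).1 x hx]
      | zero => simp
      | add x y _ _ hx hy => rw [mul_add, add_mul, hx, hy]
      | smul c x _ hx => rw [smul_mul_assoc, mul_smul_comm, hx]
    have hmem : ∀ i k, φ k * ρ (σ i) ∈ KS ρ Z {((σ i : Γ) : Γ ⧸ Z)} := by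
      intro i k
      have h1 := (hK (φ k)).mpr ⟨k, rfl⟩
      generalize φ k = X at h1
      induction h1 using Submodule.span_induction with
      | mem x hx =>
        obtain ⟨x, hx, rfl⟩ := hx
        rw [← map_mul]
        refine mem_KS ?_
        rw [QuotientGroup.mk_mul, (QuotientGroup.eq_one_iff x).mpr hx, one_mul]
        simp
      | zero => simp
      | add x y _ _ hx hy => rw [add_mul]; exact Submodule.add_mem _ hx hy
      | smul c x _ hx => rw [smul_mul_assoc]; exact Submodule.smul_mem _ _ hx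
    obtain ⟨n, h1, h2⟩ := card_bound K φ _ (fun i => ρ (σ i)) hcomm (by
      intro s κ h i hi
      rw [← Finset.add_sum_erase _ _ hi] at h
      have h3 : φ (κ i) * ρ (σ i) = 0 := by
        refine H.sep (hσ i).1 ((s.erase i).image Subtype.val) ?_ ?_ _ (hmem i _) ?_
        · intro y hy
          obtain ⟨j, _, hj⟩ := Finset.mem_image.mp hy
          refine H.mem_of_mk_eq ((hσ2 j).trans hj) ?_
          simpa using (hσ j).1
        · intro hy
          obtain ⟨j, hj, hj'⟩ := Finset.mem_image.mp hy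
          rw [hσ2] at hj'
          exact Finset.ne_of_mem_erase hj (Subtype.ext hj')
        · rw [eq_neg_of_add_eq_zero_left h]
          refine Submodule.neg_mem _ (Submodule.sum_mem _ (fun j hj => KS_mono ?_ (hmem j _)))
          rw [Finset.singleton_subset_iff, hσ2]
          exact Finset.mem_image_of_mem _ hj
      apply hφ
      have := congrArg (fun T => T * ρ (σ i)⁻¹) h3
      simpa only [mul_assoc, ← map_mul, mul_inv_cancel, map_one, mul_one, zero_mul, map_zero]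
        using this)
    exact ⟨Nat.card K, n, Finite.one_lt_card, Nat.card_le_card_of_injective f' hf', h1, h2⟩

theorem II_mul_le (q q' : Γ) : II Z D (q * q') ≤ II Z D q * II Z D q' := by
  unfold II
  rw [← Set.ncard_prod]
  refine le_trans (Set.ncard_le_ncard ?_ (Set.toFinite _))
    (Set.ncard_image_le (f := fun p : (Γ ⧸ Z) × (Γ ⧸ Z) => p.1 * p.2) (Set.toFinite _))
  rintro _ ⟨e, he, rfl⟩
  refine ⟨(((e * q * e⁻¹ : Γ) : Γ ⧸ Z), ((e * q' * e⁻¹ : Γ) : Γ ⧸ Z)),
    ⟨⟨e, he, rfl⟩, ⟨e, he, rfl⟩⟩, ?_⟩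
  simp only [← QuotientGroup.mk_mul]
  congr 1
  group

theorem II_inv_le (q : Γ) : II Z D q⁻¹ ≤ II Z D q := by
  unfold II
  refine le_trans (Set.ncard_le_ncard ?_ (Set.toFinite _))
    (Set.ncard_image_le (f := fun p : Γ ⧸ Z => p⁻¹) (Set.toFinite _))
  rintro _ ⟨e, he, rfl⟩
  refine ⟨_, ⟨e, he, rfl⟩, ?_⟩
  simp only [← QuotientGroup.mk_inv]
  congr 1
  group

theorem Setup.II_conj_le (H : Setup ρ Z D) (x q : Γ) : II Z D (x * q * x⁻¹) ≤ II Z D q := by
  unfold II
  refine le_trans (Set.ncard_le_ncard ?_ (Set.toFinite _))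
    (Set.ncard_image_le (f := fun p : Γ ⧸ Z => (x : Γ ⧸ Z) * p * (x : Γ ⧸ Z)⁻¹) (Set.toFinite _))
  rintro _ ⟨e, he, rfl⟩
  refine ⟨_, ⟨_, H.conj_mem he x, rfl⟩, ?_⟩
  simp only [← QuotientGroup.mk_inv, ← QuotientGroup.mk_mul]
  congr 1
  group

theorem II_one_le : II Z D 1 ≤ 1 := by
  unfold II
  rw [Set.ncard_le_one (Set.toFinite _)]
  rintro _ ⟨e, _, rfl⟩ _ ⟨e', _, rfl⟩
  simp

theorem II_pow_le (q : Γ) (j : ℕ) : II Z D (q ^ j) ≤ II Z D q ^ j := by
  induction j with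
  | zero => simpa using II_one_le
  | succ j ih =>
    rw [pow_succ, pow_succ]
    exact (II_mul_le _ _).trans (Nat.mul_le_mul_right _ ih)

theorem Setup.II_comm_le (H : Setup ρ Z D) (x q : Γ) :
    II Z D (x * q * x⁻¹ * q⁻¹) ≤ II Z D q ^ 2 := by
  rw [sq]
  exact (II_mul_le _ _).trans (Nat.mul_le_mul (H.II_conj_le x q) (II_inv_le q))

theorem II_le_card (q : Γ) : II Z D q ≤ Nat.card (D.map (QuotientGroup.mk' Z)) := by
  unfold II
  rw [← SetLike.coe_sort_coe, Nat.card_coe_set_eq]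
  refine le_trans (Set.ncard_le_ncard ?_ (Set.toFinite _))
    (Set.ncard_image_le (f := fun p : Γ ⧸ Z => p * (q : Γ ⧸ Z) * p⁻¹) (Set.toFinite _))
  rintro _ ⟨e, he, rfl⟩
  exact ⟨e, ⟨e, he, rfl⟩, by simp⟩

/-- An elementary abelian group acting faithfully on an abelian group of odd order with small
inverted parts is small. -/
theorem card_le_of_inverted {Q A : Type} [Group Q] [Finite Q] [Group A] [Finite A]
    (B : Subgroup Q) [hB : B.Normal] (hc : ∀ a ∈ B, ∀ b ∈ B, a * b = b * a)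
    (ho : ∀ a ∈ B, a * a = 1 → a = 1) (hA : ∀ u : A, u * u = 1) (φ : A →* Q)
    (hf : ∀ v : A, (∀ d ∈ B, φ v * d * (φ v)⁻¹ = d) → v = 1) (J : ℕ)
    (hJ : ∀ u : A, {d | d ∈ B ∧ φ u * d * (φ u)⁻¹ = d⁻¹}.ncard ≤ J) : Nat.card A ≤ J ^ J := by
  have hinv : ∀ u : A, u⁻¹ = u := fun u => inv_eq_of_mul_eq_one_right (hA u)
  have hAc : ∀ u v : A, u * v = v * u := fun u v => by
    rw [← hinv (u * v), mul_inv_rev, hinv, hinv]
  have hcc : ∀ (u v : A) (d : Q), φ u * (φ v * d * (φ v)⁻¹) * (φ u)⁻¹ =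
      φ (u * v) * d * (φ (u * v))⁻¹ := fun u v d => by rw [map_mul]; group
  have hminus : ∀ (u : A), ∀ d ∈ B, φ u * (d * (φ u * d * (φ u)⁻¹)⁻¹) * (φ u)⁻¹ =
      (d * (φ u * d * (φ u)⁻¹)⁻¹)⁻¹ := by
    intro u d _
    have h1 := hcc u u d
    rw [hA, map_one, one_mul, inv_one, mul_one] at h1
    calc φ u * (d * (φ u * d * (φ u)⁻¹)⁻¹) * (φ u)⁻¹
        = φ u * d * (φ u)⁻¹ * (φ u * (φ u * d * (φ u)⁻¹) * (φ u)⁻¹)⁻¹ := by group
      _ = _ := by rw [h1]; group
  have hself : ∀ d ∈ B, d = d⁻¹ → d = 1 := fun d hd h =>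
    ho d hd (by nth_rewrite 1 [h]; exact inv_mul_cancel d)
  obtain ⟨u, hu⟩ := Finite.exists_max
    (fun u : A => {d | d ∈ B ∧ φ u * d * (φ u)⁻¹ = d⁻¹}.ncard)
  have key : ∀ v : A, (∀ d ∈ B, φ u * d * (φ u)⁻¹ = d⁻¹ → φ v * d * (φ v)⁻¹ = d) → v = 1 := by
    intro v hv
    have h1 : {d | d ∈ B ∧ φ u * d * (φ u)⁻¹ = d⁻¹} =
        {d | d ∈ B ∧ φ (u * v) * d * (φ (u * v))⁻¹ = d⁻¹} := by
      refine Set.eq_of_subset_of_ncard_le ?_ (hu _) (Set.toFinite _)
      rintro d ⟨hd, hd'⟩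
      exact ⟨hd, by rw [← hcc, hv d hd hd', hd']⟩
    have h2 : ∀ d ∈ B, φ v * d * (φ v)⁻¹ = d⁻¹ → d = 1 := by
      intro d hd hd'
      have hm : d * (φ u * d * (φ u)⁻¹)⁻¹ ∈ B := B.mul_mem hd (B.inv_mem (hB.conj_mem d hd _))
      have h3 := hv _ hm (hminus u d hd)
      have h4 : φ v * (d * (φ u * d * (φ u)⁻¹)⁻¹) * (φ v)⁻¹ = (d * (φ u * d * (φ u)⁻¹)⁻¹)⁻¹ := by
        have h5 : φ v * (φ u * d * (φ u)⁻¹) * (φ v)⁻¹ = (φ u * d * (φ u)⁻¹)⁻¹ := by
          rw [hcc, hAc, ← hcc, hd']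
          group
        calc φ v * (d * (φ u * d * (φ u)⁻¹)⁻¹) * (φ v)⁻¹
            = φ v * d * (φ v)⁻¹ * (φ v * (φ u * d * (φ u)⁻¹) * (φ v)⁻¹)⁻¹ := by group
          _ = d⁻¹ * (φ u * d * (φ u)⁻¹) := by rw [h5, hd', inv_inv]
          _ = _ := by rw [hc _ (B.inv_mem hd) _ (hB.conj_mem d hd _)]; group
      have h6 := hself _ hm (h3.symm.trans h4)
      have h7 : φ u * d * (φ u)⁻¹ = d := (mul_inv_eq_one.mp h6).symm
      have h8 : d ∈ {d | d ∈ B ∧ φ (u * v) * d * (φ (u * v))⁻¹ = d⁻¹} := by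
        refine ⟨hd, ?_⟩
        rw [hAc, ← hcc, h7, hd']
      rw [← h1] at h8
      exact hself d hd (h7.symm.trans h8.2)
    refine hf v (fun d hd => ?_)
    have hm : d * (φ v * d * (φ v)⁻¹)⁻¹ ∈ B := B.mul_mem hd (B.inv_mem (hB.conj_mem d hd _))
    exact (mul_inv_eq_one.mp (h2 _ hm (hminus v d hd))).symm
  let S : Set Q := {d | d ∈ B ∧ φ u * d * (φ u)⁻¹ = d⁻¹}
  let ψ : A → S → S := fun v d => ⟨φ v * d * (φ v)⁻¹, hB.conj_mem _ d.2.1 _, by
    rw [hcc, hAc, ← hcc, d.2.2]; group⟩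
  have hψ : Function.Injective ψ := by
    intro v w h
    have : v⁻¹ * w = 1 := by
      refine key _ (fun d hd hd' => ?_)
      have h1 : φ v * d * (φ v)⁻¹ = φ w * d * (φ w)⁻¹ :=
        congrArg Subtype.val (congrFun h ⟨d, hd, hd'⟩)
      rw [← hcc, ← h1, map_inv]
      group
    exact inv_mul_eq_one.mp this
  have h1 := Nat.card_le_card_of_injective ψ hψ
  rw [Nat.card_fun, Nat.card_coe_set_eq] at h1
  have h2 : S.ncard ≤ J := hJ u
  have h3 : 0 < S.ncard := (Set.ncard_pos (Set.toFinite _)).mpr ⟨1, B.one_mem, by simp⟩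
  exact h1.trans ((Nat.pow_le_pow_left h2 _).trans (Nat.pow_le_pow_right (by omega) h2))

theorem Setup.card_A [Nontrivial V] (H : Setup ρ Z D) (g : Γ) (A : Subgroup Γ)
    (hA : ∀ u ∈ A, u * u = 1) (hA' : ∀ u ∈ A, ∃ x : Γ, u = x * g * x⁻¹ * g⁻¹) (M : ℕ)
    (hM : II Z D g ≤ M) : Nat.card A ≤ (M ^ 2) ^ (M ^ 2) := by
  have := H.Dn
  have : (D.map (QuotientGroup.mk' Z)).Normal :=
    Subgroup.Normal.map H.Dn _ (QuotientGroup.mk'_surjective Z)
  have hcomm : ∀ a ∈ D.map (QuotientGroup.mk' Z), ∀ b ∈ D.map (QuotientGroup.mk' Z),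
      a * b = b * a := by
    rintro _ ⟨a, ha, rfl⟩ _ ⟨b, hb, rfl⟩
    exact H.mk_comm ha hb
  have hodd : ∀ a ∈ D.map (QuotientGroup.mk' Z), a * a = 1 → a = 1 := by
    rintro _ ⟨a, ha, rfl⟩ h
    rw [← map_mul] at h
    exact (QuotientGroup.eq_one_iff a).mpr (H.odd_D ha ((QuotientGroup.eq_one_iff _).mp h))
  obtain ⟨z, hz, hgen⟩ := H.field_facts.1
  have hAZ : ∀ u ∈ A, ∀ w ∈ Z, u * w = w * u := by
    intro u hu w hw
    obtain ⟨x, rfl⟩ := hA' u hu
    have k : ∀ y : Γ, ∃ i : ℤ, ∀ w ∈ Z, y * w * y⁻¹ = w ^ i := by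
      intro y
      obtain ⟨i, hi⟩ := hgen _ (Subgroup.Normal.conj_mem ‹_› z hz y)
      refine ⟨i, fun w hw => ?_⟩
      obtain ⟨j, rfl⟩ := hgen w hw
      rw [← conj_zpow, hi, ← zpow_mul, ← zpow_mul, mul_comm]
    obtain ⟨i, hi⟩ := k x
    obtain ⟨j, hj⟩ := k g
    have hw' : x⁻¹ * g⁻¹ * w * (x⁻¹ * g⁻¹)⁻¹ ∈ Z := Subgroup.Normal.conj_mem ‹_› w hw _
    generalize hw2 : x⁻¹ * g⁻¹ * w * (x⁻¹ * g⁻¹)⁻¹ = w' at hw'
    have e1 : x * (g * w' * g⁻¹) * x⁻¹ = g * (x * w' * x⁻¹) * g⁻¹ := by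
      rw [hj w' hw', hi _ (Z.zpow_mem hw' j), hi w' hw', hj _ (Z.zpow_mem hw' i), ← zpow_mul,
        ← zpow_mul, mul_comm]
    calc x * g * x⁻¹ * g⁻¹ * w = x * (g * w' * g⁻¹) * x⁻¹ * (x * g * x⁻¹ * g⁻¹) := by
          rw [← hw2]; group
      _ = _ := by rw [e1, ← hw2]; group
  refine card_le_of_inverted (D.map (QuotientGroup.mk' Z)) hcomm hodd
    (fun u => Subtype.ext (hA u u.2)) ((QuotientGroup.mk' Z).comp A.subtype) ?_ _ ?_
  · intro v hv
    have hvv := hA v v.2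
    refine Subtype.ext (H.odd_Z (H.center v (fun d hd => ?_)) hvv)
    have h1 : (v : Γ) * d * (v : Γ)⁻¹ * d⁻¹ ∈ Z := by
      rw [← QuotientGroup.eq_one_iff]
      have := hv _ ⟨d, hd, rfl⟩
      simp only [MonoidHom.comp_apply, Subgroup.coe_subtype, QuotientGroup.mk'_apply] at this
      simp only [QuotientGroup.mk_mul, QuotientGroup.mk_inv, this, mul_inv_cancel]
    have h2 := hAZ v v.2 _ h1
    have h3 : (v : Γ) * d * (v : Γ)⁻¹ * d⁻¹ = 1 := by
      refine H.odd_Z h1 ?_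
      calc (v : Γ) * d * (v : Γ)⁻¹ * d⁻¹ * ((v : Γ) * d * (v : Γ)⁻¹ * d⁻¹)
          = (((v : Γ) * d * (v : Γ)⁻¹ * d⁻¹) * v) * d * (v : Γ)⁻¹ * d⁻¹ := by group
        _ = ((v : Γ) * v) * d * ((v : Γ) * v)⁻¹ * d⁻¹ := by rw [← h2]; group
        _ = 1 := by rw [hvv]; group
    rw [mul_inv_eq_one, mul_inv_eq_iff_eq_mul] at h3
    exact h3
  · intro u
    obtain ⟨x, hx⟩ := hA' u u.2
    have h1 : II Z D (u : Γ) ≤ M ^ 2 := by
      rw [hx]
      exact (H.II_comm_le x g).trans (Nat.pow_le_pow_left hM 2)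
    refine le_trans ?_ h1
    unfold II
    refine Set.ncard_le_ncard_of_injOn (fun d => d * ((u : Γ) : Γ ⧸ Z) * d⁻¹) ?_ ?_
      (Set.toFinite _)
    · rintro _ ⟨⟨d, hd, rfl⟩, -⟩
      exact ⟨d, hd, by simp⟩
    · rintro a ⟨ha, ha'⟩ b ⟨hb, hb'⟩ h
      simp only [MonoidHom.comp_apply, Subgroup.coe_subtype, QuotientGroup.mk'_apply] at ha' hb' h
      generalize ((u : Γ) : Γ ⧸ Z) = w at ha' hb' h
      have e1 : a * w * a⁻¹ = a * a * w := by
        calc a * w * a⁻¹ = a * (w * a * w⁻¹)⁻¹ * w := by group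
          _ = _ := by rw [ha', inv_inv]
      have e2 : b * w * b⁻¹ = b * b * w := by
        calc b * w * b⁻¹ = b * (w * b * w⁻¹)⁻¹ * w := by group
          _ = _ := by rw [hb', inv_inv]
      rw [e1, e2, mul_left_inj] at h
      have hm := Subgroup.mul_mem _ (Subgroup.inv_mem _ ha) hb
      refine inv_mul_eq_one.mp (hodd _ hm ?_)
      have c := hcomm _ (Subgroup.inv_mem _ ha) _ hb
      calc a⁻¹ * b * (a⁻¹ * b) = a⁻¹ * (b * a⁻¹) * b := by group
        _ = a⁻¹ * a⁻¹ * (b * b) := by rw [← c]; group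
        _ = 1 := by rw [← h]; group

theorem index_centralizer_le (N : Subgroup Γ) (hN : N.Normal) {a : Γ} (ha : a ∈ N) :
    (Subgroup.centralizer ({a} : Set Γ)).index ≤ Nat.card N := by
  let f : Γ ⧸ Subgroup.centralizer ({a} : Set Γ) → N := fun x =>
    ⟨x.out * a * x.out⁻¹, hN.conj_mem a ha _⟩
  refine Nat.card_le_card_of_injective f (fun x y h => ?_)
  have h1 : x.out * a * x.out⁻¹ = y.out * a * y.out⁻¹ := congrArg Subtype.val h
  rw [← QuotientGroup.out_eq' x, ← QuotientGroup.out_eq' y, QuotientGroup.eq,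
    Subgroup.mem_centralizer_singleton_iff]
  calc x.out⁻¹ * y.out * a = x.out⁻¹ * (y.out * a * y.out⁻¹) * y.out := by group
    _ = _ := by rw [← h1]; group

theorem index_centralizer_chain (N : Subgroup Γ) (hN : N.Normal) (r : ℕ) :
    ∀ H : Subgroup Γ, H ≤ N → Nat.card N ≤ 2 ^ r * Nat.card H →
      (Subgroup.centralizer (N : Set Γ)).index ≤
        (Subgroup.centralizer (H : Set Γ)).index * Nat.card N ^ r := by
  induction r with
  | zero =>
    intro H hH hc
    rw [Subgroup.eq_of_le_of_card_ge hH (by simpa using hc)]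
    simp
  | succ r ih =>
    intro H hH hc
    by_cases hNH : N ≤ H
    · rw [le_antisymm hH hNH]
      exact Nat.le_mul_of_pos_right _ (pow_pos Nat.card_pos _)
    · obtain ⟨d, hd, hdH⟩ := SetLike.not_le_iff_exists.mp hNH
      have hle : H ⊔ Subgroup.zpowers d ≤ N := sup_le hH (Subgroup.zpowers_le_of_mem hd)
      have h1 : 2 * Nat.card H ≤ Nat.card (H ⊔ Subgroup.zpowers d : Subgroup Γ) := by
        obtain ⟨k, hk⟩ := Subgroup.card_dvd_of_le (le_sup_left : H ≤ H ⊔ Subgroup.zpowers d)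
        have hpos : 0 < Nat.card (H ⊔ Subgroup.zpowers d : Subgroup Γ) := Nat.card_pos
        have hk1 : k ≠ 1 := by
          rintro rfl
          have := Subgroup.eq_of_le_of_card_ge (le_sup_left : H ≤ H ⊔ Subgroup.zpowers d)
            (by omega)
          exact hdH (this ▸ Subgroup.mem_sup_right (Subgroup.mem_zpowers d))
        have hk0 : k ≠ 0 := by
          rintro rfl
          omega
        rw [hk, mul_comm]
        exact Nat.mul_le_mul_left _ (by omega)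
      have h2 := ih _ hle (hc.trans (by rw [pow_succ, mul_assoc]; exact Nat.mul_le_mul_left _ h1))
      have h3 : Subgroup.centralizer (H : Set Γ) ⊓ Subgroup.centralizer ({d} : Set Γ) ≤
          Subgroup.centralizer ((H ⊔ Subgroup.zpowers d : Subgroup Γ) : Set Γ) := by
        intro x hx
        have h4 : H ⊔ Subgroup.zpowers d ≤ Subgroup.centralizer ({x} : Set Γ) := by
          refine sup_le (fun h hh => ?_) (Subgroup.zpowers_le_of_mem ?_)
          · exact Subgroup.mem_centralizer_singleton_iff.mpr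
              (Subgroup.mem_centralizer_iff.mp hx.1 h hh)
          · exact Subgroup.mem_centralizer_singleton_iff.mpr
              (Subgroup.mem_centralizer_singleton_iff.mp hx.2).symm
        exact Subgroup.mem_centralizer_iff.mpr
          (fun h hh => Subgroup.mem_centralizer_singleton_iff.mp (h4 hh))
      have h5 := (Subgroup.index_antitone h3).trans Subgroup.index_inf_le
      have h6 := index_centralizer_le N hN hd
      calc _ ≤ _ := h2
        _ ≤ (Subgroup.centralizer (H : Set Γ)).index * Nat.card N * Nat.card N ^ r :=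
          Nat.mul_le_mul_right _ (h5.trans (Nat.mul_le_mul_left _ h6))
        _ = _ := by ring

theorem Setup.card_le [Nontrivial V] (H : Setup ρ Z D) (r : ℕ)
    (hr : Nat.card (D.map (QuotientGroup.mk' Z)) ≤ 2 ^ r) :
    Nat.card Γ ≤ Nat.card Z ^ 2 * (2 ^ r * Nat.card Z) ^ r := by
  have h1 : Nat.card D ≤ 2 ^ r * Nat.card Z := by
    have e1 := Subgroup.card_mul_index (Z.subgroupOf D)
    have e2 := Subgroup.relIndex_ker (K := D) (QuotientGroup.mk' Z)
    rw [QuotientGroup.ker_mk'] at e2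
    rw [Nat.card_congr (Subgroup.subgroupOfEquivOfLe H.le).toEquiv] at e1
    rw [← e1, mul_comm]
    exact Nat.mul_le_mul_right _ (e2.le.trans hr)
  have h2 := index_centralizer_chain D H.Dn r Z H.le h1
  obtain ⟨z, hz, hgen⟩ := H.field_facts.1
  have h3 : Subgroup.centralizer ({z} : Set Γ) ≤ Subgroup.centralizer (Z : Set Γ) := by
    intro x hx
    refine Subgroup.mem_centralizer_iff.mpr (fun w hw => ?_)
    obtain ⟨i, rfl⟩ := hgen w hw
    have : Commute x z := Subgroup.mem_centralizer_singleton_iff.mp hx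
    exact (this.zpow_right i).symm
  have h4 := (Subgroup.index_antitone h3).trans (index_centralizer_le Z ‹_› hz)
  have h5 : Subgroup.centralizer (D : Set Γ) ≤ Z := fun x hx =>
    H.center x (fun e he => (Subgroup.mem_centralizer_iff.mp hx e he).symm)
  have h6 := Subgroup.index_antitone h5
  rw [← Subgroup.card_mul_index Z, sq, mul_assoc]
  exact Nat.mul_le_mul_left _ (h6.trans (h2.trans (Nat.mul_le_mul h4 (Nat.pow_le_pow_left h1 _))))

theorem cube_le_pow (s : ℕ) (hs : 10 ≤ s) : s ^ 3 ≤ 2 ^ s := by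
  induction s, hs using Nat.le_induction with
  | base => norm_num
  | succ s hs ih =>
    have : (s + 1) ^ 3 ≤ 2 * s ^ 3 := by nlinarith [mul_le_mul hs hs (by norm_num) (by omega)]
    rw [pow_succ 2]
    omega

theorem numeric (c : ℕ) : ∃ n₀ : ℕ, ∀ n, n₀ ≤ n → ∃ r : ℕ, n ^ 2 ≤ 2 ^ r ∧
    (2 + r + r * r) * c < n := by
  refine ⟨2 ^ (6 * c + 10), fun n hn => ?_⟩
  have hn0 : n ≠ 0 := by
    have : 0 < 2 ^ (6 * c + 10) := by positivity
    omega
  have h1 : 2 ^ Nat.log 2 n ≤ n := Nat.pow_log_le_self 2 hn0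
  have h2 : n < 2 ^ (Nat.log 2 n + 1) := Nat.lt_pow_succ_log_self (by norm_num) n
  have h3 : 6 * c + 10 ≤ Nat.log 2 n := Nat.le_log_of_pow_le (by norm_num) hn
  generalize Nat.log 2 n = s at h1 h2 h3
  refine ⟨(s + 1) * 2, ?_, ?_⟩
  · rw [pow_mul]
    exact Nat.pow_le_pow_left h2.le 2
  · have h4 := cube_le_pow s (by omega)
    have h5 : 2 + (s + 1) * 2 + (s + 1) * 2 * ((s + 1) * 2) ≤ 6 * s ^ 2 := by
      have : 10 ≤ s := by omega
      nlinarith
    have h6 : 6 * s ^ 2 * c < s ^ 3 := by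
      have : 0 < s ^ 2 := pow_pos (by omega) 2
      nlinarith
    calc _ ≤ 6 * s ^ 2 * c := Nat.mul_le_mul_right _ h5
      _ < n := by omega

theorem cover (X : Γ → Module.End (ZMod 2) V) (hX : ∀ t, Nat.card Γ < 2 ^ rk (X t)) :
    ∃ v : V, ∀ t, X t v ≠ 0 := by
  by_contra hcon
  push Not at hcon
  have := Fintype.ofFinite Γ
  have := Fintype.ofFinite V
  have h1 : ∀ t, (Finset.univ.filter (fun v => X t v = 0)).card * 2 ^ rk (X t) =
      Fintype.card V := by
    intro t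
    have e1 : (Finset.univ.filter (fun v => X t v = 0)).card = Nat.card (LinearMap.ker (X t)) := by
      rw [Nat.card_eq_fintype_card, Fintype.card_subtype]
      congr 1
    rw [e1, ← Nat.card_eq_fintype_card,
      Module.natCard_eq_pow_finrank (K := ZMod 2) (V := LinearMap.ker (X t)),
      Module.natCard_eq_pow_finrank (K := ZMod 2) (V := V), Nat.card_zmod, ← pow_add, add_comm]
    congr 1
    exact LinearMap.finrank_range_add_finrank_ker (X t)
  have h2 : Fintype.card V ≤ ∑ t, (Finset.univ.filter (fun v => X t v = 0)).card := by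
    refine le_trans (Finset.card_le_card ?_) Finset.card_biUnion_le
    intro v _
    obtain ⟨t, ht⟩ := hcon v
    exact Finset.mem_biUnion.mpr ⟨t, Finset.mem_univ _, by simp [ht]⟩
  have h3 : (∑ t, (Finset.univ.filter (fun v => X t v = 0)).card) * Nat.card Γ <
      ∑ _t : Γ, Fintype.card V := by
    rw [Finset.sum_mul]
    refine Finset.sum_lt_sum_of_nonempty Finset.univ_nonempty (fun t _ => ?_)
    rw [← h1 t]
    refine Nat.mul_lt_mul_of_pos_left (hX t) (Finset.card_pos.mpr ⟨0, by simp⟩)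
  rw [Finset.sum_const, Finset.card_univ, smul_eq_mul, Nat.card_eq_fintype_card, mul_comm] at h3
  exact absurd (Nat.mul_le_mul_left _ h2) (not_le.mpr h3)

end Pool.Agent.P.MP_ac4bd0_al.No.CoreAux
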