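import Pool.Agent.P.MP_ac4bd0_al.No.Basic
import Pool.Agent.P.MP_ac4bd0_al.No.CoreB

set_option autoImplicit false
set_option linter.unusedSectionVars false

namespace Pool.Agent.P.MP_ac4bd0_al.No

namespace CoreAux

open Classical

variable {Γ V : Type} [Group Γ] [Finite Γ] [AddCommGroup V] [Module (ZMod 2) V] [Finite V]
variable {ρ : Γ →* Module.End (ZMod 2) V} {Z : Subgroup Γ} [Z.Normal] {D : Subgroup Γ}

theorem II_pow_big {p : ℕ} (hp : p = 5 ∨ p = 7) {g : Γ} (hg : g ^ p = 1) {L : ℕ} (hL : 0 < L)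
    (h : L ^ p < II Z D g) {i : ℕ} (hi0 : 0 < i) (hi : i < p) : L < II Z D (g ^ i) := by
  have h1 : ∃ j < p, i * j % p = 1 := by
    rcases hp with rfl | rfl <;> interval_cases i <;> decide
  obtain ⟨j, hj, hij⟩ := h1
  have h2 : g = (g ^ i) ^ j := by
    rw [← pow_mul, pow_eq_pow_mod _ hg, hij, pow_one]
  by_contra hcon
  have h3 := II_pow_le (Z := Z) (D := D) (g ^ i) j
  rw [← h2] at h3
  have h4 : II Z D (g ^ i) ^ j ≤ L ^ p :=
    (Nat.pow_le_pow_left (not_lt.mp hcon) j).trans (Nat.pow_le_pow_right hL hj.le)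
  omega

theorem sum_list (f : ℕ → Γ) (n : ℕ) :
    (((List.range n).map f).map ρ).sum = ∑ i ∈ Finset.range n, ρ (f i) := by
  induction n with
  | zero => simp
  | succ n ih => rw [List.range_succ, Finset.sum_range_succ, ← ih]; simp

end CoreAux

open CoreAux in
/-- The quasi-primitive case. -/
theorem core (p : ℕ) (hp : p = 5 ∨ p = 7) : ∃ c : ℕ, ∀ (Γ V : Type) [Group Γ] [Finite Γ]
    [Group.IsSolvable Γ] [AddCommGroup V] [Module (ZMod 2) V] [Finite V] [Nontrivial V]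
    (ρ : Γ →* Module.End (ZMod 2) V), Function.Injective ρ →
    (∀ M : Subgroup Γ, M.Normal → (∀ x ∈ M, ∀ y ∈ M, x * y = y * x) →
      ∀ X ∈ Submodule.span (ZMod 2) (ρ '' (M : Set Γ)), X = 0 ∨ Function.Injective X) →
    ∀ (g : Γ) (A : Subgroup Γ), g ^ p = 1 → (∀ u ∈ A, u * u = 1) →
      (∀ u ∈ A, ∃ x : Γ, u = x * g * x⁻¹ * g⁻¹) → c < Nat.card A →
      ∃ w : V, w ≠ 0 ∧ ρ g w = w ∧
        ∀ t : Γ, ρ t w = w → t * g * t⁻¹ ≠ g ^ 2 ∧ t * g * t⁻¹ ≠ (g ^ 2)⁻¹ := by
  classical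
  obtain ⟨m, rfl⟩ : ∃ m, p = m + 1 := ⟨p - 1, by omega⟩
  obtain ⟨L, hL0, hL1, hL2⟩ : ∃ L, 0 < L ∧ bnd m 1 ≤ L ∧ bnd (m + (m + 1)) 1 ≤ L :=
    ⟨bnd m 1 + bnd (m + (m + 1)) 1 + 1, by omega, by omega, by omega⟩
  obtain ⟨c, hc1, hc2⟩ : ∃ c, cst m 1 ≤ c ∧ cst (m + (m + 1)) 1 ≤ c :=
    ⟨cst m 1 + cst (m + (m + 1)) 1, by omega, by omega⟩
  obtain ⟨n₀, hn₀⟩ := numeric c
  refine ⟨(((L ^ 2) ^ (m + 1) + n₀ ^ 2) ^ 2) ^ (((L ^ 2) ^ (m + 1) + n₀ ^ 2) ^ 2), ?_⟩
  intro Γ V _ _ _ _ _ _ _ ρ hρ hqp g A hg hA hA' hcA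
  obtain ⟨Z, D, hZ, H⟩ := exists_setup ρ hρ hqp
  have hI : (L ^ 2) ^ (m + 1) + n₀ ^ 2 < II Z D g := by
    by_contra h
    exact absurd (H.card_A g A hA hA' _ (not_lt.mp h)) (not_le.mpr hcA)
  have hLL : L ≤ L ^ 2 := by nlinarith
  have hpow : ∀ i, 0 < i → i < m + 1 → L ^ 2 < II Z D (g ^ i) := fun i h0 h1 =>
    II_pow_big hp hg (by positivity) (by omega) h0 h1
  obtain ⟨k, n, hk, hZk, hV, hn⟩ := H.field_facts.2
  have hn1 : n₀ ≤ n := by
    have := II_le_card (Z := Z) (D := D) g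
    exact (Nat.pow_le_pow_iff_left (by norm_num : 2 ≠ 0)).mp (by omega)
  obtain ⟨r, hr1, hr2⟩ := hn₀ n hn1
  have hΓ : Nat.card Γ ≤ k ^ (2 + r + r * r) := by
    refine (H.card_le r (hn.trans hr1)).trans ?_
    calc Nat.card Z ^ 2 * (2 ^ r * Nat.card Z) ^ r ≤ k ^ 2 * (k ^ r * k) ^ r := by gcongr
      _ = _ := by ring
  have hbig : ∀ X : Module.End (ZMod 2) V, Module.finrank (ZMod 2) V ≤ c * rk X →
      Nat.card Γ < 2 ^ rk X := by
    intro X hX
    have h1 : Nat.card Γ ^ c < (2 ^ rk X) ^ c := by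
      calc Nat.card Γ ^ c ≤ (k ^ (2 + r + r * r)) ^ c := Nat.pow_le_pow_left hΓ c
        _ < k ^ n := by rw [← pow_mul]; exact Nat.pow_lt_pow_right hk hr2
        _ = 2 ^ Module.finrank (ZMod 2) V := by
          rw [← hV, Module.natCard_eq_pow_finrank (K := ZMod 2) (V := V), Nat.card_zmod]
        _ ≤ (2 ^ rk X) ^ c := by
          rw [← pow_mul, mul_comm]
          exact Nat.pow_le_pow_right (by norm_num) hX
    exact lt_of_pow_lt_pow_left₀ c (Nat.zero_le _) h1
  let N : Module.End (ZMod 2) V := ∑ i ∈ Finset.range (m + 1), ρ g ^ i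
  have hN : N = 1 + (((List.range m).map (fun i => g ^ (i + 1))).map ρ).sum := by
    rw [sum_list]
    simp only [N, Finset.sum_range_succ', pow_zero, map_pow, add_comm]
  have hl1 : ∀ y ∈ (List.range m).map (fun i => g ^ (i + 1)), L < II Z D y := by
    intro y hy
    obtain ⟨i, hi, rfl⟩ := List.mem_map.mp hy
    exact hLL.trans_lt (hpow _ (by omega) (by simpa using hi))
  have hNr : Nat.card Γ < 2 ^ rk N := by
    apply hbig
    have := H.rank_list ((List.range m).map (fun i => g ^ (i + 1))) (fun y hy => by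
      simpa using hL1.trans_lt (hl1 y hy))
    rw [← hN] at this
    simp only [List.length_map, List.length_range] at this
    exact this.trans (Nat.mul_le_mul_right _ hc1)
  have hTr : ∀ t : Γ, (t * g * t⁻¹ = g ^ 2 ∨ t * g * t⁻¹ = (g ^ 2)⁻¹) →
      Nat.card Γ < 2 ^ rk (N - ρ t * N) := by
    intro t ht
    apply hbig
    have hl2 : ∀ i : ℕ, L < II Z D (t * g ^ i) := by
      intro i
      by_contra hcon
      have h1 := H.II_comm_le g (t * g ^ i)
      have h2 : II Z D (t * g ^ i) ^ 2 ≤ L ^ 2 := Nat.pow_le_pow_left (not_lt.mp hcon) 2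
      have h3 : g * (t * g ^ i) * g⁻¹ * (t * g ^ i)⁻¹ = g * (t * g * t⁻¹)⁻¹ := by group
      rw [h3] at h1
      rcases ht with ht | ht
      · have h4 := hpow 1 (by omega) (by omega)
        have h5 : g ^ 1 = (g * (t * g * t⁻¹)⁻¹)⁻¹ := by rw [ht]; group
        have h6 := II_inv_le (Z := Z) (D := D) (g * (t * g * t⁻¹)⁻¹)
        rw [← h5] at h6
        omega
      · have h4 := hpow 3 (by omega) (by omega)
        have h5 : g ^ 3 = g * (t * g * t⁻¹)⁻¹ := by rw [ht]; group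
        rw [← h5] at h1
        omega
    have := H.rank_list ((List.range m).map (fun i => g ^ (i + 1)) ++
        (List.range (m + 1)).map (fun i => t * g ^ i)) (fun y hy => by
      simp only [List.length_append, List.length_map, List.length_range]
      refine hL2.trans_lt ?_
      rcases List.mem_append.mp hy with hy | hy
      · exact hl1 y hy
      · obtain ⟨i, _, rfl⟩ := List.mem_map.mp hy
        exact hl2 i)
    have e : ρ t * N = (((List.range (m + 1)).map (fun i => t * g ^ i)).map ρ).sum := by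
      rw [sum_list]
      simp only [N, Finset.mul_sum, map_mul, map_pow]
    rw [List.map_append, List.sum_append, ← add_assoc, ← hN, ← e] at this
    simp only [List.length_append, List.length_map, List.length_range] at this
    rw [sub_eq_add_neg, neg_eq_of_add_eq_zero_right (add_self_end (ρ t * N))]
    exact this.trans (Nat.mul_le_mul_right _ hc2)
  obtain ⟨v, hv⟩ := cover (Γ := Γ) (fun t => if t * g * t⁻¹ = g ^ 2 ∨ t * g * t⁻¹ = (g ^ 2)⁻¹ then
    N - ρ t * N else N) (fun t => by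
      split_ifs with h
      · exact hTr t h
      · exact hNr)
  refine ⟨N v, ?_, ?_, ?_⟩
  · intro h0
    apply hv 1
    split_ifs
    · simp
    · exact h0
  · have h1 := mul_geom_sum (ρ g) (m + 1)
    rw [← map_pow, hg, map_one, sub_self, sub_mul, one_mul, sub_eq_zero] at h1
    exact LinearMap.congr_fun h1 v
  · intro t ht
    rw [← not_or]
    intro h
    apply hv t
    rw [if_pos h]
    simp [ht]

end Pool.Agent.P.MP_ac4bd0_al.No
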