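import Mathlib

set_option autoImplicit false
set_option linter.unusedSectionVars false

namespace Pool.Agent.P.MP_ac4bd0_al.No.CoreAux

open Classical

variable {Γ V : Type} [Group Γ] [Finite Γ] [AddCommGroup V] [Module (ZMod 2) V] [Finite V]

/-- The structure theory of the quasi-primitive group that the rank estimates use. -/
structure Setup (ρ : Γ →* Module.End (ZMod 2) V) (Z D : Subgroup Γ) : Prop where
  Dn : D.Normal
  le : Z ≤ D
  cent : ∀ d ∈ D, ∀ z ∈ Z, d * z = z * d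
  comm : ∀ d ∈ D, ∀ e ∈ D, d * e * d⁻¹ * e⁻¹ ∈ Z
  center : ∀ d : Γ, (∀ e ∈ D, d * e = e * d) → d ∈ Z
  qp : ∀ X ∈ Submodule.span (ZMod 2) (ρ '' (Z : Set Γ)), X = 0 ∨ Function.Injective X
  inj : Function.Injective ρ

/-- Rank of an endomorphism. -/
noncomputable def rk (X : Module.End (ZMod 2) V) : ℕ :=
  Module.finrank (ZMod 2) (LinearMap.range X)

theorem rk_sub_le (X Y : Module.End (ZMod 2) V) : rk (X - Y) ≤ rk X + rk Y := by
  have h : LinearMap.range (X - Y) ≤ LinearMap.range X ⊔ LinearMap.range Y := by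
    rintro _ ⟨v, rfl⟩
    exact Submodule.sub_mem _ (Submodule.mem_sup_left ⟨v, rfl⟩) (Submodule.mem_sup_right ⟨v, rfl⟩)
  exact (Submodule.finrank_mono h).trans (Submodule.finrank_add_le_finrank_add_finrank _ _)

theorem rk_mul_le (a X b : Module.End (ZMod 2) V) : rk (a * X * b) ≤ rk X := by
  have h : LinearMap.range (a * X * b) ≤ (LinearMap.range X).map a := by
    rintro _ ⟨v, rfl⟩
    exact ⟨X (b v), ⟨_, rfl⟩, rfl⟩
  exact (Submodule.finrank_mono h).trans (Submodule.finrank_map_le _ _)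

theorem rk_of_inj (X : Module.End (ZMod 2) V) (h : Function.Injective X) :
    rk X = Module.finrank (ZMod 2) V := LinearMap.finrank_range_of_inj h

variable (ρ : Γ →* Module.End (ZMod 2) V) (Z : Subgroup Γ) [Z.Normal]

/-- The span of the group elements lying over a finite set of classes. -/
def KS (S : Finset (Γ ⧸ Z)) : Submodule (ZMod 2) (Module.End (ZMod 2) V) :=
  Submodule.span (ZMod 2) (ρ '' {x | (x : Γ ⧸ Z) ∈ S})

/-- The elimination operator. -/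
def del (e x : Γ) (Y : Module.End (ZMod 2) V) : Module.End (ZMod 2) V :=
  Y - ρ e⁻¹ * Y * ρ (x⁻¹ * e * x)

/-- The size of the class of `q` modulo `Z` under conjugation by `D`. -/
noncomputable def II (D : Subgroup Γ) (q : Γ) : ℕ :=
  {y : Γ ⧸ Z | ∃ e ∈ D, y = ((e * q * e⁻¹ : Γ) : Γ ⧸ Z)}.ncard

variable {ρ Z}

theorem del_add (e x : Γ) (Y Y' : Module.End (ZMod 2) V) :
    del ρ e x (Y + Y') = del ρ e x Y + del ρ e x Y' := by
  simp only [del, mul_add, add_mul]; abel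

theorem del_zero (e x : Γ) : del ρ e x 0 = 0 := by simp [del]

theorem del_smul (e x : Γ) (c : ZMod 2) (Y : Module.End (ZMod 2) V) :
    del ρ e x (c • Y) = c • del ρ e x Y := by
  simp only [del, smul_sub, mul_smul_comm, smul_mul_assoc]

theorem rk_del (e x : Γ) (Y : Module.End (ZMod 2) V) : rk (del ρ e x Y) ≤ 2 * rk Y := by
  have h1 := rk_sub_le Y (ρ e⁻¹ * Y * ρ (x⁻¹ * e * x))
  have h2 := rk_mul_le (ρ e⁻¹) Y (ρ (x⁻¹ * e * x))
  unfold del
  omega

theorem KS_mono {S T : Finset (Γ ⧸ Z)} (h : S ⊆ T) : KS ρ Z S ≤ KS ρ Z T :=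
  Submodule.span_mono (Set.image_mono (fun _ hx => h hx))

theorem mem_KS {S : Finset (Γ ⧸ Z)} {x : Γ} (h : (x : Γ ⧸ Z) ∈ S) : ρ x ∈ KS ρ Z S :=
  Submodule.subset_span ⟨x, h, rfl⟩

theorem KS_empty {Y : Module.End (ZMod 2) V} (h : Y ∈ KS ρ Z ∅) : Y = 0 := by
  simpa [KS] using h

theorem KS_ind {S : Finset (Γ ⧸ Z)} {P : Module.End (ZMod 2) V → Prop}
    (h1 : ∀ x : Γ, (x : Γ ⧸ Z) ∈ S → P (ρ x)) (h0 : P 0) (ha : ∀ Y Y', P Y → P Y' → P (Y + Y'))
    {Y : Module.End (ZMod 2) V} (hY : Y ∈ KS ρ Z S) : P Y := by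
  induction hY using Submodule.span_induction with
  | mem x hx => obtain ⟨y, hy, rfl⟩ := hx; exact h1 y hy
  | zero => exact h0
  | add x y _ _ hx hy => exact ha _ _ hx hy
  | smul c x _ hx =>
    have : c = 0 ∨ c = 1 := by revert c; decide
    rcases this with rfl | rfl
    · simpa using h0
    · simpa using hx

theorem KS_mul {S : Finset (Γ ⧸ Z)} (a b : Γ) {Y : Module.End (ZMod 2) V} (hY : Y ∈ KS ρ Z S) :
    ρ a * Y * ρ b ∈ KS ρ Z (S.image (fun y => (a : Γ ⧸ Z) * y * (b : Γ ⧸ Z))) := by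
  refine KS_ind (P := fun Y => ρ a * Y * ρ b ∈
    KS ρ Z (S.image (fun y => (a : Γ ⧸ Z) * y * (b : Γ ⧸ Z)))) ?_ ?_ ?_ hY
  · intro x hx
    rw [← map_mul, ← map_mul]
    exact mem_KS (Finset.mem_image.mpr ⟨x, hx, by simp⟩)
  · simp
  · intro Y Y' h h'
    rw [mul_add, add_mul]
    exact Submodule.add_mem _ h h'

theorem KS_del {S : Finset (Γ ⧸ Z)} (e x : Γ) {Y : Module.End (ZMod 2) V} (hY : Y ∈ KS ρ Z S) :
    del ρ e x Y ∈ KS ρ Z (S ∪ S.image
      (fun y => ((e⁻¹ : Γ) : Γ ⧸ Z) * y * ((x⁻¹ * e * x : Γ) : Γ ⧸ Z))) :=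
  Submodule.sub_mem _ (KS_mono Finset.subset_union_left hY)
    (KS_mono Finset.subset_union_right (KS_mul _ _ hY))

theorem KS_split {S : Finset (Γ ⧸ Z)} (x : Γ ⧸ Z) {Y : Module.End (ZMod 2) V}
    (hY : Y ∈ KS ρ Z S) : ∃ Y1 ∈ KS ρ Z {x}, ∃ Y2 ∈ KS ρ Z (S.erase x), Y = Y1 + Y2 := by
  refine KS_ind (P := fun Y => ∃ Y1 ∈ KS ρ Z {x}, ∃ Y2 ∈ KS ρ Z (S.erase x), Y = Y1 + Y2)
    ?_ ?_ ?_ hY
  · intro y hy
    by_cases h : (y : Γ ⧸ Z) = x
    · exact ⟨ρ y, mem_KS (by simp [h]), 0, Submodule.zero_mem _, by simp⟩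
    · exact ⟨0, Submodule.zero_mem _, ρ y, mem_KS (by simp [h, hy]), by simp⟩
  · exact ⟨0, Submodule.zero_mem _, 0, Submodule.zero_mem _, by simp⟩
  · rintro _ _ ⟨a, ha, b, hb, rfl⟩ ⟨a', ha', b', hb', rfl⟩
    exact ⟨a + a', Submodule.add_mem _ ha ha', b + b', Submodule.add_mem _ hb hb', by abel⟩

variable {D : Subgroup Γ}

theorem Setup.mk_comm (H : Setup ρ Z D) {d e : Γ} (hd : d ∈ D) (he : e ∈ D) :
    (d : Γ ⧸ Z) * e = e * d := by
  have := (QuotientGroup.eq_one_iff _).mpr (H.comm d hd e he)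
  simp only [QuotientGroup.mk_mul, QuotientGroup.mk_inv] at this
  rw [mul_inv_eq_one, mul_inv_eq_iff_eq_mul] at this
  exact this

theorem Setup.conj_mem (H : Setup ρ Z D) {e : Γ} (he : e ∈ D) (x : Γ) : x⁻¹ * e * x ∈ D := by
  simpa using H.Dn.conj_mem e he x⁻¹

/-- `S` lies in the coset of `q`. -/
def InC (Z : Subgroup Γ) [Z.Normal] (D : Subgroup Γ) (q : Γ) (S : Finset (Γ ⧸ Z)) : Prop :=
  ∀ y : Γ, (y : Γ ⧸ Z) ∈ S → q⁻¹ * y ∈ D

theorem Setup.mem_of_mk_eq (H : Setup ρ Z D) {q y y' : Γ} (h : (y : Γ ⧸ Z) = y')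
    (h' : q⁻¹ * y ∈ D) : q⁻¹ * y' ∈ D := by
  have h1 : y⁻¹ * y' ∈ Z := QuotientGroup.eq.mp h
  have := D.mul_mem h' (H.le h1)
  simpa [mul_assoc] using this

theorem InC.mono {q : Γ} {S T : Finset (Γ ⧸ Z)} (h : InC Z D q T) (hS : S ⊆ T) : InC Z D q S :=
  fun y hy => h y (hS hy)

theorem InC.of_mem {q x : Γ} {S : Finset (Γ ⧸ Z)} (h : InC Z D q S) (hx : (x : Γ ⧸ Z) ∈ S) :
    InC Z D x S := by
  intro y hy
  have := D.mul_mem (D.inv_mem (h x hx)) (h y hy)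
  simpa [mul_assoc] using this

theorem Setup.inC_del (H : Setup ρ Z D) {q : Γ} {S : Finset (Γ ⧸ Z)} (h : InC Z D q S) {e : Γ}
    (he : e ∈ D) (x : Γ) : InC Z D q (S ∪ S.image
      (fun y => ((e⁻¹ : Γ) : Γ ⧸ Z) * y * ((x⁻¹ * e * x : Γ) : Γ ⧸ Z))) := by
  intro y hy
  rcases Finset.mem_union.mp hy with hy | hy
  · exact h y hy
  · obtain ⟨w, hw, hwy⟩ := Finset.mem_image.mp hy
    obtain ⟨w, rfl⟩ := QuotientGroup.mk_surjective w
    have h1 : ((e⁻¹ * w * (x⁻¹ * e * x) : Γ) : Γ ⧸ Z) = y := by rw [← hwy]; simp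
    refine H.mem_of_mk_eq h1 ?_
    have := D.mul_mem (D.mul_mem (H.conj_mem (D.inv_mem he) q) (h w hw)) (H.conj_mem he x)
    simpa [mul_assoc] using this

theorem Setup.KS_elim (H : Setup ρ Z D) {S : Finset (Γ ⧸ Z)} {e : Γ} (he : e ∈ D) (x : Γ)
    (hS : InC Z D x S) {Y : Module.End (ZMod 2) V} (hY : Y ∈ KS ρ Z S) :
    del ρ e x Y ∈ KS ρ Z (S.erase (x : Γ ⧸ Z)) := by
  refine KS_ind (P := fun Y => del ρ e x Y ∈ KS ρ Z (S.erase (x : Γ ⧸ Z))) ?_ ?_ ?_ hY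
  · intro y hy
    unfold del
    rw [← map_mul, ← map_mul]
    by_cases h : (y : Γ ⧸ Z) = x
    · have h1 : x⁻¹ * y ∈ Z := QuotientGroup.eq.mp h.symm
      have h2 := H.cent _ (H.conj_mem he x) _ h1
      have h3 : e⁻¹ * y * (x⁻¹ * e * x) = y := by
        calc e⁻¹ * y * (x⁻¹ * e * x) = e⁻¹ * x * (x⁻¹ * y * (x⁻¹ * e * x)) := by group
          _ = e⁻¹ * x * (x⁻¹ * e * x * (x⁻¹ * y)) := by rw [h2]
          _ = y := by group
      rw [h3, sub_self]
      exact Submodule.zero_mem _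
    · refine Submodule.sub_mem _ (mem_KS (by simp [h, hy])) (mem_KS ?_)
      have h2 := H.mk_comm (hS y hy) (H.conj_mem he x)
      have h3 : ((e⁻¹ * y * (x⁻¹ * e * x) : Γ) : Γ ⧸ Z) = y := by
        calc ((e⁻¹ * y * (x⁻¹ * e * x) : Γ) : Γ ⧸ Z)
            = ((e⁻¹ * x : Γ) : Γ ⧸ Z) * (((x⁻¹ * y : Γ) : Γ ⧸ Z) * ((x⁻¹ * e * x : Γ) : Γ ⧸ Z)) := by
              rw [← QuotientGroup.mk_mul, ← QuotientGroup.mk_mul]; congr 1; group
          _ = ((e⁻¹ * x : Γ) : Γ ⧸ Z) * (((x⁻¹ * e * x : Γ) : Γ ⧸ Z) * ((x⁻¹ * y : Γ) : Γ ⧸ Z)) := by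
              rw [h2]
          _ = y := by rw [← QuotientGroup.mk_mul, ← QuotientGroup.mk_mul]; congr 1; group
      rw [h3]
      simp [h, hy]
  · rw [del_zero]; exact Submodule.zero_mem _
  · intro Y Y' h h'
    rw [del_add]
    exact Submodule.add_mem _ h h'

theorem Setup.sub_one_inj (H : Setup ρ Z D) {z : Γ} (hz : z ∈ Z) (h1 : z ≠ 1) :
    Function.Injective (ρ z - 1 : Module.End (ZMod 2) V) := by
  have hm : ρ z - 1 ∈ Submodule.span (ZMod 2) (ρ '' (Z : Set Γ)) :=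
    Submodule.sub_mem _ (Submodule.subset_span ⟨z, hz, rfl⟩)
      (Submodule.subset_span ⟨1, Z.one_mem, map_one ρ⟩)
  refine (H.qp _ hm).resolve_left (fun h => h1 (H.inj ?_))
  rw [map_one]
  exact sub_eq_zero.mp h

theorem Setup.two_elim (H : Setup ρ Z D) {x x' : Γ} (hx : x ∈ D) (hx' : x' ∈ D)
    (hne : (x : Γ ⧸ Z) ≠ x') :
    ∃ f ∈ D, ∀ Y : Module.End (ZMod 2) V, del ρ f x Y = del ρ f x' Y → Y = 0 := by
  have h1 : x' * x⁻¹ ∉ Z := by
    intro h
    apply hne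
    have := (QuotientGroup.eq_one_iff _).mpr h
    simp only [QuotientGroup.mk_mul, QuotientGroup.mk_inv] at this
    exact (mul_inv_eq_one.mp this).symm
  have h2 : ∃ f ∈ D, x' * x⁻¹ * f ≠ f * (x' * x⁻¹) := by
    by_contra h
    push Not at h
    exact h1 (H.center _ h)
  obtain ⟨f, hf, hf'⟩ := h2
  refine ⟨f, hf, fun Y hY => ?_⟩
  have hz : (x'⁻¹ * f * x')⁻¹ * (x⁻¹ * f * x) ∈ Z := by
    rw [← QuotientGroup.eq]
    have e1 := H.mk_comm hf hx
    have e2 := H.mk_comm hf hx'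
    simp only [QuotientGroup.mk_mul, QuotientGroup.mk_inv, mul_assoc, e1, e2, inv_mul_cancel_left]
  have hz1 : (x'⁻¹ * f * x')⁻¹ * (x⁻¹ * f * x) ≠ 1 := by
    intro h
    apply hf'
    have h3 : x'⁻¹ * f * x' = x⁻¹ * f * x := inv_mul_eq_one.mp h
    calc x' * x⁻¹ * f = x' * (x⁻¹ * f * x) * x⁻¹ := by group
      _ = f * (x' * x⁻¹) := by rw [← h3]; group
  have hs : Function.Surjective (ρ ((x'⁻¹ * f * x')⁻¹ * (x⁻¹ * f * x)) - 1 :
      Module.End (ZMod 2) V) := Finite.injective_iff_surjective.mp (H.sub_one_inj hz hz1)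
  have h4 : ρ f⁻¹ * Y * ρ (x⁻¹ * f * x) = ρ f⁻¹ * Y * ρ (x'⁻¹ * f * x') :=
    sub_right_injective hY
  have h5 : Y * ρ (x'⁻¹ * f * x') * (ρ ((x'⁻¹ * f * x')⁻¹ * (x⁻¹ * f * x)) - 1) = 0 := by
    rw [mul_sub, mul_one, mul_assoc, ← map_mul, mul_inv_cancel_left, sub_eq_zero]
    have := congrArg (fun T => ρ f * T) h4
    simpa only [← mul_assoc, ← map_mul, mul_inv_cancel, map_one, one_mul] using this
  have h6 : Y * ρ (x'⁻¹ * f * x') = 0 := by
    ext v
    obtain ⟨w, rfl⟩ := hs v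
    exact LinearMap.congr_fun h5 w
  have := congrArg (fun T => T * ρ (x'⁻¹ * f * x')⁻¹) h6
  simpa only [mul_assoc, ← map_mul, mul_inv_cancel, map_one, mul_one, zero_mul] using this

theorem Setup.single_inj (H : Setup ρ Z D) (x : Γ) {Y : Module.End (ZMod 2) V}
    (hY : Y ∈ KS ρ Z {(x : Γ ⧸ Z)}) (h0 : Y ≠ 0) : Function.Injective Y := by
  have h1 : ρ x⁻¹ * Y ∈ Submodule.span (ZMod 2) (ρ '' (Z : Set Γ)) := by
    refine KS_ind (P := fun Y => ρ x⁻¹ * Y ∈ Submodule.span (ZMod 2) (ρ '' (Z : Set Γ)))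
      ?_ ?_ ?_ hY
    · intro y hy
      rw [← map_mul]
      exact Submodule.subset_span ⟨_, QuotientGroup.eq.mp (Finset.mem_singleton.mp hy).symm, rfl⟩
    · simp
    · intro Y Y' h h'
      rw [mul_add]
      exact Submodule.add_mem _ h h'
  rcases H.qp _ h1 with h | h
  · exfalso
    apply h0
    have := congrArg (fun T => ρ x * T) h
    simpa only [← mul_assoc, ← map_mul, mul_inv_cancel, map_one, one_mul, mul_zero] using this
  · exact Function.Injective.of_comp (f := ρ x⁻¹) h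

theorem InC.mem {S : Finset (Γ ⧸ Z)} (h : InC Z D 1 S) {y : Γ} (hy : (y : Γ ⧸ Z) ∈ S) : y ∈ D := by
  simpa using h y hy

/-- Separation of the graded pieces over `D`. -/
theorem Setup.sep (H : Setup ρ Z D) {x : Γ} (hx : x ∈ D) (S : Finset (Γ ⧸ Z)) :
    InC Z D 1 S → (x : Γ ⧸ Z) ∉ S → ∀ Y : Module.End (ZMod 2) V,
      Y ∈ KS ρ Z {(x : Γ ⧸ Z)} → Y ∈ KS ρ Z S → Y = 0 := by
  induction S using Finset.induction_on with
  | empty => exact fun _ _ Y _ hY => KS_empty hY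
  | insert y S hy ih =>
    intro hS hxS Y hY hY'
    obtain ⟨y, rfl⟩ := QuotientGroup.mk_surjective y
    have hyD : y ∈ D := hS.mem (Finset.mem_insert_self _ _)
    have hne : (x : Γ ⧸ Z) ≠ y := fun h => hxS (by simp [h])
    obtain ⟨f, hf, hf'⟩ := H.two_elim hx hyD hne
    apply hf'
    have hx1 : InC Z D x {(x : Γ ⧸ Z)} := by
      intro w hw
      exact H.le (QuotientGroup.eq.mp (Finset.mem_singleton.mp hw).symm)
    have h1 := H.KS_elim hf x hx1 hY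
    rw [Finset.erase_singleton] at h1
    rw [KS_empty h1]
    symm
    have h2 := H.KS_elim hf y (hS.of_mem (Finset.mem_insert_self _ _)) hY'
    rw [Finset.erase_insert hy] at h2
    refine ih (hS.mono (Finset.subset_insert _ _)) (fun h => hxS (Finset.mem_insert_of_mem h))
      _ ?_ h2
    have hy1 : InC Z D y {(x : Γ ⧸ Z)} := by
      intro w hw
      exact H.mem_of_mk_eq (Finset.mem_singleton.mp hw).symm (D.mul_mem (D.inv_mem hyD) hx)
    exact KS_mono (Finset.erase_subset _ _) (H.KS_elim hf y hy1 hY)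

theorem Setup.R0 (H : Setup ρ Z D) (n : ℕ) : ∀ (S : Finset (Γ ⧸ Z)), InC Z D 1 S → S.card ≤ n →
    ∀ u ∈ KS ρ Z S, u ≠ 0 → Module.finrank (ZMod 2) V ≤ 2 ^ n * rk u := by
  induction n with
  | zero =>
    intro S _ hc u hu h0
    rw [Nat.le_zero, Finset.card_eq_zero] at hc
    subst hc
    exact absurd (KS_empty hu) h0
  | succ n ih =>
    intro S hS hc u hu h0
    by_cases h1 : S.card ≤ 1
    · obtain ⟨x, hx⟩ := Finset.card_le_one_iff_subset_singleton.mp h1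
      obtain ⟨x, rfl⟩ := QuotientGroup.mk_surjective x
      rw [rk_of_inj u (H.single_inj x (KS_mono hx hu) h0)]
      exact Nat.le_mul_of_pos_left _ (by positivity)
    · obtain ⟨x, hx, y, hy, hne⟩ := Finset.one_lt_card.mp (not_le.mp h1)
      obtain ⟨x, rfl⟩ := QuotientGroup.mk_surjective x
      obtain ⟨y, rfl⟩ := QuotientGroup.mk_surjective y
      obtain ⟨f, hf, hf'⟩ := H.two_elim (hS.mem hx) (hS.mem hy) hne
      have key : ∀ w : Γ, (w : Γ ⧸ Z) ∈ S → del ρ f w u ≠ 0 →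
          Module.finrank (ZMod 2) V ≤ 2 ^ (n + 1) * rk u := by
        intro w hw hw0
        have h2 := ih _ (hS.mono (Finset.erase_subset (w : Γ ⧸ Z) S))
          (by rw [Finset.card_erase_of_mem hw]; omega) _ (H.KS_elim hf w (hS.of_mem hw) hu) hw0
        have h3 := rk_del (ρ := ρ) f w u
        calc _ ≤ 2 ^ n * rk (del ρ f w u) := h2
          _ ≤ 2 ^ n * (2 * rk u) := Nat.mul_le_mul_left _ h3
          _ = _ := by ring
      by_cases hx0 : del ρ f x u = 0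
      · refine key y hy (fun hy0 => h0 (hf' u ?_))
        rw [hx0, hy0]
      · exact key x hx hx0

theorem Setup.nonvanishing (H : Setup ρ Z D) (x : Γ) (S : Finset (Γ ⧸ Z)) :
    InC Z D 1 S → S.card < II Z D x → ∀ u ∈ KS ρ Z S, u ≠ 0 → ∃ e ∈ D, del ρ e x u ≠ 0 := by
  induction S using Finset.strongInduction with
  | H S ih =>
  intro hS hc u hu h0
  by_cases hmin : ∃ y ∈ S, u ∈ KS ρ Z (S.erase y)
  · obtain ⟨y, hy, hu'⟩ := hmin
    exact ih _ (Finset.erase_ssubset hy) (hS.mono (Finset.erase_subset _ _))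
      ((Finset.card_erase_le).trans_lt hc) u hu' h0
  push Not at hmin
  by_contra hcon
  push Not at hcon
  have hne : S.Nonempty := by
    rw [Finset.nonempty_iff_ne_empty]
    rintro rfl
    exact h0 (KS_empty hu)
  obtain ⟨s, hs⟩ := hne
  obtain ⟨s, rfl⟩ := QuotientGroup.mk_surjective s
  have key : ∀ e ∈ D, (s : Γ ⧸ Z) ∈ S.image
      (fun y => ((e⁻¹ : Γ) : Γ ⧸ Z) * y * ((x⁻¹ * e * x : Γ) : Γ ⧸ Z)) := by
    intro e he
    by_contra hn
    have h1 : u ∈ KS ρ Z (S.image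
        (fun y => ((e⁻¹ : Γ) : Γ ⧸ Z) * y * ((x⁻¹ * e * x : Γ) : Γ ⧸ Z))) := by
      have := KS_mul (ρ := ρ) e⁻¹ (x⁻¹ * e * x) hu
      rwa [← sub_eq_zero.mp (hcon e he)] at this
    obtain ⟨Y1, hY1, Y2, hY2, hY⟩ := KS_split (s : Γ ⧸ Z) hu
    have h2 : Y1 = 0 := by
      refine H.sep (hS.mem hs) (S.erase s ∪ S.image
        (fun y => ((e⁻¹ : Γ) : Γ ⧸ Z) * y * ((x⁻¹ * e * x : Γ) : Γ ⧸ Z))) ?_ ?_ Y1 hY1 ?_
      · exact (H.inC_del hS he x).mono
          (Finset.union_subset_union (Finset.erase_subset _ _) le_rfl)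
      · simp only [Finset.mem_union, not_or]
        exact ⟨Finset.notMem_erase _ _, hn⟩
      · have : Y1 = u - Y2 := by rw [hY]; abel
        rw [this]
        exact Submodule.sub_mem _ (KS_mono Finset.subset_union_right h1)
          (KS_mono Finset.subset_union_left hY2)
    rw [h2, zero_add] at hY
    exact hmin _ hs (hY ▸ hY2)
  have hsub : {y : Γ ⧸ Z | ∃ e ∈ D, y = ((e * x * e⁻¹ : Γ) : Γ ⧸ Z)} ⊆
      (fun y => (x : Γ ⧸ Z) * (y⁻¹ * (s : Γ ⧸ Z))) '' (S : Set (Γ ⧸ Z)) := by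
    rintro _ ⟨e, he, rfl⟩
    obtain ⟨w, hw, hwe⟩ := Finset.mem_image.mp (key e he)
    obtain ⟨w, rfl⟩ := QuotientGroup.mk_surjective w
    refine ⟨w, hw, ?_⟩
    have e1 := H.mk_comm (D.inv_mem he) (hS.mem hw)
    have e2 := H.mk_comm (D.inv_mem he) (H.conj_mem he x)
    simp only at hwe ⊢
    rw [← hwe, e1, mul_assoc (w : Γ ⧸ Z), inv_mul_cancel_left, e2, ← QuotientGroup.mk_mul,
      ← QuotientGroup.mk_mul]
    congr 1
    group
  have := (Set.ncard_le_ncard hsub (Set.toFinite _)).trans (Set.ncard_image_le (Set.toFinite _))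
  rw [Set.ncard_coe_finset] at this
  exact absurd hc (not_lt.mpr this)

theorem Setup.II_mul_mem (H : Setup ρ Z D) (q : Γ) {d : Γ} (hd : d ∈ D) :
    II Z D q ≤ II Z D (q * d) := by
  have hsub : {y : Γ ⧸ Z | ∃ e ∈ D, y = ((e * q * e⁻¹ : Γ) : Γ ⧸ Z)} ⊆
      (fun y => y * (d : Γ ⧸ Z)⁻¹) ''
        {y : Γ ⧸ Z | ∃ e ∈ D, y = ((e * (q * d) * e⁻¹ : Γ) : Γ ⧸ Z)} := by
    rintro _ ⟨e, he, rfl⟩
    refine ⟨_, ⟨e, he, rfl⟩, ?_⟩
    have e1 := H.mk_comm hd (D.inv_mem he)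
    simp only [QuotientGroup.mk_mul, QuotientGroup.mk_inv] at e1 ⊢
    rw [mul_assoc (e : Γ ⧸ Z), mul_assoc (q : Γ ⧸ Z), e1]
    group
  exact (Set.ncard_le_ncard hsub (Set.toFinite _)).trans (Set.ncard_image_le (Set.toFinite _))

/-- Sums of `m` elements, each supported on at most `n` classes inside a coset with a large
class size. -/
def Far (ρ : Γ →* Module.End (ZMod 2) V) (Z : Subgroup Γ) [Z.Normal] (D : Subgroup Γ) (L : ℕ) :
    ℕ → ℕ → Module.End (ZMod 2) V → Prop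
  | 0, _, Y => Y = 0
  | m + 1, n, Y => ∃ (Y1 Y2 : Module.End (ZMod 2) V) (q : Γ) (S : Finset (Γ ⧸ Z)),
      Y = Y1 + Y2 ∧ Far ρ Z D L m n Y1 ∧ L < II Z D q ∧ InC Z D q S ∧ S.card ≤ n ∧ Y2 ∈ KS ρ Z S

theorem Far.mono {L m n n' : ℕ} (h : n ≤ n') : ∀ {Y : Module.End (ZMod 2) V},
    Far ρ Z D L m n Y → Far ρ Z D L m n' Y := by
  induction m with
  | zero => exact fun h => h
  | succ m ih =>
    rintro _ ⟨Y1, Y2, q, S, rfl, h1, h2, h3, h4, h5⟩
    exact ⟨Y1, Y2, q, S, rfl, ih h1, h2, h3, h4.trans h, h5⟩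

theorem card_del_le (S : Finset (Γ ⧸ Z)) (f : Γ ⧸ Z → Γ ⧸ Z) {n : ℕ} (h : S.card ≤ n) :
    (S ∪ S.image f).card ≤ 2 * n := by
  have h1 := Finset.card_union_le S (S.image f)
  have h2 := Finset.card_image_le (s := S) (f := f)
  omega

theorem Setup.far_del (H : Setup ρ Z D) {L m n : ℕ} {e : Γ} (he : e ∈ D) (x : Γ) :
    ∀ {Y : Module.End (ZMod 2) V}, Far ρ Z D L m n Y → Far ρ Z D L m (2 * n) (del ρ e x Y) := by
  induction m with
  | zero =>
    intro Y h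
    have h' : Y = 0 := h
    rw [h', del_zero]
    rfl
  | succ m ih =>
    rintro _ ⟨Y1, Y2, q, S, rfl, h1, h2, h3, h4, h5⟩
    exact ⟨_, _, q, _, del_add _ _ _ _, ih h1, h2, H.inC_del h3 he x, card_del_le _ _ h4,
      KS_del e x h5⟩

/-- Threshold for the class sizes. -/
def bnd : ℕ → ℕ → ℕ
  | 0, n => n
  | m + 1, n => bnd m (2 ^ n * n)

/-- The constant in the rank estimate. -/
def cst : ℕ → ℕ → ℕ
  | 0, n => 2 ^ n
  | m + 1, n => 2 ^ n * cst m (2 ^ n * n)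

theorem le_bnd (m : ℕ) : ∀ n, n ≤ bnd m n := by
  induction m with
  | zero => exact fun n => le_rfl
  | succ m ih => exact fun n => (Nat.le_mul_of_pos_left _ (by positivity)).trans (ih _)

theorem Setup.Rm (H : Setup ρ Z D) (L m : ℕ) : ∀ (n : ℕ), bnd m n ≤ L →
    ∀ (S : Finset (Γ ⧸ Z)), InC Z D 1 S → S.card ≤ n → ∀ u ∈ KS ρ Z S, u ≠ 0 →
    ∀ Y, Far ρ Z D L m n Y → Module.finrank (ZMod 2) V ≤ cst m n * rk (u + Y) := by
  induction m with
  | zero =>
    intro n _ S hS hc u hu h0 Y hY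
    have h' : Y = 0 := hY
    rw [h', add_zero]
    exact H.R0 n S hS hc u hu h0
  | succ m ih =>
    have inner : ∀ (q : Γ), L < II Z D q → ∀ (j n : ℕ), bnd m (2 ^ j * n) ≤ L →
        ∀ (S : Finset (Γ ⧸ Z)), InC Z D 1 S → S.card ≤ n → ∀ u ∈ KS ρ Z S, u ≠ 0 →
        ∀ Y, Far ρ Z D L m n Y → ∀ T : Finset (Γ ⧸ Z), InC Z D q T → T.card ≤ j →
        ∀ Y' ∈ KS ρ Z T,
        Module.finrank (ZMod 2) V ≤ 2 ^ j * cst m (2 ^ j * n) * rk (u + (Y + Y')) := by
      intro q hq j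
      induction j with
      | zero =>
        intro n hn S hS hc u hu h0 Y hY T _ hT Y' hY'
        rw [Nat.le_zero, Finset.card_eq_zero] at hT
        subst hT
        rw [KS_empty hY', add_zero]
        simp only [pow_zero, one_mul] at hn ⊢
        exact ih n hn S hS hc u hu h0 Y hY
      | succ j ihj =>
        intro n hn S hS hc u hu h0 Y hY T hTq hT Y' hY'
        have e1 : 2 ^ (j + 1) * n = 2 ^ j * (2 * n) := by ring
        rw [e1] at hn ⊢
        rcases T.eq_empty_or_nonempty with rfl | ⟨x, hx⟩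
        · have := ihj (2 * n) hn S hS (by omega) u hu h0 Y (hY.mono (by omega)) ∅ hTq (by simp)
            Y' hY'
          refine this.trans (Nat.mul_le_mul_right _ (Nat.mul_le_mul_right _ ?_))
          exact Nat.pow_le_pow_right (by norm_num) (by omega)
        · obtain ⟨x, rfl⟩ := QuotientGroup.mk_surjective x
          have hx1 : II Z D q ≤ II Z D x := by
            have := H.II_mul_mem q (hTq x hx)
            rwa [mul_inv_cancel_left] at this
          have hx2 : S.card < II Z D x := by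
            have h1 := le_bnd m (2 ^ j * (2 * n))
            have h2 : 2 * n ≤ 2 ^ j * (2 * n) := Nat.le_mul_of_pos_left _ (by positivity)
            omega
          obtain ⟨e, he, hne⟩ := H.nonvanishing x S hS hx2 u hu h0
          have h1 := ihj (2 * n) hn _ (H.inC_del hS he x) (card_del_le _ _ hc) _ (KS_del e x hu)
            hne _ (H.far_del he x hY) (T.erase x) (hTq.mono (Finset.erase_subset _ _))
            (by rw [Finset.card_erase_of_mem hx]; omega) _ (H.KS_elim he x (hTq.of_mem hx) hY')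
          rw [← del_add, ← del_add] at h1
          have h2 := rk_del (ρ := ρ) e x (u + (Y + Y'))
          calc _ ≤ _ := h1
            _ ≤ 2 ^ j * cst m (2 ^ j * (2 * n)) * (2 * rk (u + (Y + Y'))) :=
              Nat.mul_le_mul_left _ h2
            _ = _ := by ring
    rintro n hn S hS hc u hu h0 _ ⟨Y1, Y2, q, T, rfl, h1, h2, h3, h4, h5⟩
    exact inner q h2 n n hn S hS hc u hu h0 Y1 h1 T h3 h4 Y2 h5

theorem Setup.far_sum (H : Setup ρ Z D) {L : ℕ} (l : List Γ) (hl : ∀ y ∈ l, L < II Z D y) :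
    Far ρ Z D L l.length 1 (l.map ρ).sum := by
  induction l with
  | nil => rfl
  | cons y l ih =>
    refine ⟨(l.map ρ).sum, ρ y, y, {(y : Γ ⧸ Z)}, by simp [add_comm],
      ih (fun w hw => hl w (List.mem_cons_of_mem _ hw)), hl y List.mem_cons_self, ?_, by simp,
      mem_KS (by simp)⟩
    intro w hw
    exact H.le (QuotientGroup.eq.mp (Finset.mem_singleton.mp hw).symm)

/-- The rank estimate for the identity plus a sum of group elements. -/
theorem Setup.rank_list [Nontrivial V] (H : Setup ρ Z D) (l : List Γ)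
    (hl : ∀ y ∈ l, bnd l.length 1 < II Z D y) :
    Module.finrank (ZMod 2) V ≤ cst l.length 1 * rk (1 + (l.map ρ).sum) := by
  refine H.Rm _ _ 1 le_rfl {((1 : Γ) : Γ ⧸ Z)} ?_ (by simp) 1 ?_ one_ne_zero _ (H.far_sum l hl)
  · intro w hw
    exact H.le (QuotientGroup.eq.mp (Finset.mem_singleton.mp hw).symm)
  · rw [← map_one ρ]
    exact mem_KS (by simp)

end Pool.Agent.P.MP_ac4bd0_al.No.CoreAux
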