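import Mathlib

set_option autoImplicit false

open Polynomial Module

namespace Pool.Agent.P.MP_ac4bd0_al

/-- A unit which is integral together with its inverse has a power in any order. -/
theorem pow_mem_order {B : Type} [CommRing B] (O : Subring B)
    (hO : ∀ b : B, ∃ N : ℕ, 0 < N ∧ (N : B) * b ∈ O) (u : Bˣ) (h1 : IsIntegral ℤ (u : B))
    (h2 : IsIntegral ℤ ((u⁻¹ : Bˣ) : B)) :
    ∃ m : ℕ, 0 < m ∧ ((u ^ m : Bˣ) : B) ∈ O ∧ (((u ^ m)⁻¹ : Bˣ) : B) ∈ O := by
  classical
  let S : Subalgebra ℤ B := Algebra.adjoin ℤ {(u : B), ((u⁻¹ : Bˣ) : B)}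
  have hfg : (Subalgebra.toSubmodule S).FG :=
    fg_adjoin_of_finite (Set.toFinite _) (by
      rintro x (rfl | rfl)
      · exact h1
      · exact h2)
  obtain ⟨N, hN, hNS⟩ : ∃ N : ℕ, 0 < N ∧ ∀ s ∈ S, (N : B) * s ∈ O := by
    obtain ⟨t, ht⟩ := hfg
    choose n hn hn' using hO
    refine ⟨∏ x ∈ t, n x, Finset.prod_pos (fun x _ => hn x), fun s hs => ?_⟩
    have hs' : s ∈ Submodule.span ℤ (t : Set B) := by rw [ht]; exact hs
    clear hs
    induction hs' using Submodule.span_induction with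
    | mem x hx =>
      rw [← Finset.mul_prod_erase t n hx, Nat.cast_mul, mul_comm (n x : B), mul_assoc]
      exact O.mul_mem (natCast_mem O _) (hn' x)
    | zero => simp
    | add x y _ _ hx hy => rw [mul_add]; exact O.add_mem hx hy
    | smul a x _ hx =>
      rw [mul_smul_comm]
      exact zsmul_mem hx a
  have hfin : Module.Finite ℤ S := (Module.Finite.iff_fg (N := Subalgebra.toSubmodule S)).mpr hfg
  let I : Ideal S := Ideal.span {(N : S)}
  have hfin2 : Finite (S ⧸ I) := by
    refine Module.finite_of_fg_torsion (S ⧸ I) ?_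
    intro x
    refine ⟨⟨(N : ℤ), mem_nonZeroDivisors_of_ne_zero (by exact_mod_cast hN.ne')⟩, ?_⟩
    have h0 : (N : S ⧸ I) = 0 := by
      rw [← map_natCast (Ideal.Quotient.mk I), Ideal.Quotient.eq_zero_iff_mem]
      exact Ideal.mem_span_singleton_self _
    show (N : ℤ) • x = 0
    rw [natCast_zsmul, nsmul_eq_mul, h0, zero_mul]
  let U : Sˣ :=
    ⟨⟨u, Algebra.subset_adjoin (by simp)⟩, ⟨(u⁻¹ : Bˣ), Algebra.subset_adjoin (by simp)⟩,
      Subtype.ext (by simp), Subtype.ext (by simp)⟩
  have key : ∀ (W : Sˣ), Units.map (Ideal.Quotient.mk I).toMonoidHom W = 1 →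
      ((W : S) : B) ∈ O := by
    intro W hW
    have h3 : Ideal.Quotient.mk I (W : S) = Ideal.Quotient.mk I 1 := congrArg Units.val hW
    rw [Ideal.Quotient.eq, Ideal.mem_span_singleton'] at h3
    obtain ⟨a, ha⟩ := h3
    have h4 : ((W : S) : B) = 1 + (N : B) * (a : B) := by
      have := congrArg (fun t : S => (t : B)) ha
      simp only [MulMemClass.coe_mul, SubringClass.coe_natCast, AddSubgroupClass.coe_sub,
        OneMemClass.coe_one] at this
      rw [mul_comm, this]
      ring
    rw [h4]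
    exact O.add_mem O.one_mem (hNS _ a.2)
  obtain ⟨m, hm, hm'⟩ := isOfFinOrder_iff_pow_eq_one.mp
    (isOfFinOrder_of_finite (Units.map (Ideal.Quotient.mk I).toMonoidHom U))
  refine ⟨m, hm, ?_, ?_⟩
  · have := key (U ^ m) (by rw [map_pow, hm'])
    simpa [U] using this
  · have := key (U⁻¹ ^ m) (by rw [map_pow, map_inv, inv_pow, hm', inv_one])
    rw [← inv_pow]
    rw [Units.val_pow_eq_pow_val, SubmonoidClass.coe_pow] at this
    rw [Units.val_pow_eq_pow_val]
    exact this

open NumberField in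
/-- A totally real number field other than the rationals has a unit of infinite order. -/
theorem exists_unit_infinite (K : Type) [Field K] [NumberField K]
    (hreal : ∀ (φ : K →+* ℂ) (x : K), (starRingEnd ℂ) (φ x) = φ x) (hK : finrank ℚ K ≠ 1) :
    ∃ ε : Kˣ, IsIntegral ℤ (ε : K) ∧ IsIntegral ℤ ((ε⁻¹ : Kˣ) : K) ∧ ¬IsOfFinOrder ε := by
  classical
  have hc : InfinitePlace.nrComplexPlaces K = 0 := by
    rw [nrComplexPlaces_eq_zero_iff, isTotallyReal_iff]
    intro w
    rw [InfinitePlace.isReal_iff, ComplexEmbedding.isReal_iff]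
    ext x
    exact hreal _ x
  have h1 := InfinitePlace.card_add_two_mul_card_eq_rank K
  have h2 := InfinitePlace.card_eq_nrRealPlaces_add_nrComplexPlaces K
  have h3 : 0 < finrank ℚ K := finrank_pos
  have h4 : 1 < Fintype.card (InfinitePlace K) := by omega
  obtain ⟨w₁, w, hw⟩ := Fintype.exists_pair_of_one_lt_card h4
  obtain ⟨u, hu⟩ := Units.dirichletUnitTheorem.exists_unit K w₁
  refine ⟨Units.map (algebraMap (𝓞 K) K).toMonoidHom u, (u : 𝓞 K).isIntegral_coe,
    ((u⁻¹ : (𝓞 K)ˣ) : 𝓞 K).isIntegral_coe, fun h => ?_⟩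
  obtain ⟨m, hm, hm'⟩ := isOfFinOrder_iff_pow_eq_one.mp h
  have h5 : w (algebraMap (𝓞 K) K u) ^ m = 1 := by
    have := congrArg (fun t : Kˣ => w (t : K)) hm'
    simpa using this
  have h6 := (pow_eq_one_iff_of_nonneg (apply_nonneg w _) hm.ne').mp h5
  have h7 := hu w hw.symm
  have h8 : w (algebraMap (𝓞 K) K u) = w u := rfl
  rw [← h8, h6, Real.log_one] at h7
  exact lt_irrefl _ h7

theorem rat_or_unit (K : Type) [Field K] [inst : Algebra ℚ K] [hfd : Module.Finite ℚ K]
    (hreal : ∀ (φ : K →+* ℂ) (x : K), (starRingEnd ℂ) (φ x) = φ x) :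
    (∀ x : K, ∃ r : ℚ, algebraMap ℚ K r = x) ∨ ∃ ε : Kˣ,
      (∃ p : ℤ[X], p.Monic ∧ eval₂ (Int.castRingHom K) (ε : K) p = 0) ∧
      (∃ p : ℤ[X], p.Monic ∧ eval₂ (Int.castRingHom K) ((ε⁻¹ : Kˣ) : K) p = 0) ∧
      ¬IsOfFinOrder ε := by
  have : CharZero K := algebraRat.charZero _
  obtain rfl : inst = DivisionRing.toRatAlgebra := Subsingleton.elim _ _
  have : NumberField K := { to_finiteDimensional := hfd }
  by_cases hK : finrank ℚ K = 1
  · left
    intro x
    obtain ⟨r, hr⟩ := (finrank_eq_one_iff_of_nonzero' (1 : K) one_ne_zero).mp hK x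
    exact ⟨r, by rw [Algebra.algebraMap_eq_smul_one, hr]⟩
  · right
    exact exists_unit_infinite K hreal hK

/-- A reduced finite totally real algebra whose integral units have finite order is spanned by
its idempotents. -/
theorem mem_span_idem (B : Type) [CommRing B] [Algebra ℚ B] [Module.Finite ℚ B] [IsReduced B]
    (hreal : ∀ (φ : B →+* ℂ) (x : B), (starRingEnd ℂ) (φ x) = φ x)
    (hfin : ∀ u : Bˣ, IsIntegral ℤ (u : B) → IsIntegral ℤ ((u⁻¹ : Bˣ) : B) → IsOfFinOrder u)
    (b : B) : b ∈ Submodule.span ℚ {e : B | e * e = e} := by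
  classical
  have : IsArtinianRing B := IsArtinianRing.of_finite ℚ B
  let E := IsArtinianRing.equivPi B
  have : Finite (MaximalSpectrum B) := inferInstance
  have := Fintype.ofFinite (MaximalSpectrum B)
  have hrank : ∀ m : MaximalSpectrum B, ∀ x : B ⧸ m.asIdeal, ∃ r : ℚ, algebraMap ℚ _ r = x := by
    intro m
    have := m.isMaximal
    let _ : Field (B ⧸ m.asIdeal) := Ideal.Quotient.field _
    rcases rat_or_unit (B ⧸ m.asIdeal) (fun φ x => by
        obtain ⟨y, rfl⟩ := Ideal.Quotient.mk_surjective x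
        exact hreal (φ.comp (Ideal.Quotient.mk m.asIdeal)) y) with h | ⟨ε, h1, h2, h3⟩
    · exact h
    · exfalso
      have hint : ∀ x : B ⧸ m.asIdeal,
          (∃ p : ℤ[X], p.Monic ∧ eval₂ (Int.castRingHom _) x p = 0) →
          IsIntegral ℤ (E.symm (Function.update 1 m x)) := by
        rintro x ⟨p, hp, hp0⟩
        refine ⟨p * (X - C 1), hp.mul (monic_X_sub_C 1), ?_⟩
        apply E.injective
        rw [map_zero]
        funext m'
        have h4 := hom_eval₂ (p * (X - C 1)) (algebraMap ℤ B) ((Pi.evalRingHom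
          (fun I : MaximalSpectrum B => B ⧸ I.asIdeal) m').comp E.toRingEquiv.toRingHom)
          (E.symm (Function.update 1 m x))
        refine h4.trans ?_
        rw [RingHom.ext_int (RingHom.comp _ _) (Int.castRingHom _)]
        by_cases hm : m' = m
        · subst hm
          simp [hp0]
        · simp [Function.update_of_ne hm]
      let u : Bˣ := ⟨E.symm (Function.update 1 m ε), E.symm (Function.update 1 m (ε⁻¹ : _ˣ)),
        by rw [← map_mul, ← Function.update_mul]; simp,
        by rw [← map_mul, ← Function.update_mul]; simp⟩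
      obtain ⟨k, hk, hk'⟩ := isOfFinOrder_iff_pow_eq_one.mp (hfin u (hint _ h1) (hint _ h2))
      apply h3
      refine isOfFinOrder_iff_pow_eq_one.mpr ⟨k, hk, Units.ext ?_⟩
      have := congrArg (fun t : Bˣ => E (t : B) m) hk'
      simpa [u] using this
  choose r hr using fun m : MaximalSpectrum B => hrank m (E b m)
  have hb : b = ∑ m, r m • E.symm (Pi.single m 1) := by
    apply E.injective
    funext m'
    rw [map_sum, Finset.sum_apply, Finset.sum_eq_single m']
    · rw [Algebra.smul_def, map_mul, AlgEquiv.apply_symm_apply, Pi.mul_apply, Pi.single_eq_same,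
        mul_one, ← hr m']
      rfl
    · intro m _ hm
      rw [Algebra.smul_def, map_mul, AlgEquiv.apply_symm_apply, Pi.mul_apply,
        Pi.single_eq_of_ne hm.symm, mul_zero]
    · simp
  rw [hb]
  refine Submodule.sum_mem _ (fun m _ => Submodule.smul_mem _ _ (Submodule.subset_span ?_))
  show _ * _ = _
  rw [← map_mul, ← Pi.single_mul, mul_one]

end Pool.Agent.P.MP_ac4bd0_al
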