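import Pool.Agent.P.MP_ac4bd0_al.No.CutA
import Pool.Agent.P.MP_ac4bd0_al.No.CutB
import Pool.Agent.P.MP_ac4bd0_al.No.Basic

set_option autoImplicit false

open Polynomial Module

namespace Pool.Agent.P.MP_ac4bd0_al

/-- The central elements of the rational group algebra with symmetric regular matrix. -/
noncomputable def symCen (G : Type) [Group G] [Fintype G] [DecidableEq G] :
    Subalgebra ℚ (Subalgebra.center ℚ (MonoidAlgebra ℚ G)) where
  carrier := {u | (regM G u).transpose = regM G u}
  mul_mem' := by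
    intro a b ha hb
    simp only [Set.mem_ofPred_eq] at ha hb ⊢
    rw [MulMemClass.coe_mul, map_mul, Matrix.transpose_mul, ha, hb, ← map_mul, ← map_mul]
    congr 1
    exact (Subalgebra.mem_center_iff.mp a.2 _)
  add_mem' := by
    intro a b ha hb
    simp only [Set.mem_ofPred_eq] at ha hb ⊢
    rw [AddMemClass.coe_add, map_add, Matrix.transpose_add, ha, hb]
  algebraMap_mem' := by
    intro r
    simp only [Set.mem_ofPred_eq]
    rw [Subalgebra.coe_algebraMap, AlgHom.commutes, Algebra.algebraMap_eq_smul_one,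
      Matrix.transpose_smul, Matrix.transpose_one]

/-- A cut group is inverse semi-rational. -/
theorem isr_of_cut_aux {G : Type} [Group G] [Finite G]
    (hcut : ∀ u : (MonoidAlgebra ℤ G)ˣ, u ∈ Subgroup.center (MonoidAlgebra ℤ G)ˣ →
      ∃ z ∈ Subgroup.center G, (u : MonoidAlgebra ℤ G) = MonoidAlgebra.of ℤ G z ∨
        (u : MonoidAlgebra ℤ G) = -MonoidAlgebra.of ℤ G z)
    (g : G) (j : ℕ) (hj : j.Coprime (Nat.card G)) :
    IsConj g (g ^ j) ∨ IsConj g⁻¹ (g ^ j) := by
  classical
  have := Fintype.ofFinite G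
  let B := symCen G
  let ι : B →ₐ[ℚ] MonoidAlgebra ℚ G := (Subalgebra.val _).comp B.val
  have hι : Function.Injective ι := Subtype.val_injective.comp Subtype.val_injective
  have hsym : ∀ b : B, (regM G (ι b)).transpose = regM G (ι b) := fun b => b.2
  have hcen : ∀ (b : B) (u : MonoidAlgebra ℚ G), u * ι b = ι b * u := fun b u =>
    Subalgebra.mem_center_iff.mp b.1.2 u
  have : Module.Finite ℚ B := Module.Finite.of_injective ι.toLinearMap hι
  have : IsReduced B := by
    rw [isReduced_iff_pow_one_lt 2 one_lt_two]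
    intro x hx
    have h1 : (regM G (ι x)).conjTranspose * regM G (ι x) = 0 := by
      rw [Matrix.conjTranspose_eq_transpose_of_trivial, hsym, ← map_mul, ← map_mul, ← pow_two, hx,
        map_zero, map_zero]
    rw [Matrix.conjTranspose_mul_self_eq_zero] at h1
    apply hι
    apply regM_injective
    rw [h1, map_zero, map_zero]
  have hreal : ∀ (φ : B →+* ℂ) (x : B), (starRingEnd ℂ) (φ x) = φ x := by
    intro φ x
    refine real_of_root (regM G (ι x)) (hsym x) _ ?_
    have h1 : aeval x (regM G (ι x)).charpoly = 0 := by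
      apply hι
      apply regM_injective
      have h3 := aeval_algHom_apply ((regM G).comp ι) x (regM G (ι x)).charpoly
      rw [map_zero, map_zero]
      exact h3.symm.trans (Matrix.aeval_self_charpoly _)
    have h2 := hom_eval₂ (regM G (ι x)).charpoly (algebraMap ℚ B) φ x
    rw [← aeval_def, h1, map_zero, RingHom.ext_rat (φ.comp _) (algebraMap ℚ ℂ), ← aeval_def] at h2
    exact h2.symm
  let f : MonoidAlgebra ℤ G →+* MonoidAlgebra ℚ G := MonoidAlgebra.mapRingHom G (Int.castRingHom ℚ)
  have hf : ∀ v x, (f v).coeff x = (v.coeff x : ℚ) := by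
    intro v x
    simp [f]
  have hfinj : Function.Injective f := by
    intro v w h
    ext x
    have := congrArg (fun t => t.coeff x) h
    simp only [hf] at this
    exact_mod_cast this
  let O : Subring B := f.range.comap ι.toRingHom
  have hO : ∀ b : B, ∃ N : ℕ, 0 < N ∧ (N : B) * b ∈ O := by
    intro b
    refine ⟨∏ x : G, ((ι b).coeff x).den, Finset.prod_pos (fun x _ => Rat.den_pos _), ?_⟩
    refine ⟨∑ x : G, MonoidAlgebra.single x
      ((∏ y ∈ Finset.univ.erase x, (((ι b).coeff y).den : ℤ)) * ((ι b).coeff x).num), ?_⟩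
    ext x
    rw [hf]
    show _ = (ι (_ * b)).coeff x
    rw [← nsmul_eq_mul, map_nsmul, MonoidAlgebra.coeff_smul_apply, MonoidAlgebra.coeff_sum,
      Finsupp.finsetSum_apply, Finset.sum_eq_single x, ← Finset.mul_prod_erase _ _
        (Finset.mem_univ x)]
    · simp only [MonoidAlgebra.coeff_single, Finsupp.single_eq_same, Int.cast_mul, Int.cast_prod,
        Int.cast_natCast, nsmul_eq_mul, Nat.cast_mul, Nat.cast_prod]
      rw [← Rat.mul_den_eq_num]
      ring
    · intro y _ hy
      simp [hy]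
    · simp
  have hfin : ∀ u : Bˣ, IsIntegral ℤ (u : B) → IsIntegral ℤ ((u⁻¹ : Bˣ) : B) → IsOfFinOrder u := by
    intro u h1 h2
    obtain ⟨m, hm, ⟨v, hv⟩, ⟨v', hv'⟩⟩ := pow_mem_order O hO u h1 h2
    have hv1 : f v = ι (u ^ m : Bˣ) := hv
    have hv2 : f v' = ι ((u ^ m)⁻¹ : Bˣ) := hv'
    let U : (MonoidAlgebra ℤ G)ˣ := ⟨v, v',
      hfinj (by rw [map_mul, hv1, hv2, ← map_mul, Units.mul_inv, map_one, map_one]),
      hfinj (by rw [map_mul, hv1, hv2, ← map_mul, Units.inv_mul, map_one, map_one])⟩
    obtain ⟨z, -, hz⟩ := hcut U (by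
      rw [Subgroup.mem_center_iff]
      intro w
      apply Units.ext
      apply hfinj
      show f (w * v) = f (v * w)
      rw [map_mul, map_mul, hv1, hcen])
    have h3 : v ^ (2 * Nat.card G) = 1 := by
      have h4 : v ^ 2 = MonoidAlgebra.of ℤ G z ^ 2 := by
        rcases hz with h | h
        · exact congrArg (· ^ 2) h
        · have : v = -MonoidAlgebra.of ℤ G z := h
          rw [this, neg_sq]
      rw [pow_mul, h4, ← pow_mul, mul_comm, pow_mul, ← map_pow, pow_card_eq_one', map_one, one_pow]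
    refine isOfFinOrder_iff_pow_eq_one.mpr ⟨m * (2 * Nat.card G),
      Nat.mul_pos hm (Nat.mul_pos two_pos Nat.card_pos), Units.ext (hι ?_)⟩
    rw [pow_mul, Units.val_pow_eq_pow_val, map_pow, ← hv1, ← map_pow, h3, map_one, Units.val_one,
      map_one]
  have hall : ∀ b : B, (ι b).coeff (g ^ j) = (ι b).coeff g := by
    intro b
    have hb := mem_span_idem B hreal hfin b
    induction hb using Submodule.span_induction with
    | mem e he =>
      exact idem_coeff_pow (ι e) (by rw [← map_mul, he]) (hcen e) g j hj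
    | zero => simp
    | add x y _ _ hx hy => simp only [map_add, MonoidAlgebra.coeff_add, Finsupp.add_apply, hx, hy]
    | smul a x _ hx => simp only [map_smul, MonoidAlgebra.coeff_smul_apply, hx]
  let z : MonoidAlgebra ℚ G := ∑ x : G, MonoidAlgebra.single x
    (if IsConj g x ∨ IsConj g⁻¹ x then 1 else 0)
  have hz : ∀ x, z.coeff x = if IsConj g x ∨ IsConj g⁻¹ x then 1 else 0 := by
    intro x
    rw [MonoidAlgebra.coeff_sum, Finsupp.finsetSum_apply, Finset.sum_eq_single x]
    · simp
    · intro y _ hy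
      simp [hy]
    · simp
  have hinv : ∀ a x : G, IsConj a x⁻¹ ↔ IsConj a⁻¹ x := by
    intro a x
    simp only [isConj_iff]
    constructor
    · rintro ⟨c, hc⟩
      exact ⟨c, by rw [← inv_inv x, ← hc]; group⟩
    · rintro ⟨c, rfl⟩
      exact ⟨c, by group⟩
  have hzc : z ∈ Subalgebra.center ℚ (MonoidAlgebra ℚ G) := by
    rw [Subalgebra.mem_center_iff]
    intro w
    induction w using MonoidAlgebra.induction_linear with
    | zero => simp
    | add x y hx hy => rw [add_mul, mul_add, hx, hy]
    | single h r =>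
      ext x
      have hc : IsConj (h⁻¹ * x) (x * h⁻¹) := isConj_iff.mpr ⟨h, by group⟩
      have hc' : ∀ a : G, IsConj a (h⁻¹ * x) ↔ IsConj a (x * h⁻¹) := fun a =>
        ⟨fun t => t.trans hc, fun t => t.trans hc.symm⟩
      rw [MonoidAlgebra.coeff_single_mul_apply, MonoidAlgebra.coeff_mul_single_apply, hz, hz,
        mul_comm]
      simp only [hc']
  have hzs : (⟨z, hzc⟩ : Subalgebra.center ℚ (MonoidAlgebra ℚ G)) ∈ B := by
    show (regM G z).transpose = regM G z
    ext x y
    rw [Matrix.transpose_apply, regM_apply, regM_apply, hz, hz,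
      show y * x⁻¹ = (x * y⁻¹)⁻¹ by group]
    simp only [hinv, inv_inv, or_comm]
  have h := hall ⟨⟨z, hzc⟩, hzs⟩
  change z.coeff _ = z.coeff _ at h
  rw [hz, hz, if_pos (Or.inl (IsConj.refl g))] at h
  by_contra hn
  rw [if_neg hn] at h
  exact zero_ne_one h

namespace No

/-- Step 0: cut groups are inverse semi-rational. -/
theorem isr_of_cut (G : Type) [Group G] [Finite G]
    (h : ∀ u : (MonoidAlgebra ℤ G)ˣ, u ∈ Subgroup.center (MonoidAlgebra ℤ G)ˣ →
      ∃ z ∈ Subgroup.center G, (u : MonoidAlgebra ℤ G) = MonoidAlgebra.of ℤ G z ∨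
        (u : MonoidAlgebra ℤ G) = -MonoidAlgebra.of ℤ G z) : ISR G :=
  ⟨Nat.card G, Nat.card_pos.ne', fun g j hj => isr_of_cut_aux h g j hj⟩

end No

end Pool.Agent.P.MP_ac4bd0_al
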