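import Pool.Agent.P.MP_ac4bd0_al.Units

set_option autoImplicit false

open Polynomial Module

namespace Pool.Agent.P.MP_ac4bd0_al

/-- A rational matrix of finite order has the same trace as its coprime powers. -/
theorem trace_pow_coprime {ι : Type} [Fintype ι] [DecidableEq ι] (M : Matrix ι ι ℚ) (N : ℕ)
    [NeZero N] (hM : M ^ N = 1) (j : ℕ) (hj : j.Coprime N) : (M ^ j).trace = M.trace := by
  obtain ⟨ζ, hζ⟩ : ∃ ζ : ℂ, IsPrimitiveRoot ζ N :=
    ⟨_, Complex.isPrimitiveRoot_exp N (NeZero.ne N)⟩
  let Φ : Matrix ι ι ℚ →+* End ℂ (ι → ℂ) :=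
    (Matrix.toLinAlgEquiv' (R := ℂ) (n := ι)).toRingEquiv.toRingHom.comp
      (algebraMap ℚ ℂ).mapMatrix
  have htr : ∀ X : Matrix ι ι ℚ, LinearMap.trace ℂ (ι → ℂ) (Φ X) = (X.trace : ℂ) := by
    intro X
    have : Φ X = Matrix.toLin' (X.map (algebraMap ℚ ℂ)) := rfl
    rw [this, Matrix.trace_toLin'_eq]
    simp [Matrix.trace]
  obtain ⟨P, hP⟩ := trace_pow_formula (Φ M) N (by rw [← map_pow, hM, map_one]) ζ hζ
  have h1 := hP 1
  have h2 := hP j
  rw [← map_pow, htr] at h1 h2
  rw [pow_one, pow_one] at h1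
  let Q : ℚ[X] := P.map (algebraMap ℤ ℚ) - C M.trace
  have hQ : ∀ x : ℂ, aeval x Q = aeval x P - (M.trace : ℂ) := by
    intro x
    simp only [Q, map_sub, aeval_map_algebraMap, aeval_C, eq_ratCast]
  have h3 : minpoly ℚ ζ ∣ Q := minpoly.dvd ℚ ζ (by rw [hQ, ← h1, sub_self])
  have hζj : IsPrimitiveRoot (ζ ^ j) N := hζ.pow_of_coprime j hj
  rw [← cyclotomic_eq_minpoly_rat hζ (NeZero.pos N),
    cyclotomic_eq_minpoly_rat hζj (NeZero.pos N)] at h3
  obtain ⟨R, hR⟩ := h3
  have h4 : aeval (ζ ^ j) Q = 0 := by rw [hR, map_mul, minpoly.aeval, zero_mul]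
  rw [hQ, ← h2, sub_eq_zero] at h4
  exact_mod_cast h4

/-- The left regular representation of the rational group algebra by matrices. -/
noncomputable def regM (G : Type) [Group G] [Fintype G] [DecidableEq G] :
    MonoidAlgebra ℚ G →ₐ[ℚ] Matrix G G ℚ :=
  MonoidAlgebra.lift ℚ _ G
    { toFun := fun g => Matrix.of fun x y => if x * y⁻¹ = g then 1 else 0
      map_one' := by
        ext x y
        simp [Matrix.one_apply, mul_inv_eq_one]
      map_mul' := fun g h => by
        ext x y
        simp only [Matrix.of_apply, Matrix.mul_apply]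
        rw [Finset.sum_eq_single (g⁻¹ * x)]
        · simp only [mul_inv_rev, inv_inv, mul_inv_cancel_left, if_true, one_mul]
          congr 1
          rw [mul_assoc, inv_mul_eq_iff_eq_mul]
        · intro b _ hb
          rw [if_neg, zero_mul]
          rintro rfl
          simp at hb
        · simp }

theorem regM_apply {G : Type} [Group G] [Fintype G] [DecidableEq G] (u : MonoidAlgebra ℚ G)
    (x y : G) : regM G u x y = u.coeff (x * y⁻¹) := by
  rw [regM, MonoidAlgebra.lift_apply, Finsupp.sum_fintype _ _ (by simp), Matrix.sum_apply]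
  simp

theorem regM_injective {G : Type} [Group G] [Fintype G] [DecidableEq G] :
    Function.Injective (regM G) := by
  intro u v h
  ext x
  have := congrFun (congrFun h x) 1
  simpa [regM_apply] using this

theorem trace_regM {G : Type} [Group G] [Fintype G] [DecidableEq G] (u : MonoidAlgebra ℚ G) :
    (regM G u).trace = Fintype.card G * u.coeff 1 := by
  simp [Matrix.trace, regM_apply]

/-- The coefficients of a central idempotent are constant on rational classes. -/
theorem idem_coeff_pow {G : Type} [Group G] [Finite G] (e : MonoidAlgebra ℚ G) (he : e * e = e)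
    (hc : ∀ u, u * e = e * u) (y : G) (j : ℕ) (hj : j.Coprime (Nat.card G)) :
    e.coeff (y ^ j) = e.coeff y := by
  classical
  have := Fintype.ofFinite G
  let a : MonoidAlgebra ℚ G := MonoidAlgebra.of ℚ G y⁻¹ * e + (1 - e)
  have ha : ∀ k : ℕ, a ^ k = MonoidAlgebra.of ℚ G (y⁻¹ ^ k) * e + (1 - e) := by
    intro k
    induction k with
    | zero => simp [← MonoidAlgebra.one_def]
    | succ k ih =>
      rw [pow_succ, ih, pow_succ, map_mul]
      have h1 : ∀ t, e * (t * e) = t * e := fun t => by rw [← mul_assoc, ← hc, mul_assoc, he]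
      simp only [a, add_mul, mul_add, sub_mul, mul_sub, one_mul, mul_one, mul_assoc, h1, he]
      abel
  have hcoef : ∀ k : ℕ, (a ^ k).coeff 1 = e.coeff (y ^ k) + (1 - e).coeff 1 := by
    intro k
    rw [ha]
    simp
  have : NeZero (Nat.card G) := ⟨Nat.card_pos.ne'⟩
  have h := trace_pow_coprime (regM G a) (Nat.card G)
    (by rw [← map_pow, ha, pow_card_eq_one', map_one]; simp) j hj
  have h1 := hcoef 1
  rw [pow_one, pow_one] at h1
  rw [← map_pow, trace_regM, trace_regM, hcoef, h1] at h
  have h0 : (Fintype.card G : ℚ) ≠ 0 := by exact_mod_cast Fintype.card_pos.ne'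
  have := mul_left_cancel₀ h0 h
  linarith

/-- A complex root of the characteristic polynomial of a symmetric rational matrix is real. -/
theorem real_of_root {ι : Type} [Fintype ι] [DecidableEq ι] (M : Matrix ι ι ℚ)
    (hM : M.transpose = M) (μ : ℂ) (h : aeval μ M.charpoly = 0) : (starRingEnd ℂ) μ = μ := by
  let M' : Matrix ι ι ℂ := M.map (algebraMap ℚ ℂ)
  have hH : M'.IsHermitian := by
    ext x y
    have := congrFun (congrFun hM x) y
    simp only [Matrix.transpose_apply] at this
    simp [M', Matrix.conjTranspose_apply, this]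
  have h1 : M'.charpoly.IsRoot μ := by
    rw [Matrix.charpoly_map, IsRoot, eval_map_algebraMap, h]
  have h2 : μ ∈ M'.charpoly.roots := (mem_roots M'.charpoly_monic.ne_zero).mpr h1
  rw [hH.roots_charpoly_eq_eigenvalues] at h2
  obtain ⟨i, -, rfl⟩ := Multiset.mem_map.mp h2
  simp

end Pool.Agent.P.MP_ac4bd0_al
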