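import Pool.Agent.P.MP_ac4bd0_al.No.Basic

set_option autoImplicit false

namespace Pool.Agent.P.MP_ac4bd0_al.No

namespace DescAux

variable {G H : Type} [Group G] [Group H] {π : G →* H} {σ : H →* G}

/-- the kernel component of an element -/
def nu (hπσ : ∀ h, π (σ h) = h) (x : G) : π.ker :=
  ⟨x * (σ (π x))⁻¹, by rw [MonoidHom.mem_ker, map_mul, map_inv, hπσ, mul_inv_cancel]⟩

lemma nu_mul (hπσ : ∀ h, π (σ h) = h) (x y : G) :
    nu hπσ (x * y) = nu hπσ x * MulAut.conjNormal (σ (π x)) (nu hπσ y) := by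
  ext
  simp [nu, mul_assoc]

lemma nu_coe (hπσ : ∀ h, π (σ h) = h) (n : π.ker) : nu hπσ n = n := by
  ext
  simp [nu, MonoidHom.mem_ker.1 n.2]

lemma conj_eq (hπσ : ∀ h, π (σ h) = h) (hcomm : ∀ x ∈ π.ker, ∀ y ∈ π.ker, x * y = y * x) (g : G)
    (n : π.ker) : MulAut.conjNormal g n = MulAut.conjNormal (σ (π g)) n := by
  have h := hcomm _ (nu hπσ g).2 _ (MulAut.conjNormal (σ (π g)) n).2
  ext
  simp only [nu, MulAut.conjNormal_apply] at h ⊢
  calc g * n * g⁻¹ = g * (σ (π g))⁻¹ * (σ (π g) * n * (σ (π g))⁻¹) * (g * (σ (π g))⁻¹)⁻¹ := by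
        group
    _ = _ := by rw [h]; group

end DescAux

open DescAux in
/-- Step 2: Fourier descent to the stabiliser of a sign character of a complemented abelian
normal subgroup. -/
theorem descent {G H : Type} [Group G] [Finite G] [Group H] (π : G →* H) (σ : H →* G)
    (hπσ : ∀ h, π (σ h) = h) (hcomm : ∀ x ∈ π.ker, ∀ y ∈ π.ker, x * y = y * x) (hG : ISR G)
    (lam : π.ker →* ℤˣ) (T : Subgroup H)
    (hT : ∀ s : H, s ∈ T ↔ ∀ n : π.ker, lam (MulAut.conjNormal (σ s) n) = lam n) : ISR T := by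
  classical
  have := Fintype.ofFinite G
  obtain ⟨n, hn, hG⟩ := hG
  refine ⟨2 * (Nat.card G * n), mul_ne_zero two_ne_zero (mul_ne_zero Nat.card_pos.ne' hn),
    fun h j hj => ?_⟩
  have j1 : Odd j := Nat.coprime_two_right.1 hj.coprime_mul_right_right
  have j2 : (Nat.card G).Coprime j := hj.coprime_mul_left_right.coprime_mul_right_right.symm
  have j3 : j.Coprime n := hj.coprime_mul_left_right.coprime_mul_left_right
  let L : G → ℤˣ := fun x => lam (nu hπσ x)
  have Lmul : ∀ x y, π x ∈ T → L (x * y) = L x * L y := fun x y hx => by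
    simp only [L, nu_mul, map_mul, (hT _).1 hx]
  have Lker : ∀ m : π.ker, L m = lam m := fun m => by simp only [L, nu_coe]
  have Lone : L 1 = 1 := (Lker 1).trans (map_one lam)
  have Linv : ∀ x, π x ∈ T → L x⁻¹ = L x := fun x hx => by
    have := Lmul x x⁻¹ hx
    rw [mul_inv_cancel, Lone] at this
    rw [eq_inv_of_mul_eq_one_right this.symm, Int.units_inv_eq_self]
  have Lpow : ∀ x, π x ∈ T → ∀ k : ℕ, L (x ^ k) = L x ^ k := fun x hx k => by
    induction k with
    | zero => rw [pow_zero, pow_zero, Lone]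
    | succ k ih => rw [pow_succ', Lmul _ _ hx, ih, pow_succ']
  let C : H → Prop := fun y => ∃ s ∈ T, s * h * s⁻¹ = y ∨ s * (h : H)⁻¹ * s⁻¹ = y
  have CT : ∀ y, C y → y ∈ T := by
    rintro _ ⟨s, hs, rfl | rfl⟩
    · exact mul_mem (mul_mem hs h.2) (inv_mem hs)
    · exact mul_mem (mul_mem hs (inv_mem h.2)) (inv_mem hs)
  have Cinv : ∀ y, C y → C y⁻¹ := by
    rintro _ ⟨s, hs, rfl | rfl⟩
    · exact ⟨s, hs, Or.inr (by group)⟩
    · exact ⟨s, hs, Or.inl (by group)⟩
  let φ : G → ℤ := fun x => if C (π x) then L x else 0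
  have φinv : ∀ x, φ x⁻¹ = φ x := fun x => by
    by_cases hx : C (π x)
    · simp only [φ, map_inv, if_pos hx, if_pos (Cinv _ hx), Linv x (CT _ hx)]
    · have hx' : ¬ C (π x)⁻¹ := fun c => hx (by simpa only [inv_inv] using Cinv _ c)
      simp only [φ, map_inv, if_neg hx, if_neg hx']
  let Φ : G → ℤ := fun x => ∑ g, φ (g * x * g⁻¹)
  have Φconj : ∀ x y, IsConj x y → Φ y = Φ x := fun x y hxy => by
    obtain ⟨t, rfl⟩ := isConj_iff.1 hxy
    refine Fintype.sum_equiv (Equiv.mulRight t) _ _ fun g => ?_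
    simp only [Equiv.coe_mulRight]
    congr 1
    group
  have Φpow : ∀ x, Φ (x ^ j) = Φ x := fun x => by
    rcases hG x j j3 with c | c
    · exact Φconj _ _ c
    · rw [Φconj _ _ c]
      refine Finset.sum_congr rfl fun g _ => ?_
      rw [← φinv]
      congr 1
      group
  let S : H → ℤ := fun y => ∑ x, if π x = y then L x * Φ x else 0
  let A : H → G → ℤ := fun y g => ∑ x, if π x = y then L x * φ (g * x * g⁻¹) else 0
  have SA : ∀ y, S y = ∑ g, A y g := fun y => by
    simp only [S, A, Φ]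
    rw [Finset.sum_comm]
    refine Finset.sum_congr rfl fun x _ => ?_
    split_ifs
    · rw [Finset.mul_sum]
    · simp
  have A0 : ∀ y g, ¬ C (π g * y * (π g)⁻¹) → A y g = 0 := fun y g hc =>
    Finset.sum_eq_zero fun x _ => by
      split_ifs with e
      · simp only [φ, map_mul, map_inv, e, if_neg hc, mul_zero]
      · rfl
  have A1 : ∀ y g, π g ∉ T → A y g = 0 := fun y g hg => by
    obtain ⟨m, hm⟩ := not_forall.1 (mt (hT _).2 hg)
    rw [← conj_eq hπσ hcomm] at hm
    have hm' := Int.units_ne_iff_eq_neg.1 hm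
    have m1 : π m = 1 := m.2
    have : A y g = -A y g := by
      simp only [A]
      rw [← Finset.sum_neg_distrib]
      refine (Fintype.sum_equiv (Equiv.mulLeft (m : G)) _ _ fun x => ?_).symm
      have e : g * (m * x) * g⁻¹ = MulAut.conjNormal g m * (g * x * g⁻¹) := by
        rw [MulAut.conjNormal_apply]; group
      have m2 : π (MulAut.conjNormal g m) = 1 := (MulAut.conjNormal g m).2
      simp only [Equiv.coe_mulLeft, φ, e]
      rw [Lmul m x (m1 ▸ T.one_mem), Lmul (MulAut.conjNormal g m) _ (m2 ▸ T.one_mem), Lker, Lker,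
        hm', map_mul π (m : G), m1, one_mul, map_mul π (MulAut.conjNormal g m : G), m2, one_mul]
      have := Int.units_coe_mul_self (lam m)
      split_ifs
      · push_cast
        linear_combination (L x * L (g * x * g⁻¹) : ℤ) * this
      · simp
      · simp
    linarith
  have A2 : ∀ y ∈ T, ∀ g, π g ∈ T → C (π g * y * (π g)⁻¹) → 0 < A y g := fun y hy g hg hc => by
    refine Finset.sum_pos' (fun x _ => ?_) ⟨σ y, Finset.mem_univ _, ?_⟩
    all_goals
      have key : ∀ x, π x = y → (L x : ℤ) * φ (g * x * g⁻¹) = 1 := fun x e => by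
        simp only [φ, map_mul, map_inv, e, if_pos hc]
        rw [Lmul _ _ (by rw [map_mul, e]; exact mul_mem hg hy), Lmul _ _ hg, Linv _ hg]
        have a1 := Int.units_coe_mul_self (L x)
        have a2 := Int.units_coe_mul_self (L g)
        push_cast
        linear_combination (L g * L g : ℤ) * a1 + a2
    · split_ifs with e
      · rw [key x e]; exact zero_le_one
      · exact le_rfl
    · rw [if_pos (hπσ y), key _ (hπσ y)]
      exact one_pos
  have Apos : 0 < S h := by
    rw [SA]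
    refine Finset.sum_pos' (fun g _ => ?_) ⟨1, Finset.mem_univ _, A2 h h.2 1 (by simp) ?_⟩
    · by_cases hg : π g ∈ T
      · by_cases hc : C (π g * h * (π g)⁻¹)
        · exact (A2 h h.2 g hg hc).le
        · exact (A0 h g hc).ge
      · exact (A1 h g hg).ge
    · exact ⟨1, T.one_mem, Or.inl (by simp)⟩
  have Spow : S ((h : H) ^ j) = S h := by
    refine (Fintype.sum_equiv (powCoprime j2) _ _ fun x => ?_).symm
    have e : π (x ^ j) = (h : H) ^ j ↔ π x = h := by
      refine ⟨fun c => ?_, fun c => by rw [map_pow, c]⟩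
      have c' : powCoprime j2 (σ (π x)) = powCoprime j2 (σ h) := by
        simp only [powCoprime_apply, ← map_pow, c]
      rw [← hπσ (π x), (powCoprime j2).injective c', hπσ]
    simp only [powCoprime_apply, e]
    split_ifs with c
    · rw [Φpow, Lpow x (c ▸ h.2), Int.units_pow_eq_pow_mod_two, Nat.odd_iff.1 j1, pow_one]
    · rfl
  rw [← Spow, SA] at Apos
  obtain ⟨g, -, hg⟩ := Finset.exists_ne_zero_of_sum_ne_zero Apos.ne'
  have g1 : π g ∈ T := by_contra fun c => hg (A1 _ g c)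
  obtain ⟨s, hs, e | e⟩ : C (π g * (h : H) ^ j * (π g)⁻¹) := by_contra fun c => hg (A0 _ g c)
  · refine Or.inl (isConj_iff.2 ⟨⟨(π g)⁻¹ * s, mul_mem (inv_mem g1) hs⟩, Subtype.ext ?_⟩)
    change (π g)⁻¹ * s * h * ((π g)⁻¹ * s)⁻¹ = (h : H) ^ j
    rw [← mul_left_cancel_iff (a := π g), ← mul_right_cancel_iff (a := (π g)⁻¹), ← e]
    group
  · refine Or.inr (isConj_iff.2 ⟨⟨(π g)⁻¹ * s, mul_mem (inv_mem g1) hs⟩, Subtype.ext ?_⟩)
    change (π g)⁻¹ * s * (h : H)⁻¹ * ((π g)⁻¹ * s)⁻¹ = (h : H) ^ j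
    rw [← mul_left_cancel_iff (a := π g), ← mul_right_cancel_iff (a := (π g)⁻¹), ← e]
    group

end Pool.Agent.P.MP_ac4bd0_al.No
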