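import Pool.Agent.P.MP_ac4bd0_al.No.Descent

set_option autoImplicit false

namespace Pool.Agent.P.MP_ac4bd0_al.No

namespace RedAux

/-- a nontrivial element of an abelian group of exponent two is detected by a sign character -/
lemma exists_sign {G : Type} [Group G] (N : Subgroup G) (hcomm : ∀ x ∈ N, ∀ y ∈ N, x * y = y * x)
    (h2 : ∀ x ∈ N, x ^ 2 = 1) {v : N} (hv : v ≠ 1) : ∃ lam : N →* ℤˣ, lam v ≠ 1 := by
  letI : CommGroup N := { (inferInstance : Group N) with
    mul_comm := fun x y => Subtype.ext (hcomm _ x.2 _ y.2) }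
  letI : Module (ZMod 2) (Additive N) := AddCommGroup.zmodModule fun x =>
    Additive.toMul.injective (Subtype.ext (h2 _ x.toMul.2))
  have h := mt (Module.forall_dual_apply_eq_zero_iff (ZMod 2) (Additive.ofMul v)).1 hv
  obtain ⟨f, hf⟩ := not_forall.1 h
  refine ⟨MonoidHom.mk' (fun n => (-1 : ℤˣ) ^ f (Additive.ofMul n)) fun a b => by
    rw [ofMul_mul, map_add, uzpow_add], ?_⟩
  change (-1 : ℤˣ) ^ f (Additive.ofMul v) ≠ 1
  generalize f (Additive.ofMul v) = z at hf
  revert z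
  decide

/-- the dual module of a complemented minimal normal `2`-subgroup -/
lemma dual_module {G H : Type} [Group G] [Finite G] [Group H] (π : G →* H) (σ : H →* G)
    (hπσ : ∀ h, π (σ h) = h) (hcomm : ∀ x ∈ π.ker, ∀ y ∈ π.ker, x * y = y * x)
    (h2 : ∀ x ∈ π.ker, x ^ 2 = 1) (hG : ISR G) (h0 : π.ker ≠ ⊥)
    (hmin : ∀ M : Subgroup G, M.Normal → M ≠ ⊥ → M ≤ π.ker → M = π.ker)
    (hf : ∀ h : H, (∀ n ∈ π.ker, σ h * n = n * σ h) → h = 1) {c : H} (hc : c ≠ 1) :
    ∃ (W : Type) (_ : AddCommGroup W) (_ : Module (ZMod 2) W) (_ : Finite W) (_ : Nontrivial W)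
      (ρ : H →* Module.End (ZMod 2) W),
      (∀ w : W, w ≠ 0 → ∃ s : H, ρ c (ρ s w) ≠ ρ s w) ∧ ∀ w : W, ISR (stab ρ w) := by
  letI : Module (ZMod 2) (Additive (π.ker →* ℤˣ)) := AddCommGroup.zmodModule fun x =>
    Additive.toMul.injective (MonoidHom.ext fun n => Int.units_sq _)
  let r : H → Additive (π.ker →* ℤˣ) →+ Additive (π.ker →* ℤˣ) := fun h =>
    AddMonoidHom.mk' (fun w => Additive.ofMul
      (w.toMul.comp (MulAut.conjNormal (σ h⁻¹)).toMonoidHom)) fun _ _ => rfl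
  let ρ : H →* Module.End (ZMod 2) (Additive (π.ker →* ℤˣ)) :=
    { toFun := fun h => (r h).toZModLinearMap 2
      map_one' := LinearMap.ext fun w => Additive.toMul.injective (MonoidHom.ext fun n => by
        change w.toMul (MulAut.conjNormal (σ 1⁻¹) n) = w.toMul n
        rw [inv_one, map_one, map_one, MulAut.one_apply])
      map_mul' := fun a b => LinearMap.ext fun w => Additive.toMul.injective
        (MonoidHom.ext fun n => by
          change w.toMul (MulAut.conjNormal (σ (a * b)⁻¹) n) =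
            w.toMul (MulAut.conjNormal (σ b⁻¹) (MulAut.conjNormal (σ a⁻¹) n))
          rw [mul_inv_rev, map_mul, map_mul, MulAut.mul_apply]) }
  have hρ : ∀ h w n, (ρ h w).toMul n = w.toMul (MulAut.conjNormal (σ h⁻¹) n) := fun _ _ _ => rfl
  have hfin : Finite (π.ker →* ℤˣ) := DFunLike.finite _
  have hnt : Nontrivial (Additive (π.ker →* ℤˣ)) := by
    obtain ⟨v, hv⟩ := Subgroup.ne_bot_iff_exists_ne_one.1 h0
    obtain ⟨lam, hlam⟩ := exists_sign π.ker hcomm h2 hv
    exact ⟨⟨Additive.ofMul lam, 0, fun e => hlam (DFunLike.congr_fun (congrArg Additive.toMul e) v)⟩⟩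
  refine ⟨Additive (π.ker →* ℤˣ), inferInstance, inferInstance, inferInstance, hnt, ρ,
    fun w hw => ?_, fun w => descent π σ hπσ hcomm hG w.toMul _ fun s => ?_⟩
  · by_contra hcon
    push Not at hcon
    let M : Subgroup π.ker := ⨅ g : G, w.toMul.ker.comap (MulAut.conjNormal g).toMonoidHom
    have hM : ∀ n, n ∈ M ↔ ∀ g : G, w.toMul (MulAut.conjNormal g n) = 1 := fun n =>
      Subgroup.mem_iInf
    have hn : (M.map π.ker.subtype).Normal := ⟨by
      rintro _ ⟨n, hn, rfl⟩ g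
      refine ⟨MulAut.conjNormal g n, (hM _).2 fun g' => ?_, rfl⟩
      rw [← MulAut.mul_apply, ← map_mul]
      exact (hM n).1 hn _⟩
    have hb : M.map π.ker.subtype = ⊥ := by
      by_contra hb
      have e := hmin _ hn hb (Subgroup.map_subtype_le M)
      refine hw (Additive.toMul.injective (MonoidHom.ext fun n => ?_))
      obtain ⟨m, hm, e'⟩ : (n : G) ∈ M.map π.ker.subtype := e.symm ▸ n.2
      have := (hM m).1 hm 1
      rwa [map_one, MulAut.one_apply, show m = n from Subtype.ext e'] at this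
    refine hc (inv_eq_one.1 (hf _ fun n hn' => ?_))
    have h1 : MulAut.conjNormal (σ c⁻¹) (⟨n, hn'⟩ : π.ker) * (⟨n, hn'⟩ : π.ker)⁻¹ ∈ M := by
      refine (hM _).2 fun g => ?_
      have := congrArg (fun x => x.toMul ⟨n, hn'⟩) (hcon (π g)⁻¹)
      simp only [hρ, inv_inv, ← DescAux.conj_eq hπσ hcomm g] at this
      rw [map_mul, map_mul, this, map_inv, map_inv, mul_inv_cancel]
    have h3 := Subgroup.mem_map_of_mem π.ker.subtype h1
    rw [hb, Subgroup.mem_bot] at h3
    have h4 : σ c⁻¹ * n * (σ c⁻¹)⁻¹ * n⁻¹ = 1 := h3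
    rw [mul_inv_eq_one] at h4
    exact mul_inv_eq_iff_eq_mul.1 h4
  · rw [← Subgroup.inv_mem_iff, mem_stab]
    constructor
    · intro e n
      have := congrArg (fun x => x.toMul n) e
      simpa only [hρ, inv_inv] using this
    · intro e
      refine Additive.toMul.injective (MonoidHom.ext fun n => ?_)
      rw [hρ, inv_inv, e]

lemma eq_one_of_odd {G : Type} [Group G] {v : G} (hv : v * v = 1) {k : ℕ} (hk : Odd k)
    (h : v ^ k = 1) : v = 1 := by
  obtain ⟨m, rfl⟩ := hk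
  rwa [pow_succ, pow_mul, sq, hv, one_pow, one_mul] at h

/-- the complement of the minimal normal subgroup -/
lemma exists_section {G : Type} [Group G] [Finite G] (N : Subgroup G) [N.Normal]
    (hcomm : ∀ x ∈ N, ∀ y ∈ N, x * y = y * x)
    (hmin : ∀ M : Subgroup G, M.Normal → M ≠ ⊥ → M ≤ N → M = N) {v : G} (hv1 : v ≠ 1)
    (hv2 : v * v = 1) (hvN : v ∈ N) (hv : ∀ M : Subgroup G, M.Normal → M ≠ ⊥ → v ∈ M)
    (R : Subgroup (G ⧸ N)) [R.Normal] (hR : R ≠ ⊥) {q : ℕ} (hq : q.Prime) (hq2 : Odd q)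
    (hRq : ∀ x ∈ R, x ^ q = 1) :
    ∃ σ : G ⧸ N →* G, (∀ h, QuotientGroup.mk' N (σ h) = h) ∧
      ∀ h, (∀ n ∈ N, σ h * n = n * σ h) → h = 1 := by
  have := Fact.mk hq
  have hsurj := QuotientGroup.mk'_surjective N
  obtain ⟨Q⟩ : Nonempty (Sylow q (R.comap (QuotientGroup.mk' N))) := Sylow.nonempty
  set Q' : Subgroup G := Subgroup.map (R.comap (QuotientGroup.mk' N)).subtype Q with hQ'
  set H₀ : Subgroup G := Subgroup.normalizer (Q' : Set G) with hH₀
  have hQR : ∀ r ∈ R, ∃ x ∈ Q', QuotientGroup.mk' N x = r := by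
    intro r hr
    have h1 := (Q.mapSurjective (MonoidHom.subgroupComap_surjective_of_surjective _ R
      hsurj)).is_maximal' (Q := ⊤) (fun x => ⟨1, by
        rw [pow_one]
        exact Subtype.ext (Subtype.ext (hRq _ x.1.2))⟩) le_top
    have h2 : (⟨r, hr⟩ : R) ∈ Subgroup.map ((QuotientGroup.mk' N).subgroupComap R) Q :=
      h1.le (Subgroup.mem_top _)
    obtain ⟨x, hx, e⟩ := h2
    exact ⟨x, Subgroup.mem_map_of_mem _ hx, congrArg Subtype.val e⟩
  have hH : ∀ y : G ⧸ N, ∃ x ∈ H₀, QuotientGroup.mk' N x = y := by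
    have h1 := congrArg (Subgroup.map (QuotientGroup.mk' N)) (Sylow.normalizer_sup_eq_top Q)
    rw [Subgroup.map_sup, Subgroup.map_top_of_surjective _ hsurj,
      Subgroup.map_comap_eq_self_of_surjective hsurj, sup_eq_left.2] at h1
    · intro y
      exact h1.ge (Subgroup.mem_top y)
    · intro r hr
      obtain ⟨x, hx, e⟩ := hQR r hr
      exact ⟨x, Subgroup.le_normalizer hx, e⟩
  have hdec : ∀ g : G, ∃ x ∈ H₀, ∃ n ∈ N, g = x * n := fun g => by
    obtain ⟨x, hx, e⟩ := hH (QuotientGroup.mk' N g)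
    exact ⟨x, hx, x⁻¹ * g, QuotientGroup.eq.1 e, by group⟩
  have hnorm : ∀ D : Subgroup G, D.Normal → (∀ d ∈ D, ∀ n ∈ N, n * d = d * n) →
      (H₀ ⊓ D).Normal := fun D hD hc => ⟨by
    rintro d ⟨d1, d2⟩ g
    obtain ⟨x, hx, n, hn, rfl⟩ := hdec g
    have e : x * n * d * (x * n)⁻¹ = x * d * x⁻¹ := by
      rw [mul_assoc x n d, hc d d2 n hn]
      group
    rw [e]
    exact ⟨H₀.mul_mem (H₀.mul_mem hx d1) (H₀.inv_mem hx), hD.conj_mem d d2 x⟩⟩
  have hNH : H₀ ⊓ N = ⊥ := by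
    by_contra hne
    have h1 := hmin _ (hnorm N inferInstance fun d hd n hn => hcomm n hn d hd) hne inf_le_right
    have h2 : H₀ = ⊤ := by
      rw [eq_top_iff]
      intro g _
      obtain ⟨x, hx, n, hn, rfl⟩ := hdec g
      exact mul_mem hx (h1.ge hn).1
    have h3 : Q' ≠ ⊥ := by
      intro h3
      refine hR (eq_bot_iff.2 fun r hr => ?_)
      obtain ⟨x, hx, rfl⟩ := hQR r hr
      rw [h3, Subgroup.mem_bot] at hx
      rw [hx, map_one]
      exact one_mem _
    obtain ⟨k, hk⟩ := (Q.isPGroup'.map (R.comap (QuotientGroup.mk' N)).subtype)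
      ⟨v, hv Q' (Subgroup.normalizer_eq_top_iff.1 h2) h3⟩
    exact hv1 (eq_one_of_odd hv2 hq2.pow (congrArg Subtype.val hk))
  have hCH : H₀ ⊓ Subgroup.centralizer (N : Set G) = ⊥ := by
    by_contra hne
    have h1 := hv _ (hnorm (Subgroup.centralizer (N : Set G)) inferInstance
      fun d hd n hn => hd n hn) hne
    exact hv1 (Subgroup.mem_bot.1 (hNH ▸ (⟨h1.1, hvN⟩ : v ∈ H₀ ⊓ N)))
  have hbij : Function.Bijective ((QuotientGroup.mk' N).comp H₀.subtype) := by
    refine ⟨(injective_iff_map_eq_one _).2 fun x hx => Subtype.ext (Subgroup.mem_bot.1 ?_),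
      fun y => ?_⟩
    · exact hNH ▸ (⟨x.2, (QuotientGroup.eq_one_iff _).1 hx⟩ : (x : G) ∈ H₀ ⊓ N)
    · obtain ⟨x, hx, e⟩ := hH y
      exact ⟨⟨x, hx⟩, e⟩
  let e := MulEquiv.ofBijective _ hbij
  refine ⟨H₀.subtype.comp e.symm.toMonoidHom, fun h => e.apply_symm_apply h, fun h hh => ?_⟩
  have h1 : ((e.symm h : H₀) : G) ∈ H₀ ⊓ Subgroup.centralizer (N : Set G) :=
    ⟨(e.symm h).2, fun n hn => (hh n hn).symm⟩
  rw [hCH, Subgroup.mem_bot] at h1
  rw [← e.apply_symm_apply h, show e.symm h = 1 from Subtype.ext h1, map_one]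

lemma mem_closure_map {G H : Type} [Group G] [Group H] (f : G →* H) {c x : G}
    (h : x ∈ Subgroup.normalClosure ({c} : Set G)) :
    f x ∈ Subgroup.normalClosure ({f c} : Set H) := by
  have h1 : Subgroup.normalClosure ({c} : Set G) ≤
      (Subgroup.normalClosure ({f c} : Set H)).comap f := by
    apply Subgroup.normalClosure_le_normal
    rintro _ rfl
    exact Subgroup.subset_normalClosure (Set.mem_singleton _)
  exact h1 h

end RedAux

open RedAux in
/-- Step 1 (with Step 2): reduction to a module over the field with two elements all of whose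
vector stabilisers are inverse semi-rational. -/
theorem reduce (G : Type) [Group G] [Finite G] [Group.IsSolvable G] (hG : ISR G) (c v : G)
    (hc : c ^ 3 = 1) (hv : v ∈ Subgroup.normalClosure ({c} : Set G)) (hv1 : v ≠ 1)
    (hv2 : v * v = 1) :
    ∃ (H W : Type) (_ : Group H) (_ : Finite H) (_ : Group.IsSolvable H) (_ : AddCommGroup W)
      (_ : Module (ZMod 2) W) (_ : Finite W) (_ : Nontrivial W)
      (ρ : H →* Module.End (ZMod 2) W) (π : G →* H),
      (∀ w : W, w ≠ 0 → ∃ s : H, ρ (π c) (ρ s w) ≠ ρ s w) ∧ ∀ w : W, ISR (stab ρ w) := by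
  induction hn : Nat.card G using Nat.strong_induction_on generalizing G with
  | _ n ih =>
  set L := Subgroup.normalClosure ({c} : Set G) with hL
  by_cases hA : ∃ N : Subgroup G, N.Normal ∧ N ≠ ⊥ ∧ ∃ x ∈ L, x * x ∈ N ∧ x ∉ N
  · obtain ⟨N, hN, hN0, x, hx, hx2, hx1⟩ := hA
    have hlt : Nat.card (G ⧸ N) < n := by
      rw [← hn, Subgroup.card_eq_card_quotient_mul_card_subgroup N]
      exact lt_mul_of_one_lt_right Nat.card_pos ((Subgroup.one_lt_card_iff_ne_bot N).2 hN0)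
    obtain ⟨H, W, _, _, _, _, _, _, _, ρ, π, h1, h2⟩ := ih _ hlt (G ⧸ N)
      (hG.of_surjective _ (QuotientGroup.mk'_surjective N)) (QuotientGroup.mk' N c)
      (QuotientGroup.mk' N x) (by rw [← map_pow, hc, map_one]) (mem_closure_map _ hx)
      (fun e => hx1 ((QuotientGroup.eq_one_iff x).1 e))
      (by rw [← map_mul]; exact (QuotientGroup.eq_one_iff _).2 hx2) rfl
    exact ⟨H, W, ‹_›, ‹_›, ‹_›, ‹_›, ‹_›, ‹_›, ‹_›, ρ, π.comp (QuotientGroup.mk' N), h1, h2⟩
  push Not at hA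
  have hvM : ∀ M : Subgroup G, M.Normal → M ≠ ⊥ → v ∈ M := fun M hM hM0 =>
    hA M hM hM0 v hv (hv2 ▸ M.one_mem)
  have hL0 : L ≠ ⊥ := fun e => hv1 (Subgroup.mem_bot.1 (e ▸ hv))
  obtain ⟨N, hN, hN0, -, hmin, hcomm, p, hp, hNp⟩ := exists_min_normal L hL0
  have hvN := hvM N hN hN0
  have hp2 : p = 2 := hp.eq_two_or_odd'.resolve_right fun ho =>
    hv1 (eq_one_of_odd hv2 ho (hNp v hvN))
  subst hp2
  have hcN : QuotientGroup.mk' N c ≠ 1 := by
    intro e
    have h1 := hNp c ((QuotientGroup.eq_one_iff c).1 e)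
    rw [pow_succ, h1, one_mul] at hc
    refine hL0 (eq_bot_iff.2 (Subgroup.normalClosure_le_normal ?_))
    rintro _ rfl
    exact hc
  have hsurj := QuotientGroup.mk'_surjective N
  have : (L.map (QuotientGroup.mk' N)).Normal := Subgroup.Normal.map inferInstance _ hsurj
  obtain ⟨R, hR, hR0, hRL, -, -, q, hq, hRq⟩ := exists_min_normal (L.map (QuotientGroup.mk' N))
    fun e => hcN (Subgroup.mem_bot.1 (e ▸ Subgroup.mem_map_of_mem _
      (Subgroup.subset_normalClosure (Set.mem_singleton c))))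
  have hq2 : Odd q := hq.eq_two_or_odd'.resolve_left fun e => by
    refine hR0 (eq_bot_iff.2 fun r hr => ?_)
    obtain ⟨x, hx, rfl⟩ := hRL hr
    have h1 := hRq _ hr
    rw [e, sq, ← map_mul] at h1
    exact (QuotientGroup.eq_one_iff x).2 (hA N hN hN0 x hx ((QuotientGroup.eq_one_iff _).1 h1))
  obtain ⟨σ, hσ, hf⟩ := exists_section N hcomm hmin hv1 hv2 hvN hvM R hR0 hq hq2 hRq
  have hk := QuotientGroup.ker_mk' N
  obtain ⟨W, _, _, _, _, ρ, h1, h2⟩ := dual_module (QuotientGroup.mk' N) σ hσ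
    (by rw [hk]; exact hcomm) (by rw [hk]; exact hNp) hG (by rw [hk]; exact hN0)
    (by rw [hk]; exact hmin) (by rw [hk]; exact hf) hcN
  exact ⟨G ⧸ N, W, inferInstance, inferInstance, inferInstance, ‹_›, ‹_›, ‹_›, ‹_›, ρ,
    QuotientGroup.mk' N, h1, h2⟩

end Pool.Agent.P.MP_ac4bd0_al.No
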