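import Pool.Agent.P.MP_ac4bd0_al.Wreath
import Pool.Agent.P.MP_ac4bd0_al.No.Basic

set_option autoImplicit false

namespace Pool.Agent.P.MP_ac4bd0_al.No

/-- Affine maps of a field whose slopes lie in a given group of units. -/
@[ext]
structure Af (F : Type) [Field F] (U : Subgroup Fˣ) where
  a : U
  b : F

namespace Af

variable {F : Type} [Field F] {U : Subgroup Fˣ}

instance : Mul (Af F U) := ⟨fun X Y => ⟨X.a * Y.a, ((X.a : Fˣ) : F) * Y.b + X.b⟩⟩
instance : One (Af F U) := ⟨⟨1, 0⟩⟩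
instance : Inv (Af F U) := ⟨fun X => ⟨X.a⁻¹, -((((X.a : Fˣ) : F))⁻¹ * X.b)⟩⟩

@[simp] theorem mul_a (X Y : Af F U) : (X * Y).a = X.a * Y.a := rfl
@[simp] theorem mul_b (X Y : Af F U) : (X * Y).b = ((X.a : Fˣ) : F) * Y.b + X.b := rfl
@[simp] theorem one_a : (1 : Af F U).a = 1 := rfl
@[simp] theorem one_b : (1 : Af F U).b = 0 := rfl
@[simp] theorem inv_a (X : Af F U) : (X⁻¹).a = X.a⁻¹ := rfl
@[simp] theorem inv_b (X : Af F U) : (X⁻¹).b = -((((X.a : Fˣ) : F))⁻¹ * X.b) := rfl

instance : Group (Af F U) :=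
  Group.ofLeftAxioms
    (fun X Y Z => by ext <;> simp [mul_assoc, mul_add, add_assoc])
    (fun X => by ext <;> simp)
    (fun X => by ext <;> simp)

instance [Finite F] : Finite (Af F U) :=
  Finite.of_injective (fun X : Af F U => (X.a, X.b)) (fun X Y h => by
    simp only [Prod.mk.injEq] at h
    exact Af.ext h.1 h.2)

instance : MulAction (Af F U) F where
  smul X x := ((X.a : Fˣ) : F) * x + X.b
  one_smul x := by
    show (((1 : Af F U).a : Fˣ) : F) * x + (1 : Af F U).b = x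
    simp
  mul_smul X Y x := by
    show (((X * Y).a : Fˣ) : F) * x + (X * Y).b =
      ((X.a : Fˣ) : F) * (((Y.a : Fˣ) : F) * x + Y.b) + X.b
    simp only [mul_a, mul_b, Subgroup.coe_mul, Units.val_mul]
    ring

theorem smul_def (X : Af F U) (x : F) : X • x = ((X.a : Fˣ) : F) * x + X.b := rfl

/-- The linear part. -/
def lin : Af F U →* U where
  toFun X := X.a
  map_one' := rfl
  map_mul' _ _ := rfl

/-- Translations. -/
def tr : Multiplicative F →* Af F U where
  toFun t := ⟨1, t.toAdd⟩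
  map_one' := rfl
  map_mul' s t := by ext <;> simp [add_comm]

/-- Dilations. -/
def dil : U →* Af F U where
  toFun a := ⟨a, 0⟩
  map_one' := rfl
  map_mul' s t := by ext <;> simp

theorem solvable : Group.IsSolvable (Af F U) := by
  refine Group.isSolvable_of_ker_le_range tr lin ?_
  intro X hX
  refine ⟨Multiplicative.ofAdd X.b, ?_⟩
  have : X.a = 1 := hX
  ext <;> simp [tr, this]

theorem pow_eq_one (n p : ℕ) (hU : ∀ a : U, a ^ n = 1) (hp : (p : F) = 0) (X : Af F U) :
    X ^ (n * p) = 1 := by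
  have h1 : (X ^ n).a = 1 := by
    rw [show (X ^ n).a = X.a ^ n from map_pow lin X n, hU]
  have h2 : X ^ n = tr (Multiplicative.ofAdd (X ^ n).b) := Af.ext h1 rfl
  rw [pow_mul, h2, ← map_pow, ← ofAdd_nsmul, nsmul_eq_mul, hp, zero_mul, ofAdd_zero, map_one]

end Af

theorem wr_pow_eq_one {S Ω A : Type} [Group S] [MulAction S Ω] [Group A] (n m : ℕ)
    (hS : ∀ s : S, s ^ n = 1) (hA : ∀ a : A, a ^ m = 1) (X : Wr S Ω A) : X ^ (n * m) = 1 := by
  have h1 : (X ^ n).s = 1 := by rw [Wr.pow_s, hS]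
  have h2 : X ^ n = Wr.base (X ^ n).f := Wr.ext h1 rfl
  have h3 : (X ^ n).f ^ m = 1 := funext fun x => hA _
  rw [pow_mul, h2, ← map_pow, h3, map_one]

/-- Inclusion of the top group. -/
def wrTop {S Ω A : Type} [Group S] [MulAction S Ω] [Group A] : S →* Wr S Ω A where
  toFun s := ⟨s, fun _ => 1⟩
  map_one' := rfl
  map_mul' s t := by ext <;> simp

/-- Inclusion of one coordinate of the base group. -/
def wrAt {S Ω A : Type} [Group S] [MulAction S Ω] [Group A] [DecidableEq Ω] (q : Ω) :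
    A →* Wr S Ω A :=
  Wr.base.comp (MonoidHom.mulSingle (fun _ : Ω => A) q)

theorem wrAt_injective {S Ω A : Type} [Group S] [MulAction S Ω] [Group A] [DecidableEq Ω]
    (q : Ω) : Function.Injective (wrAt q : A →* Wr S Ω A) := by
  intro x y h
  have := congrFun (congrArg Wr.f h) q
  simpa [wrAt, Wr.base] using this

theorem wrTop_wrAt {S Ω A : Type} [Group S] [MulAction S Ω] [Group A] [DecidableEq Ω]
    (s : S) (q : Ω) (x : A) :
    (wrTop s * wrAt q x : Wr S Ω A) = wrAt (s • q) x * wrTop s := by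
  ext y
  · simp [wrTop, wrAt, Wr.base]
  · simp [wrTop, wrAt, Wr.base, Pi.mulSingle_apply]

theorem wrAt_comm {S Ω A : Type} [Group S] [MulAction S Ω] [Group A] [DecidableEq Ω]
    {q q' : Ω} (h : q ≠ q') (x y : A) :
    (wrAt q x * wrAt q' y : Wr S Ω A) = wrAt q' y * wrAt q x := by
  simp only [wrAt, MonoidHom.comp_apply, ← map_mul]
  congr 1
  exact (Pi.mulSingle_commute (f := fun _ : Ω => A) h x y).eq

/-- The small factor: a finite solvable group of exponent dividing 12 with an element of order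
3 inverted by an involution and with an involution in its normal closure. -/
theorem exists_small : ∃ (A : Type) (_ : Group A) (_ : Finite A), Group.IsSolvable A ∧
    (∀ x : A, x ^ 12 = 1) ∧ ∃ c u v : A, c ^ 3 = 1 ∧ u * u = 1 ∧ u * c = c⁻¹ * u ∧
      v ∈ Subgroup.normalClosure ({c} : Set A) ∧ v ≠ 1 ∧ v * v = 1 := by
  have : Fact (Nat.Prime 3) := ⟨by norm_num⟩
  have hS : Group.IsSolvable (Af (ZMod 3) ⊤) := Af.solvable
  let A := Wr (Af (ZMod 3) ⊤) (ZMod 3) (Multiplicative (ZMod 2))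
  have h2 : ∀ z : Multiplicative (ZMod 2), z ^ 2 = 1 := by decide
  let c : A := wrTop (Af.tr (Multiplicative.ofAdd 1))
  let u : A := wrTop (Af.dil ⟨-1, Subgroup.mem_top _⟩)
  let z : Multiplicative (ZMod 2) := Multiplicative.ofAdd 1
  let w : A := wrAt 0 z
  have hc : c ∈ Subgroup.normalClosure ({c} : Set A) :=
    Subgroup.subset_normalClosure (Set.mem_singleton _)
  have hv : c * (w * c⁻¹ * w⁻¹) = wrAt 1 z * wrAt 0 z⁻¹ := by
    have := wrTop_wrAt (Af.tr (U := ⊤) (Multiplicative.ofAdd (1 : ZMod 3))) (0 : ZMod 3) z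
    have e : (Af.tr (U := ⊤) (Multiplicative.ofAdd (1 : ZMod 3))) • (0 : ZMod 3) = 1 := by
      simp [Af.smul_def, Af.tr]
    rw [e] at this
    have this' : c * w = wrAt 1 z * c := this
    have e2 : (wrAt 0 z⁻¹ : A) = w⁻¹ := map_inv (wrAt (0 : ZMod 3) : _ →* A) z
    rw [← mul_assoc, ← mul_assoc, this', e2, mul_inv_cancel_right]
  refine ⟨A, inferInstance, inferInstance, Wr.solvable _ _ _, ?_, c, u, c * (w * c⁻¹ * w⁻¹), ?_, ?_,
    ?_, ?_, ?_, ?_⟩
  · refine wr_pow_eq_one (2 * 3) 2 (Af.pow_eq_one 2 3 ?_ ?_) h2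
    · intro a
      apply Subtype.ext
      exact ZMod.units_pow_card_sub_one_eq_one 3 a.1
    · exact ZMod.natCast_self 3
  · rw [← map_pow, ← map_pow, ← ofAdd_nsmul, nsmul_eq_mul, ZMod.natCast_self 3]
    simp
  · rw [← map_mul, ← map_mul]
    have : (⟨-1, Subgroup.mem_top _⟩ * ⟨-1, Subgroup.mem_top _⟩ : (⊤ : Subgroup (ZMod 3)ˣ)) = 1 := by
      apply Subtype.ext
      simp
    rw [this, map_one, map_one]
  · rw [← map_inv, ← map_mul, ← map_mul]
    congr 1
    ext <;> simp [Af.tr, Af.dil]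
  · exact Subgroup.mul_mem _ hc
      (Subgroup.normalClosure_normal.conj_mem _ (Subgroup.inv_mem _ hc) w)
  · rw [hv]
    intro h
    have h3 : (Pi.mulSingle (M := fun _ : ZMod 3 => Multiplicative (ZMod 2)) 1 z) 1 *
        (Pi.mulSingle (M := fun _ : ZMod 3 => Multiplicative (ZMod 2)) 0 z⁻¹) ((1 : ZMod 3)) = 1 := by
      simp only [wrAt, MonoidHom.comp_apply, ← map_mul] at h
      exact congrFun (congrArg Wr.f h) 1
    have h10 : (1 : ZMod 3) ≠ 0 := one_ne_zero
    rw [Pi.mulSingle_eq_same, Pi.mulSingle_eq_of_ne h10, mul_one] at h3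
    revert h3
    decide
  · rw [hv]
    simp only [wrAt, MonoidHom.comp_apply, ← map_mul]
    rw [← pow_two]
    have : (MonoidHom.mulSingle (fun _ : ZMod 3 => Multiplicative (ZMod 2)) 1 z *
        MonoidHom.mulSingle (fun _ : ZMod 3 => Multiplicative (ZMod 2)) 0 z⁻¹) ^ 2 = 1 :=
      funext fun x => h2 _
    rw [this, map_one]

theorem exists_field (c : ℕ) : ∃ (F : Type) (_ : Field F) (_ : Finite F) (α β : Fˣ),
    (3 : F) = 0 ∧ orderOf α = 5 ∧ orderOf β = 7 ∧ c < Nat.card F := by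
  have : Fact (Nat.Prime 3) := ⟨by norm_num⟩
  have : Fact (Nat.Prime 5) := ⟨by norm_num⟩
  have : Fact (Nat.Prime 7) := ⟨by norm_num⟩
  let F := GaloisField 3 (12 * (c + 1))
  have hcard : Nat.card F = 3 ^ (12 * (c + 1)) := GaloisField.card 3 _ (by omega)
  have hu : Nat.card Fˣ = 3 ^ (12 * (c + 1)) - 1 := by rw [Nat.card_units, hcard]
  have h35 : 35 ∣ Nat.card Fˣ := by
    rw [hu, pow_mul]
    have := Nat.sub_dvd_pow_sub_pow (3 ^ 12) 1 (c + 1)
    rw [one_pow] at this
    exact Dvd.dvd.trans (by norm_num) this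
  obtain ⟨α, hα⟩ := exists_prime_orderOf_dvd_card' (G := Fˣ) 5 (Dvd.dvd.trans (by norm_num) h35)
  obtain ⟨β, hβ⟩ := exists_prime_orderOf_dvd_card' (G := Fˣ) 7 (Dvd.dvd.trans (by norm_num) h35)
  refine ⟨F, inferInstance, inferInstance, α, β, ?_, hα, hβ, ?_⟩
  · exact_mod_cast CharP.cast_eq_zero F 3
  · rw [hcard]
    have := Nat.lt_pow_self (n := 12 * (c + 1)) (show 1 < 3 by norm_num)
    omega

/-- The test group. -/
theorem exists_X (c : ℕ) : ∃ (F : Type) (_ : Field F) (_ : Finite F) (α β : F), (3 : F) = 0 ∧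
    α ^ 5 = 1 ∧ α ≠ 1 ∧ β ^ 7 = 1 ∧ β ≠ 1 ∧ c < Nat.card F ∧
    ∃ (X : Type) (_ : Group X) (_ : Finite X), Group.IsSolvable X ∧
      (∀ p : ℕ, p.Prime → p ∣ Nat.card X → p ∈ ({2, 3, 5, 7} : Set ℕ)) ∧
      ∃ (C : Cfg F α β X) (v : X), v ∈ Subgroup.normalClosure ({C.c 0} : Set X) ∧ v ≠ 1 ∧
        v * v = 1 := by
  classical
  obtain ⟨F, _, _, α, β, h3, hα, hβ, hc⟩ := exists_field c
  obtain ⟨A, _, _, hA, hA12, c₀, u₀, v₀, hc₀, hu₀, huc, hv, hv1, hv2⟩ := exists_small
  have hα5 : α ^ 5 = 1 := by rw [← hα, pow_orderOf_eq_one]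
  have hβ7 : β ^ 7 = 1 := by rw [← hβ, pow_orderOf_eq_one]
  let U : Subgroup Fˣ := rootsOfUnity 35 F
  have hαU : α ∈ U := by
    rw [mem_rootsOfUnity, show 35 = 5 * 7 by norm_num, pow_mul, hα5, one_pow]
  have hβU : β ∈ U := by
    rw [mem_rootsOfUnity, show 35 = 7 * 5 by norm_num, pow_mul, hβ7, one_pow]
  have hS : Group.IsSolvable (Af F U) := Af.solvable
  let X := Wr (Af F U) F A
  have hX : ∀ x : X, x ^ (35 * 3 * 12) = 1 :=
    wr_pow_eq_one _ _ (Af.pow_eq_one 35 3 (fun a => Subtype.ext a.2) (by exact_mod_cast h3)) hA12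
  have htr : ∀ s q : F, (Af.tr (U := U) (Multiplicative.ofAdd s)) • q = q + s := by
    intro s q
    simp [Af.smul_def, Af.tr]
  have hdil : ∀ (a : U) (q : F), (Af.dil a) • q = ((a : Fˣ) : F) * q := by
    intro s q
    simp [Af.smul_def, Af.dil]
  have hdt : ∀ (a : U) (s : F), Af.dil a * Af.tr (Multiplicative.ofAdd s) =
      Af.tr (Multiplicative.ofAdd (((a : Fˣ) : F) * s)) * Af.dil a := by
    intro a s
    ext <;> simp [Af.dil, Af.tr]
  let C : Cfg F (α : F) (β : F) X :=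
    { c := fun q => wrAt q c₀
      u := fun q => wrAt q u₀
      τ := fun s => wrTop (Af.tr (Multiplicative.ofAdd s))
      a := wrTop (Af.dil ⟨α, hαU⟩)
      b := wrTop (Af.dil ⟨β, hβU⟩)
      a_pow := by
        rw [← map_pow, ← map_pow, show (⟨α, hαU⟩ : U) ^ 5 = 1 from Subtype.ext hα5, map_one,
          map_one]
      b_pow := by
        rw [← map_pow, ← map_pow, show (⟨β, hβU⟩ : U) ^ 7 = 1 from Subtype.ext hβ7, map_one,
          map_one]
      ab := by rw [← map_mul, ← map_mul, mul_comm, map_mul, map_mul]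
      τ_add := fun s s' => by rw [ofAdd_add, map_mul, map_mul]
      a_τ := fun s => by rw [← map_mul, hdt, map_mul]
      b_τ := fun s => by rw [← map_mul, hdt, map_mul]
      τ_c := fun s q => by rw [wrTop_wrAt, htr]
      τ_u := fun s q => by rw [wrTop_wrAt, htr]
      a_u := fun q => by rw [wrTop_wrAt, hdil]
      b_u := fun q => by rw [wrTop_wrAt, hdil]
      u_sq := fun q => by rw [← map_mul, hu₀, map_one]
      u_comm := fun q q' => by
        by_cases h : q = q'
        · rw [h]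
        · exact wrAt_comm h _ _
      c_pow := fun q => by rw [← map_pow, hc₀, map_one]
      u_c := fun q => by rw [← map_mul, huc, map_mul, map_inv]
      u_c' := fun q q' h => wrAt_comm h _ _ }
  refine ⟨F, inferInstance, inferInstance, α, β, h3, ?_, ?_, ?_, ?_, hc, X, inferInstance,
    inferInstance, Wr.solvable _ _ _, ?_, C, wrAt 0 v₀, ?_, ?_, ?_⟩
  · rw [← Units.val_pow_eq_pow_val, hα5, Units.val_one]
  · intro h
    rw [Units.val_eq_one.mp h, orderOf_one] at hα
    omega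
  · rw [← Units.val_pow_eq_pow_val, hβ7, Units.val_one]
  · intro h
    rw [Units.val_eq_one.mp h, orderOf_one] at hβ
    omega
  · intro p hp hpX
    have := Fact.mk hp
    obtain ⟨x, hx⟩ := exists_prime_orderOf_dvd_card' p hpX
    have h1 : p ∣ 2 ^ 2 * (3 ^ 2 * (5 * 7)) := by
      rw [← hx]
      exact orderOf_dvd_of_pow_eq_one (hX x)
    simp only [Set.mem_insert_iff, Set.mem_singleton_iff]
    rcases (Nat.Prime.dvd_mul hp).mp h1 with h | h
    · exact Or.inl ((Nat.prime_dvd_prime_iff_eq hp (by norm_num)).mp (hp.dvd_of_dvd_pow h))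
    rcases (Nat.Prime.dvd_mul hp).mp h with h | h
    · exact Or.inr (Or.inl
        ((Nat.prime_dvd_prime_iff_eq hp (by norm_num)).mp (hp.dvd_of_dvd_pow h)))
    rcases (Nat.Prime.dvd_mul hp).mp h with h | h
    · exact Or.inr (Or.inr (Or.inl ((Nat.prime_dvd_prime_iff_eq hp (by norm_num)).mp h)))
    · exact Or.inr (Or.inr (Or.inr ((Nat.prime_dvd_prime_iff_eq hp (by norm_num)).mp h)))
  · have h1 : Subgroup.normalClosure ({c₀} : Set A) ≤
        (Subgroup.normalClosure ({C.c 0} : Set X)).comap (wrAt 0) := by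
      apply Subgroup.normalClosure_le_normal
      intro x hx
      rw [Set.mem_singleton_iff] at hx
      subst hx
      exact Subgroup.subset_normalClosure (Set.mem_singleton _)
    exact h1 hv
  · intro h
    exact hv1 (wrAt_injective (S := Af F U) (0 : F) (by rw [h, map_one]))
  · rw [← map_mul, hv2, map_one]

end Pool.Agent.P.MP_ac4bd0_al.No
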