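import Pool.Agent.P.MP_ac4bd0_al.No.Cut
import Pool.Agent.P.MP_ac4bd0_al.No.Reduce
import Pool.Agent.P.MP_ac4bd0_al.No.Block
import Pool.Agent.P.MP_ac4bd0_al.No.XGroup

set_option autoImplicit false

namespace Pool.Agent.P.MP_ac4bd0_al.No

theorem final : ∃ (X : Type) (_ : Group X) (_ : Finite X), Group.IsSolvable X ∧
    (∀ p : ℕ, p.Prime → p ∣ Nat.card X → p ∈ ({2, 3, 5, 7} : Set ℕ)) ∧
    ∀ (G : Type) [Group G] [Finite G], Group.IsSolvable G →
      (∀ u : (MonoidAlgebra ℤ G)ˣ, u ∈ Subgroup.center (MonoidAlgebra ℤ G)ˣ ↔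
        ∃ z ∈ Subgroup.center G, (u : MonoidAlgebra ℤ G) = MonoidAlgebra.of ℤ G z ∨
          (u : MonoidAlgebra ℤ G) = -MonoidAlgebra.of ℤ G z) →
      ¬ ∃ f : X →* G, Function.Injective f := by
  obtain ⟨c, hc⟩ := modthm
  obtain ⟨F, _, _, α, β, h3, hα, hα1, hβ, hβ1, hF, X, _, _, hX, hπ, C, v, hv, hv1, hv2⟩ :=
    exists_X c
  refine ⟨X, inferInstance, inferInstance, hX, hπ, ?_⟩
  rintro G _ _ hG hcut ⟨f, hf⟩
  have hisr : ISR G := isr_of_cut G (fun u hu => (hcut u).mp hu)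
  have hv' : f v ∈ Subgroup.normalClosure ({f (C.c 0)} : Set G) := by
    have h1 : Subgroup.normalClosure ({C.c 0} : Set X) ≤
        (Subgroup.normalClosure ({f (C.c 0)} : Set G)).comap f := by
      apply Subgroup.normalClosure_le_normal
      intro x hx
      rw [Set.mem_singleton_iff] at hx
      subst hx
      exact Subgroup.subset_normalClosure (Set.mem_singleton _)
    exact h1 hv
  obtain ⟨H, W, _, _, _, _, _, _, _, ρ, π, h1, h2⟩ := reduce G hisr (f (C.c 0)) (f v)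
    (by rw [← map_pow, C.c_pow, map_one]) hv'
    (fun h => hv1 (hf (by rw [h, map_one]))) (by rw [← map_mul, hv2, map_one])
  exact hc F α β h3 hα hα1 hβ hβ1 hF H W ρ (C.map (π.comp f)) h1 h2

end Pool.Agent.P.MP_ac4bd0_al.No
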