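import Pool.Agent.P.MP_ac4bd0_al.No.Basic

set_option autoImplicit false

namespace Pool.Agent.P.MP_ac4bd0_al.No

open Equiv

/-- Orbits of a minimal normal subgroup of a solvable permutation group containing all
translations of a finite abelian group are the cosets of a subgroup of prime power order. -/
theorem orbit_sub {G A : Type} [Group G] [Finite G] [Group.IsSolvable G] [AddCommGroup A]
    [Finite A] [Nontrivial A] (f : G →* Perm A) (hf : Function.Injective f)
    (htr : ∀ z : A, ∃ s : G, ∀ x, f s x = x + z) :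
    ∃ (N : Subgroup G) (r : ℕ) (Y : AddSubgroup A), N.Normal ∧ N ≠ ⊥ ∧
      (∀ x ∈ N, ∀ y ∈ N, x * y = y * x) ∧ r.Prime ∧ IsPGroup r N ∧ Y ≠ ⊥ ∧
      (∃ k : ℕ, Nat.card Y = r ^ k) ∧ ∀ (s : G) (x y : A), x - y ∈ Y → f s x - f s y ∈ Y := by
  have htop : (⊤ : Subgroup G) ≠ ⊥ := by
    intro h
    obtain ⟨z, hz⟩ := exists_ne (0 : A)
    obtain ⟨s, hs⟩ := htr z
    have h1 : s = 1 := by
      have : s ∈ (⊤ : Subgroup G) := Subgroup.mem_top s
      rwa [h, Subgroup.mem_bot] at this
    have h2 := hs 0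
    rw [h1, map_one, zero_add] at h2
    exact hz h2.symm
  obtain ⟨N, hN, hN0, -, -, hcomm, r, hr, hpow⟩ := exists_min_normal (⊤ : Subgroup G) htop
  let R : A → A → Prop := fun x y => ∃ n ∈ N, f n y = x
  have Rconj : ∀ (s : G) (x y : A), R x y → R (f s x) (f s y) := by
    rintro s x y ⟨n, hn, rfl⟩
    refine ⟨s * n * s⁻¹, hN.conj_mem n hn s, ?_⟩
    simp
  have Radd : ∀ x y z : A, R x y → R (x + z) (y + z) := by
    intro x y z h
    obtain ⟨s, hs⟩ := htr z
    rw [← hs, ← hs]
    exact Rconj s x y h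
  have Rsymm : ∀ x y : A, R x y → R y x := by
    rintro x y ⟨n, hn, rfl⟩
    exact ⟨n⁻¹, N.inv_mem hn, by simp⟩
  have Rtrans : ∀ x y z : A, R x y → R y z → R x z := by
    rintro x y z ⟨n, hn, rfl⟩ ⟨m, hm, rfl⟩
    exact ⟨n * m, N.mul_mem hn hm, by simp⟩
  let Y : AddSubgroup A :=
    { carrier := {y | R y 0}
      zero_mem' := ⟨1, N.one_mem, by simp⟩
      add_mem' := by
        intro x y hx hy
        have h1 := Radd x 0 y hx
        rw [zero_add] at h1
        exact Rtrans _ _ _ h1 hy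
      neg_mem' := by
        intro x hx
        have h1 := Radd x 0 (-x) hx
        rw [zero_add, add_neg_cancel] at h1
        exact Rsymm _ _ h1 }
  have hY : ∀ x y : A, x - y ∈ Y ↔ R x y := by
    intro x y
    constructor
    · intro h
      have h1 := Radd _ _ y h
      rwa [sub_add_cancel, zero_add] at h1
    · intro h
      have h1 := Radd _ _ (-y) h
      rw [add_neg_cancel, ← sub_eq_add_neg] at h1
      exact h1
  have hP : IsPGroup r N := by
    intro x
    exact ⟨1, Subtype.ext (by simpa using hpow x x.2)⟩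
  refine ⟨N, r, Y, hN, hN0, hcomm, hr, hP, ?_, ?_, ?_⟩
  · intro h0
    apply hN0
    rw [eq_bot_iff]
    intro n hn
    rw [Subgroup.mem_bot]
    apply hf
    rw [map_one]
    ext x
    have h1 : f n x - x ∈ Y := (hY _ _).mpr ⟨n, hn, rfl⟩
    rw [h0, AddSubgroup.mem_bot, sub_eq_zero] at h1
    simpa using h1
  · have := Fact.mk hr
    let _ : MulAction N A := MulAction.compHom A (f.comp N.subtype)
    obtain ⟨k, hk⟩ := hP.card_orbit (0 : A)
    refine ⟨k, ?_⟩
    rw [← hk]
    apply Nat.card_congr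
    refine Equiv.setCongr (s := (Y : Set A)) ?_
    ext y
    constructor
    · rintro ⟨n, hn, rfl⟩
      exact ⟨⟨n, hn⟩, rfl⟩
    · rintro ⟨n, rfl⟩
      exact ⟨n.1, n.2, rfl⟩
  · intro s x y h
    exact (hY _ _).mpr (Rconj s x y ((hY _ _).mp h))

theorem affine_of_step {p : ℕ} [NeZero p] (g : ZMod p → ZMod p) (k : ZMod p)
    (h : ∀ x, g (x + 1) = g x + k) (x : ZMod p) : g x = k * x + g 0 := by
  have : ∀ n : ℕ, g n = k * n + g 0 := by
    intro n
    induction n with
    | zero => simp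
    | succ n ih => rw [Nat.cast_succ, h, ih]; ring
  rw [← ZMod.natCast_zmod_val x, this]

/-- Lemma Q for a faithful action. -/
theorem lemmaQ_inj {G : Type} [Group G] [Finite G] [Group.IsSolvable G] {p : ℕ}
    [hp : Fact p.Prime] (f : G →* Perm (ZMod p)) (hf : Function.Injective f)
    (htr : ∀ z : ZMod p, ∃ s : G, ∀ x, f s x = x + z) (t : G) :
    ∃ k : ZMod p, ∀ x, f t x = k * x + f t 0 := by
  classical
  obtain ⟨N, r, Y, hN, hN0, hcomm, hr, hP, hY0, ⟨k, hk⟩, -⟩ := orbit_sub f hf htr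
  have hYc : Nat.card Y = p := by
    have h1 : Nat.card Y ∣ p := by
      have := AddSubgroup.card_addSubgroup_dvd_card Y
      rwa [Nat.card_zmod] at this
    rcases (Nat.dvd_prime hp.out).mp h1 with h | h
    · exact absurd (AddSubgroup.eq_bot_of_card_eq Y h) hY0
    · exact h
  have hrp : r = p := by
    rw [hYc] at hk
    have : p ∣ r ^ k := hk ▸ dvd_rfl
    exact ((Nat.prime_dvd_prime_iff_eq hp.out hr).mp (hp.out.dvd_of_dvd_pow this)).symm
  subst hrp
  obtain ⟨τ, hτ⟩ := htr 1
  have hτn : ∀ (n : ℕ) (x : ZMod r), f (τ ^ n) x = x + n := by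
    intro n
    induction n with
    | zero => simp
    | succ n ih =>
      intro x
      rw [pow_succ, map_mul, Perm.mul_apply, ih, hτ, Nat.cast_succ]
      ring
  have hτp : τ ^ r = 1 := by
    apply hf
    ext x
    rw [hτn]
    simp
  let _ : Fintype N := Fintype.ofFinite N
  have hdvd : r ∣ Fintype.card N := by
    obtain ⟨n, hn⟩ := IsPGroup.iff_card.mp hP
    rw [← Nat.card_eq_fintype_card, hn]
    apply dvd_pow_self
    rintro rfl
    exact hN0 (Subgroup.eq_bot_of_card_eq N (by simpa using hn))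
  let σ : Perm N := MulAut.toPerm N (MulAut.conjNormal τ)
  have hσ : σ ^ r ^ 1 = 1 := by
    rw [pow_one, ← map_pow, ← map_pow, hτp, map_one, map_one]
  obtain ⟨m, hm, hm1⟩ := Perm.exists_fixed_point_of_prime' hdvd hσ (a := 1)
    (map_one (MulAut.conjNormal τ))
  have hm2 : τ * m = m * τ := by
    have := congrArg Subtype.val hm
    simp only [σ, MulAut.toPerm, MonoidHom.coe_mk, OneHom.coe_mk, MulEquiv.toEquiv_eq_coe,
      EquivLike.coe_coe, MulAut.conjNormal_apply] at this
    rw [mul_inv_eq_iff_eq_mul] at this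
    exact this
  have hm3 : ∀ x, f m x = x + f m 0 := by
    intro x
    have := affine_of_step (f m) 1 (fun x => by
      rw [← hτ, ← hτ, ← Perm.mul_apply, ← map_mul, ← hm2, map_mul, Perm.mul_apply]) x
    rwa [one_mul] at this
  have hc : f m 0 ≠ 0 := by
    intro h0
    apply hm1
    apply Subtype.ext
    apply hf
    ext x
    rw [hm3, h0]
    simp
  have hmn : ∀ (n : ℕ) (x : ZMod r), f ((m : G) ^ n) x = x + n * f m 0 := by
    intro n
    induction n with
    | zero => simp
    | succ n ih =>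
      intro x
      rw [pow_succ, map_mul, Perm.mul_apply, ih, hm3 x, Nat.cast_succ]
      ring
  have hτN : τ ∈ N := by
    have : τ = (m : G) ^ ((f m 0)⁻¹).val := by
      apply hf
      ext x
      rw [hmn, hτ, ZMod.natCast_zmod_val, inv_mul_cancel₀ hc]
    rw [this]
    exact N.pow_mem m.2 _
  have hconj : t * τ * t⁻¹ ∈ N := hN.conj_mem τ hτN t
  have hc2 := hcomm _ hconj τ hτN
  have hc3 : ∀ x, f (t * τ * t⁻¹) x = x + f (t * τ * t⁻¹) 0 := by
    intro x
    have := affine_of_step (f (t * τ * t⁻¹)) 1 (fun x => by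
      rw [← hτ, ← hτ, ← Perm.mul_apply, ← map_mul, hc2, map_mul, Perm.mul_apply]) x
    rwa [one_mul] at this
  refine ⟨f (t * τ * t⁻¹) 0, affine_of_step _ _ fun x => ?_⟩
  rw [← hc3, ← hτ]
  simp

/-- Lemma Q: a solvable group acting on `ZMod p` with all translations acts by affine maps. -/
theorem lemmaQ {G : Type} [Group G] [Group.IsSolvable G] {p : ℕ}
    [hp : Fact p.Prime] (f : G →* Perm (ZMod p))
    (htr : ∀ z : ZMod p, ∃ s : G, ∀ x, f s x = x + z) (t : G) (x : ZMod p) :
    f t x = (f t 1 - f t 0) * x + f t 0 := by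
  have : Group.IsSolvable f.range := Group.isSolvable_of_surjective f.rangeRestrict_surjective
  obtain ⟨k, hk⟩ := lemmaQ_inj f.range.subtype Subtype.val_injective (fun z => by
    obtain ⟨s, hs⟩ := htr z
    exact ⟨⟨f s, s, rfl⟩, hs⟩) ⟨f t, t, rfl⟩
  have hk' : ∀ x, f t x = k * x + f t 0 := hk
  rw [hk' x, hk' 1]
  ring

/-- Slopes of an imprimitive solvable action on `ZMod p × ZMod q`. -/
theorem slopes {T : Type} [Group T] [Group.IsSolvable T] {p q : ℕ} [Fact p.Prime] [Fact q.Prime]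
    (f : T →* Perm (ZMod p × ZMod q)) (htr : ∀ z, ∃ s : T, ∀ x, f s x = x + z)
    (hblock : ∀ (t : T) (x y : ZMod p × ZMod q), x.2 = y.2 → (f t x).2 = (f t y).2) :
    ∃ (d : T →* ZMod p) (d' : T →* ZMod q), ∀ (t : T) (k : ZMod p) (k' : ZMod q),
      (∀ x, f t (x + (1, 0)) = f t x + (k, 0)) → (∀ x, f t (x + (0, 1)) = f t x + (0, k')) →
      d t = k ^ q ∧ d' t = k' := by
  classical
  let g₀ : T →* Function.End (ZMod q) :=
    { toFun := fun t j => (f t (0, j)).2
      map_one' := by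
        funext j
        simp
        rfl
      map_mul' := by
        intro s t
        funext j
        show (f (s * t) (0, j)).2 = (f s (0, (f t (0, j)).2)).2
        rw [map_mul, Perm.mul_apply]
        exact hblock _ _ _ rfl }
  let g : T →* Perm (ZMod q) := g₀.toHomPerm
  have hg : ∀ t j, g t j = (f t (0, j)).2 := fun t j => rfl
  have hg' : ∀ t x, (f t x).2 = g t x.2 := fun t x => hblock _ _ _ rfl
  have hQ := lemmaQ g (fun z => by
    obtain ⟨s, hs⟩ := htr (0, z)
    exact ⟨s, fun x => by rw [hg, hs]; rfl⟩)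
  let T₀ : Subgroup T :=
    { carrier := {t | g t 0 = 0}
      one_mem' := by simp
      mul_mem' := by
        intro s t hs ht
        have hs' : g s 0 = 0 := hs
        have ht' : g t 0 = 0 := ht
        show g (s * t) 0 = 0
        rw [map_mul, Perm.mul_apply, ht', hs']
      inv_mem' := by
        intro s hs
        have hs' : g s 0 = 0 := hs
        show g s⁻¹ 0 = 0
        rw [map_inv, Perm.inv_eq_iff_eq, hs'] }
  let h₀ : T₀ →* Function.End (ZMod p) :=
    { toFun := fun t i => (f t (i, 0)).1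
      map_one' := by
        funext j
        simp
        rfl
      map_mul' := by
        intro s t
        funext i
        show (f (s * t) (i, 0)).1 = (f s ((f t (i, 0)).1, 0)).1
        have ht : (f t (i, 0)).2 = 0 := by
          rw [hg']
          exact t.2
        rw [map_mul, Perm.mul_apply]
        congr 2
        exact Prod.ext rfl ht }
  let h : T₀ →* Perm (ZMod p) := h₀.toHomPerm
  have hh : ∀ (t : T₀) i, h t i = (f t (i, 0)).1 := fun t j => rfl
  have hQ' := lemmaQ h (fun z => by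
    obtain ⟨s, hs⟩ := htr (z, 0)
    refine ⟨⟨s, ?_⟩, fun x => by rw [hh, hs]; rfl⟩
    show g s 0 = 0
    rw [hg, hs]
    simp)
  let m : T → ZMod q → ZMod p := fun t j => (f t (1, j)).1 - (f t (0, j)).1
  have hm : ∀ t i j, (f t (i, j)).1 = m t j * i + (f t (0, j)).1 := by
    intro t i j
    obtain ⟨s, hs⟩ := htr (0, j)
    obtain ⟨s', hs'⟩ := htr (0, -g t j)
    have e : ∀ i, f (s' * t * s) (i, 0) = f t (i, j) + (0, -g t j) := by
      intro i
      rw [map_mul, map_mul, Perm.mul_apply, Perm.mul_apply, hs, hs']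
      simp
    have hmem : s' * t * s ∈ T₀ := by
      show g (s' * t * s) 0 = 0
      rw [hg, e, hg]
      simp
    have := hQ' ⟨_, hmem⟩ i
    simp only [hh, e, Prod.fst_add, add_zero] at this
    exact this
  have hmm : ∀ s t j, m (s * t) j = m s (g t j) * m t j := by
    intro s t j
    have e : ∀ i, (f (s * t) (i, j)).1 =
        m s (g t j) * (f t (i, j)).1 + (f s (0, g t j)).1 := by
      intro i
      rw [map_mul, Perm.mul_apply, ← hm]
      congr 2
      exact Prod.ext rfl (hg' _ _)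
    show (f (s * t) (1, j)).1 - (f (s * t) (0, j)).1 = _
    rw [e, e]
    simp only [m]
    ring
  let d : T →* ZMod p :=
    { toFun := fun t => ∏ j, m t j
      map_one' := by simp [m]
      map_mul' := by
        intro s t
        simp only [hmm, Finset.prod_mul_distrib]
        rw [Equiv.prod_comp (g t) (fun j => m s j)] }
  let d' : T →* ZMod q :=
    { toFun := fun t => g t 1 - g t 0
      map_one' := by simp
      map_mul' := by
        intro s t
        rw [map_mul, Perm.mul_apply, Perm.mul_apply, hQ s (g t 1), hQ s (g t 0)]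
        ring }
  refine ⟨d, d', fun t k k' hk hk' => ⟨?_, ?_⟩⟩
  · show ∏ j, m t j = k ^ q
    have : ∀ j, m t j = k := by
      intro j
      have := congrArg Prod.fst (hk (0, j))
      simp only [Prod.mk_add_mk, zero_add, add_zero, Prod.fst_add] at this
      simp only [m]
      rw [this]
      ring
    simp [this, ZMod.card]
  · show g t 1 - g t 0 = k'
    have := congrArg Prod.snd (hk' (0, 0))
    simp only [Prod.mk_add_mk, zero_add, add_zero, Prod.snd_add] at this
    rw [hg, hg, this]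
    ring

theorem gen5 : ∀ y : ZMod 5 × ZMod 7, y.1 ≠ 0 → ∀ i : ZMod 5, ∃ n : Fin 35,
    ((i, 0) : ZMod 5 × ZMod 7) = n.val • y := by decide

theorem gen7 : ∀ y : ZMod 5 × ZMod 7, y.2 ≠ 0 → ∀ j : ZMod 7, ∃ n : Fin 35,
    ((0, j) : ZMod 5 × ZMod 7) = n.val • y := by decide

instance fact5 : Fact (Nat.Prime 5) := ⟨by norm_num⟩

instance fact7 : Fact (Nat.Prime 7) := ⟨by norm_num⟩

/-- Lemma P: no solvable inverse semi-rational group acts on 35 points with a 35-cycle. -/
theorem lemmaP {T : Type} [Group T] [Finite T] [Group.IsSolvable T] (hT : ISR T)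
    (f : T →* Equiv.Perm (ZMod 5 × ZMod 7)) (a b : T) (ha : ∀ x, f a x = x + (1, 0))
    (hb : ∀ x, f b x = x + (0, 1)) : False := by
  have hpow : ∀ (σ : Perm (ZMod 5 × ZMod 7)) (z : ZMod 5 × ZMod 7), (∀ x, σ x = x + z) →
      ∀ (n : ℕ) x, (σ ^ n) x = x + n • z := by
    intro σ z hσ n
    induction n with
    | zero => simp
    | succ n ih =>
      intro x
      rw [pow_succ, Perm.mul_apply, ih, hσ, succ_nsmul]
      abel
  have htr : ∀ z, ∃ s : T, ∀ x, f s x = x + z := by
    intro z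
    refine ⟨a ^ z.1.val * b ^ z.2.val, fun x => ?_⟩
    rw [map_mul, map_pow, map_pow, Perm.mul_apply, hpow _ _ ha, hpow _ _ hb]
    ext <;> simp
  have hy : ∀ x, f (a * b) x = x + (1, 1) := by
    intro x
    rw [map_mul, Perm.mul_apply, ha, hb]
    ext <;> simp
  -- the element `t` normalising the 35-cycle
  obtain ⟨t, ht⟩ := hT.use f (a * b) 35 2 (by norm_num) (by
    ext1 x
    rw [hpow _ _ hy]
    have : 35 • ((1, 1) : ZMod 5 × ZMod 7) = 0 := by decide
    rw [this]
    simp) (by norm_num)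
  have hk : ∃ (k : ZMod 5) (k' : ZMod 7), (k = 2 ∧ k' = 2 ∨ k = -2 ∧ k' = -2) ∧
      ∀ x, f t (x + (1, 1)) = f t x + (k, k') := by
    rcases ht with ht | ht
    · refine ⟨2, 2, Or.inl ⟨rfl, rfl⟩, fun x => ?_⟩
      have := congrArg (fun σ : Perm (ZMod 5 × ZMod 7) => σ (f t x)) ht
      simp only [Perm.mul_apply, Perm.coe_inv, Equiv.symm_apply_apply, hy, hpow _ _ hy] at this
      rw [this]
      congr 1
    · refine ⟨-2, -2, Or.inr ⟨rfl, rfl⟩, fun x => ?_⟩
      have := congrArg (fun σ : Perm (ZMod 5 × ZMod 7) => σ (f t x)) ht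
      simp only [Perm.mul_apply, Perm.coe_inv, Equiv.symm_apply_apply, hy] at this
      rw [this, Equiv.symm_apply_eq, hpow _ _ hy, add_assoc]
      have : ((-2, -2) : ZMod 5 × ZMod 7) + 2 • (1, 1) = 0 := by decide
      rw [this, add_zero]
  obtain ⟨k, k', hkk, hk⟩ := hk
  have hkn : ∀ (n : ℕ) x, f t (x + n • (1, 1)) = f t x + n • (k, k') := by
    intro n
    induction n with
    | zero => simp
    | succ n ih =>
      intro x
      rw [succ_nsmul, ← add_assoc, hk, ih, succ_nsmul, add_assoc]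
  have hk1 : ∀ x, f t (x + (1, 0)) = f t x + (k, 0) := by
    intro x
    have e1 : ((1, 0) : ZMod 5 × ZMod 7) = 21 • (1, 1) := by decide
    have e2 : ((k, 0) : ZMod 5 × ZMod 7) = 21 • (k, k') := by
      rcases hkk with ⟨rfl, rfl⟩ | ⟨rfl, rfl⟩ <;> decide
    rw [e1, e2, hkn]
  have hk2 : ∀ x, f t (x + (0, 1)) = f t x + (0, k') := by
    intro x
    have e1 : ((0, 1) : ZMod 5 × ZMod 7) = 15 • (1, 1) := by decide
    have e2 : ((0, k') : ZMod 5 × ZMod 7) = 15 • (k, k') := by
      rcases hkk with ⟨rfl, rfl⟩ | ⟨rfl, rfl⟩ <;> decide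
    rw [e1, e2, hkn]
  -- the two characters
  have hd : ∃ (d : T →* ZMod 5) (d' : T →* ZMod 7), (d t = k ^ 7 ∧ d' t = k') ∨
      (d t = k ∧ d' t = k' ^ 5) := by
    have : Group.IsSolvable f.range := Group.isSolvable_of_surjective f.rangeRestrict_surjective
    obtain ⟨N, r, Y, -, -, -, hr, -, hY0, ⟨n, hn⟩, hY⟩ :=
      orbit_sub f.range.subtype Subtype.val_injective (fun z => by
        obtain ⟨s, hs⟩ := htr z
        exact ⟨⟨f s, s, rfl⟩, hs⟩)
    have hY' : ∀ (s : T) x y, x - y ∈ Y → f s x - f s y ∈ Y :=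
      fun s x y h => hY ⟨f s, s, rfl⟩ x y h
    have hYtop : Y ≠ ⊤ := by
      rintro rfl
      have h35 : r ^ n = 35 := by
        rw [← hn]
        simp
      have h5 : 5 ∣ r := (by norm_num : Nat.Prime 5).dvd_of_dvd_pow (n := n) (by rw [h35]; norm_num)
      have h7 : 7 ∣ r := (by norm_num : Nat.Prime 7).dvd_of_dvd_pow (n := n) (by rw [h35]; norm_num)
      have e5 := (Nat.prime_dvd_prime_iff_eq (by norm_num) hr).mp h5
      have e7 := (Nat.prime_dvd_prime_iff_eq (by norm_num) hr).mp h7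
      omega
    have h1 : ∀ y ∈ Y, y.1 ≠ 0 → ∀ i : ZMod 5, ((i, 0) : ZMod 5 × ZMod 7) ∈ Y := by
      intro y hy hy1 i
      obtain ⟨n, hn⟩ := gen5 y hy1 i
      rw [hn]
      exact Y.nsmul_mem hy _
    have h2 : ∀ y ∈ Y, y.2 ≠ 0 → ∀ j : ZMod 7, ((0, j) : ZMod 5 × ZMod 7) ∈ Y := by
      intro y hy hy1 j
      obtain ⟨n, hn⟩ := gen7 y hy1 j
      rw [hn]
      exact Y.nsmul_mem hy _
    have hboth : ¬ ((∃ y ∈ Y, y.1 ≠ 0) ∧ ∃ y ∈ Y, y.2 ≠ 0) := by
      rintro ⟨⟨y, hy, hy1⟩, z, hz, hz2⟩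
      apply hYtop
      rw [eq_top_iff]
      rintro ⟨i, j⟩ -
      have := Y.add_mem (h1 y hy hy1 i) (h2 z hz hz2 j)
      simpa using this
    obtain ⟨y, hy, hy0⟩ : ∃ y ∈ Y, y ≠ 0 := by
      by_contra hcon
      apply hY0
      rw [eq_bot_iff]
      intro y hy
      rw [AddSubgroup.mem_bot]
      by_contra h
      exact hcon ⟨y, hy, h⟩
    by_cases hy1 : y.1 = 0
    · have hy2 : y.2 ≠ 0 := fun h => hy0 (Prod.ext hy1 h)
      have hall : ∀ z ∈ Y, z.1 = 0 := by
        intro z hz
        by_contra h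
        exact hboth ⟨⟨z, hz, h⟩, y, hy, hy2⟩
      let e : ZMod 5 × ZMod 7 ≃ ZMod 7 × ZMod 5 := Equiv.prodComm _ _
      let f' : T →* Perm (ZMod 7 × ZMod 5) := (e.permCongrHom : _ →* _).comp f
      have hf' : ∀ s x, f' s x = (f s x.swap).swap := fun s x => rfl
      obtain ⟨d, d', hd⟩ := slopes f' (fun z => by
        obtain ⟨s, hs⟩ := htr z.swap
        exact ⟨s, fun x => by rw [hf', hs]; rfl⟩) (fun s x y hxy => by
          rw [hf', hf']
          have h3 : x.swap - y.swap ∈ Y := by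
            have := h2 _ hy hy2 (x.1 - y.1)
            have e : x.swap - y.swap = (0, x.1 - y.1) := by
              ext <;> simp [hxy]
            rwa [e]
          have := hall _ (hY' s _ _ h3)
          simpa [sub_eq_zero] using this)
      obtain ⟨h4, h5⟩ := hd t k' k (fun x => by
        rw [hf', hf']
        have := hk2 x.swap
        have e : (x + (1, 0)).swap = x.swap + (0, 1) := rfl
        rw [e, this]
        rfl) (fun x => by
        rw [hf', hf']
        have := hk1 x.swap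
        have e : (x + (0, 1)).swap = x.swap + (1, 0) := rfl
        rw [e, this]
        rfl)
      exact ⟨d', d, Or.inr ⟨h5, h4⟩⟩
    · have hall : ∀ z ∈ Y, z.2 = 0 := by
        intro z hz
        by_contra h
        exact hboth ⟨⟨y, hy, hy1⟩, z, hz, h⟩
      obtain ⟨d, d', hd⟩ := slopes f htr (fun s x z hxz => by
          have h3 : x - z ∈ Y := by
            have := h1 _ hy hy1 (x.1 - z.1)
            have e : x - z = (x.1 - z.1, 0) := by
              ext <;> simp [hxz]
            rwa [e]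
          have := hall _ (hY' s _ _ h3)
          simpa [sub_eq_zero] using this)
      exact ⟨d, d', Or.inl (hd t k k' hk1 hk2)⟩
  obtain ⟨d, d', hd⟩ := hd
  let D : T →* (ZMod 5 × ZMod 7)ˣ := (d.prod d').toHomUnits
  have hD : ((D t : (ZMod 5 × ZMod 7)ˣ) : ZMod 5 × ZMod 7) = (d t, d' t) := rfl
  obtain ⟨s, hs⟩ := hT.use D t 12 5 (by norm_num) (by
    apply Units.ext
    rw [Units.val_pow_eq_pow_val, hD]
    rcases hd with ⟨h1, h2⟩ | ⟨h1, h2⟩ <;> rw [h1, h2] <;>
      rcases hkk with ⟨rfl, rfl⟩ | ⟨rfl, rfl⟩ <;> decide) (by norm_num)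
  rw [mul_comm (D s), mul_inv_cancel_right] at hs
  rcases hs with hs | hs
  · have h := congrArg Units.val hs
    rw [Units.val_pow_eq_pow_val, hD] at h
    revert h
    rcases hd with ⟨h1, h2⟩ | ⟨h1, h2⟩ <;> rw [h1, h2] <;>
      rcases hkk with ⟨rfl, rfl⟩ | ⟨rfl, rfl⟩ <;> decide
  · rw [eq_inv_iff_mul_eq_one] at hs
    have h := congrArg Units.val hs
    rw [Units.val_mul, Units.val_pow_eq_pow_val, hD] at h
    revert h
    rcases hd with ⟨h1, h2⟩ | ⟨h1, h2⟩ <;> rw [h1, h2] <;>
      rcases hkk with ⟨rfl, rfl⟩ | ⟨rfl, rfl⟩ <;> decide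

end Pool.Agent.P.MP_ac4bd0_al.No
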